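import Pool.Agent.P.MP_8be758_nt.L2.If

/-! Step GAUSS. -/

namespace Pool.Agent.P.MP_8be758_nt.L2

open Polynomial Finset Filter
open Pool.Agent.P.MP_8be758_nt.C2
open scoped Classical Topology

section

variable {k : Type} [Field k] [Finite k]

theorem GAUSS_dg (a : ℕ) : dg (Pd k a) = a * (Pd k a).card := by
  rw [dg, sum_congr rfl fun P hP => (mem_Pd.1 hP).2, sum_const, smul_eq_mul, mul_comm]

theorem GAUSS_up {a : ℕ} (ha : 1 ≤ a) : (dg (Pd k a) : ℝ) ≤ qq k ^ a := by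
  have h : ∀ P ∈ Pd k a, IsPr P := fun P hP => (mem_Pd.1 hP).1
  have h1 := natDegree_le_of_dvd ((pr_dvd_iff h _).2 fun P hP =>
    ((h P hP).2.natDegree_dvd_iff_dvd_X_pow_card_pow_sub_X (n := a)).1 (mem_Pd.1 hP).2.dvd)
    (FiniteField.X_pow_card_pow_sub_X_ne_zero _ (by omega) Finite.one_lt_card)
  rw [natDegree_pr h, FiniteField.X_pow_card_pow_sub_X_natDegree_eq _ (by omega)
    Finite.one_lt_card] at h1
  unfold qq
  exact_mod_cast h1

theorem GAUSS_pr (m : ℕ) : (dg (Pr k m) : ℝ) ≤ 2 * qq k ^ m := by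
  induction m with
  | zero =>
    rw [dg, sum_eq_zero fun P hP => Nat.le_zero.1 (mem_Pr.1 hP).2]
    norm_num
  | succ m ih =>
    have h1 : Pr k (m + 1) ⊆ Pd k (m + 1) ∪ Pr k m := fun P hP => by
      obtain ⟨a, b⟩ := mem_Pr.1 hP
      rw [mem_union, mem_Pd, mem_Pr]
      exact (Nat.of_le_succ b).symm.imp (fun e => ⟨a, e⟩) fun e => ⟨a, e⟩
    have h2 : (dg (Pr k (m + 1)) : ℝ) ≤ dg (Pd k (m + 1)) + dg (Pr k m) := by
      exact_mod_cast (dg_mono h1).trans (dg_union_le _ _)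
    have h3 := GAUSS_up (k := k) (a := m + 1) (by omega)
    have h4 := mul_le_mul_of_nonneg_left (two_le_qq (k := k)) (pow_pos (qq_pos (k := k)) m).le
    rw [pow_succ] at h3 ⊢
    linarith

theorem GAUSS_sf {f : k[X]} (hf : Squarefree f) : f.natDegree ≤ dg (pf f) := by
  have h : ∀ P ∈ pf f, IsPr P := fun P => isPr_of_mem_pf
  obtain ⟨g, hg⟩ := (subset_pf_iff hf.ne_zero h).1 subset_rfl
  have g0 : g ≠ 0 := fun e => hf.ne_zero (by rw [hg, e, mul_zero])
  have hu : IsUnit g := by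
    by_contra hu
    obtain ⟨P, a, b⟩ := exists_isPr_dvd hu g0
    have c : P ∈ pf f := (mem_pf hf.ne_zero).2 ⟨a, b.trans ⟨_, hg.trans (mul_comm _ _)⟩⟩
    exact a.2.not_isUnit (hf P ((mul_dvd_mul ((dvd_pr_iff h a).2 c) b).trans hg.symm.dvd))
  rw [← natDegree_pr h]
  refine le_of_eq ?_
  conv_lhs => rw [hg]
  rw [natDegree_mul (monic_pr h).ne_zero g0, natDegree_eq_zero_of_isUnit hu, add_zero]

end

theorem p_GAUSS :
    S_GAUSS := by
  intro k _ _ a ha
  have e : (dg (Pd k a) : ℝ) = a * (Pd k a).card := by rw [GAUSS_dg, Nat.cast_mul]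
  refine ⟨e ▸ GAUSS_up ha, fun h4 => ?_⟩
  obtain ⟨p, hp⟩ := CharP.exists k
  have := Fintype.ofFinite k
  obtain ⟨n, -, hn⟩ := FiniteField.card k p
  have h1 : Squarefree (X ^ Nat.card k ^ a - X : k[X]) :=
    (galois_poly_separable p _ (dvd_pow (by
      rw [Nat.card_eq_fintype_card, hn]; exact dvd_pow_self _ n.ne_zero) (by omega))).squarefree
  have h2 := GAUSS_sf h1
  rw [FiniteField.X_pow_card_pow_sub_X_natDegree_eq _ (by omega) Finite.one_lt_card] at h2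
  have h3 : pf (X ^ Nat.card k ^ a - X : k[X]) ⊆ Pd k a ∪ Pr k (a / 2) := fun P hP => by
    obtain ⟨b, c⟩ := (mem_pf h1.ne_zero).1 hP
    obtain ⟨d, hd⟩ := b.2.natDegree_dvd_iff_dvd_X_pow_card_pow_sub_X.2 c
    rw [mem_union, mem_Pd, mem_Pr]
    rcases d with _ | _ | d
    · omega
    · exact .inl ⟨b, by omega⟩
    · exact .inr ⟨b, (Nat.le_div_iff_mul_le two_pos).2
        (hd ▸ Nat.mul_le_mul_left _ (by omega))⟩
  have h5 : qq k ^ a ≤ dg (Pd k a) + dg (Pr k (a / 2)) := by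
    unfold qq
    exact_mod_cast h2.trans ((dg_mono h3).trans (dg_union_le _ _))
  have h6 := GAUSS_pr (k := k) (a / 2)
  have h7 : qq k ^ (a / 2) * 2 ^ 2 ≤ qq k ^ a :=
    (mul_le_mul_of_nonneg_left (two_pow_le_qq 2) (pow_pos qq_pos _).le).trans
      ((pow_add _ _ _).ge.trans (qq_pow_mono (by omega)))
  linarith

end Pool.Agent.P.MP_8be758_nt.L2
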