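import Pool.Agent.P.MP_8be758_nt.L2.If

/-! Step BIJ. -/

namespace Pool.Agent.P.MP_8be758_nt.L2

open Polynomial Finset Filter
open Pool.Agent.P.MP_8be758_nt.C2
open scoped Classical Topology

theorem BIJ_pr_pf {k : Type} [Field k] [Finite k] {M : k[X]} (hM : M.Monic)
    (hs : Squarefree M) : pr (pf M) = M := by
  have h : ∀ P ∈ pf M, IsPr P := fun P => isPr_of_mem_pf
  obtain ⟨u, hu⟩ := (subset_pf_iff hM.ne_zero h).1 subset_rfl
  have hmu : u.Monic := (monic_pr h).of_mul_monic_left (hu ▸ hM)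
  by_cases hun : IsUnit u
  · rw [hmu.eq_one_of_isUnit hun, mul_one] at hu
    exact hu.symm
  · obtain ⟨P, hP, hd⟩ := exists_isPr_dvd hun hmu.ne_zero
    have h1 : P ∈ pf M := (mem_pf hM.ne_zero).2 ⟨hP, hu ▸ hd.mul_left _⟩
    have h2 : P * P ∣ M := by
      have := mul_dvd_mul ((dvd_pr_iff h hP).2 h1) hd
      rwa [← hu] at this
    exact absurd (hs P h2) hP.2.not_isUnit

theorem p_BIJ :
    S_BIJ := by
  intro k _ _ D φ
  refine sum_bij (fun S _ => pr S) ?_ ?_ ?_ (fun _ _ => rfl)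
  · intro S hS
    obtain ⟨h1, h2, -⟩ := mem_Sc.1 hS
    exact mem_filter.2 ⟨mem_Mo.2 ⟨monic_pr h1, (natDegree_pr h1).trans h2⟩, squarefree_pr h1⟩
  · intro S hS T hT h
    rw [← pf_pr (mem_Sc.1 hS).1, ← pf_pr (mem_Sc.1 hT).1]
    exact congrArg pf h
  · intro M hM
    obtain ⟨h1, h2⟩ := mem_filter.1 hM
    obtain ⟨h3, h4⟩ := mem_Mo.1 h1
    have h : ∀ P ∈ pf M, IsPr P := fun P => isPr_of_mem_pf
    refine ⟨pf M, mem_Sc.2 ⟨h, ?_, disjoint_empty_right _⟩, BIJ_pr_pf h3 h2⟩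
    rw [← natDegree_pr h, BIJ_pr_pf h3 h2, h4]

end Pool.Agent.P.MP_8be758_nt.L2
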