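import Pool.Agent.P.MP_8be758_nt.L2.If

/-! Step ORTH. -/

namespace Pool.Agent.P.MP_8be758_nt.L2

open Polynomial Finset Filter
open Pool.Agent.P.MP_8be758_nt.C2
open scoped Classical Topology

theorem p_ORTH :
    S_ORTH := by
  intro k _ _ _ M y x hM hx hy
  split_ifs with h
  · have h1 : ∀ g ∈ low k x, psi (res M (g * y)) = 1 := by
      intro g hg
      by_cases hg0 : g = 0
      · rw [hg0, zero_mul, res_zero, psi_zero]
      by_cases hy0 : y = 0
      · rw [hy0, mul_zero, res_zero, psi_zero]
      have h1 := natDegree_lt_of_mem_low hg hg0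
      have h2 := natDegree_lt_of_mem_low h hy0
      rw [res_eq_zero (by rw [natDegree_mul hg0 hy0]; omega), psi_zero]
    rw [sum_congr rfl h1, sum_const, nsmul_eq_mul, mul_one, card_low']
  · have hy0 : y ≠ 0 := by
      rintro rfl
      exact h (zero_mem_low _)
    have hd := natDegree_lt_of_mem_low hy hy0
    have hge : M.natDegree - x ≤ y.natDegree := by
      by_contra hc
      exact h (mem_low_of_natDegree_lt (by omega))
    obtain ⟨w, hw⟩ := exists_psi_neg (K := k)
    obtain ⟨j, hj⟩ : ∃ j, M.natDegree - 1 = y.natDegree + j := ⟨M.natDegree - 1 - y.natDegree, by omega⟩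
    have hlM : M.leadingCoeff ≠ 0 := leadingCoeff_ne_zero.2 hM
    have hly : y.leadingCoeff ≠ 0 := leadingCoeff_ne_zero.2 hy0
    have hv : C (w * M.leadingCoeff / y.leadingCoeff) * X ^ j ∈ low k x :=
      mem_low_of_natDegree_lt (lt_of_le_of_lt (natDegree_C_mul_X_pow_le _ _) (by omega))
    have hr : res M (C (w * M.leadingCoeff / y.leadingCoeff) * X ^ j * y) = w := by
      have hlt : (X ^ j * y : k[X]).degree < M.degree := by
        refine degree_lt_degree ?_
        rw [natDegree_X_pow_mul _ hy0]
        omega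
      rw [mul_assoc, res_C_mul, res_of_lt hlt, hj, coeff_X_pow_mul, coeff_natDegree]
      field_simp
    refine sum_char_zero _ (fun g hg => add_mem_low hg hv) fun g _ => ?_
    rw [add_mul, res_add, psi_add, hr, hw, mul_neg_one]

end Pool.Agent.P.MP_8be758_nt.L2
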