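import Pool.Agent.P.MP_8be758_nt.L2.If

/-! Step RF. -/

namespace Pool.Agent.P.MP_8be758_nt.L2

open Polynomial Finset Filter
open Pool.Agent.P.MP_8be758_nt.C2
open scoped Classical Topology

theorem RF_card {k : Type} [Field k] [Finite k] {M y ν : k[X]} {n : ℕ} (hn : n ≤ M.natDegree)
    (hy : y ∈ low k M.natDegree) (hd : M ∣ y - (ν - X ^ n)) :
    ((Gs M ν n).card : ℝ) = if y ∈ low k n then 1 else 0 := by
  have key : ∀ g ∈ Gs M ν n, g = X ^ n + y ∧ y ∈ low k n := by
    intro g hg
    obtain ⟨h1, h2, h3⟩ := mem_Gs.1 hg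
    have hl : g - X ^ n ∈ low k n := by
      rw [mem_low]
      have := degree_sub_lt_left (p := g) (q := X ^ n)
        (by rw [degree_eq_natDegree h1.ne_zero, h2, degree_X_pow]) h1.ne_zero (by simp [h1])
      rwa [degree_eq_natDegree h1.ne_zero, h2] at this
    have h4 : g - X ^ n - y = 0 := eq_zero_of_mem_low (sub_mem_low (low_mono hn hl) hy)
      (by rw [show g - X ^ n - y = g - ν - (y - (ν - X ^ n)) by ring]; exact dvd_sub h3 hd) le_rfl
    exact ⟨by linear_combination h4, sub_eq_zero.1 h4 ▸ hl⟩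
  split_ifs with h
  · have hl : y.degree < (X ^ n : k[X]).degree := by rw [degree_X_pow]; exact mem_low.1 h
    have e : Gs M ν n = {X ^ n + y} := eq_singleton_iff_unique_mem.2
      ⟨mem_Gs.2 ⟨(monic_X_pow n).add_of_left hl, by
        rw [natDegree_add_eq_left_of_degree_lt hl, natDegree_X_pow], by
        rwa [show X ^ n + y - ν = y - (ν - X ^ n) by ring]⟩, fun g hg => (key g hg).1⟩
    rw [e, card_singleton, Nat.cast_one]
  · rw [eq_empty_of_forall_notMem fun g hg => h (key g hg).2, card_empty, Nat.cast_zero]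

theorem p_RF (hROOT : S_ROOT) (hORTH : S_ORTH) :
    S_RF := by
  intro k _ _ _ a c n S ha hS hD
  have hq := qq_pos (k := k)
  have hm := monic_pr hS
  have hd := natDegree_pr hS
  have e0 : rr a c n S = ((Gs (pr S) (rt a c (pr S)) n).card : ℝ) - qq k ^ n / qq k ^ dg S := by
    have e : (Mo k n).filter (fun g => pr S ∣ FF a c g) = Gs (pr S) (rt a c (pr S)) n := by
      ext g
      rw [mem_filter, mem_Mo, mem_Gs, and_assoc,
        hROOT k a c _ (squarefree_pr hS) ((coprime_pr_iff ha hS).2 hD)]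
    rw [rr, cx, e, sum_const, nsmul_eq_mul, mul_one]
  have e1 : dg S ≤ n → rr a c n S = 0 := fun h => by
    rw [e0, card_Gs hm.ne_zero _ (hd ▸ h), hd, sub_self]
  have hy := mod_mem_low hm.ne_zero (rt a c (pr S) - X ^ n)
  have hv : pr S ∣ (rt a c (pr S) - X ^ n) % pr S - (rt a c (pr S) - X ^ n) := by
    rw [EuclideanDomain.mod_eq_sub_mul_div]
    exact ⟨-((rt a c (pr S) - X ^ n) / pr S), by ring⟩
  have e2 : n < dg S → qq k ^ n / qq k ^ dg S = 1 / qq k ^ (dg S - n) := fun h => by
    rw [div_eq_div_iff (by positivity) (by positivity), one_mul, ← pow_add]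
    exact congrArg _ (by omega)
  refine ⟨e1, ?_, fun h => ?_⟩
  · rcases le_or_gt (dg S) n with h | h
    · rw [e1 h, abs_zero]; exact zero_le_one
    have b0 : 0 < 1 / qq k ^ (dg S - n) := by positivity
    have b1 : 1 / qq k ^ (dg S - n) ≤ 1 := (div_le_one (by positivity)).2 (one_le_pow₀ one_le_qq)
    rw [e0, RF_card (hd ▸ h.le) hy hv, e2 h, abs_le]
    split_ifs <;> constructor <;> linarith
  have o := hORTH k (pr S) _ (dg S - n) hm.ne_zero (by omega) hy
  have e3 : ∀ h' ∈ (low k (dg S - n)).erase 0,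
      psi (res (pr S) (h' * ((rt a c (pr S) - X ^ n) % pr S))) =
        psi (h'.coeff (dg S - n - 1)) * psi (res (pr S) (h' * rt a c (pr S))) := by
    intro h' hh
    obtain ⟨h0, h1⟩ := mem_erase.1 hh
    have h2 := natDegree_lt_of_mem_low h1 h0
    have h3 : (h' * X ^ n).degree < (pr S).degree :=
      degree_lt_degree (by rw [natDegree_mul_X_pow n h0, hd]; omega)
    have h4 : res (pr S) (h' * X ^ n) = h'.coeff (dg S - n - 1) := by
      rw [res_of_lt h3, hm.leadingCoeff, div_one, hd,
        show dg S - 1 = dg S - n - 1 + n by omega, coeff_mul_X_pow]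
    rw [← psi_add, ← h4, ← res_add]
    refine congrArg _ (res_congr ?_)
    rw [← mul_add, ← mul_sub, add_comm, ← CharTwo.sub_eq_add]
    exact hv.mul_left _
  rw [← add_sum_erase _ _ (zero_mem_low _), zero_mul, res_zero, psi_zero, sum_congr rfl e3, hd,
    show dg S - (dg S - n) = n by omega] at o
  rw [e0, RF_card (hd ▸ h.le) hy hv, e2 h, eq_sub_of_add_eq' o]
  split_ifs
  · rw [sub_div, div_self (by positivity)]
  · rw [zero_sub, zero_sub, neg_div]

end Pool.Agent.P.MP_8be758_nt.L2
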