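import Pool.Agent.P.MP_8be758_nt.L2.If

/-! Step ROOT. -/

namespace Pool.Agent.P.MP_8be758_nt.L2

open Polynomial Finset Filter
open Pool.Agent.P.MP_8be758_nt.C2
open scoped Classical Topology

theorem ROOT_sq {k : Type} [Field k] [CharP k 2] (x y : k[X]) :
    (x - y) ^ 2 = x ^ 2 - y ^ 2 := by
  have h2 : (2 : k[X]) = 0 := CharTwo.two_eq_zero
  linear_combination (y ^ 2 - x * y) * h2

theorem ROOT_rad {k : Type} [Field k] {M z : k[X]} (hM : Squarefree M) (h : M ∣ z ^ 2) :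
    M ∣ z := hM.isRadical 2 z h

theorem ROOT_mod {k : Type} [Field k] (M z : k[X]) : M ∣ z - z % M :=
  ⟨z / M, by have := EuclideanDomain.div_add_mod z M; linear_combination -this⟩

theorem ROOT_surj {k : Type} [Field k] [Finite k] [CharP k 2] {M : k[X]} (hM : Squarefree M)
    (z : k[X]) : ∃ x, M ∣ x ^ 2 - z := by
  have h0 : M ≠ 0 := hM.ne_zero
  have key := Finset.surj_on_of_inj_on_of_card_le (s := low k M.natDegree)
    (t := low k M.natDegree) (fun x _ => x ^ 2 % M) (fun x _ => mod_mem_low h0 _)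
    (fun x y hx hy h => by
      refine sub_eq_zero.1 (eq_zero_of_mem_low (sub_mem_low hx hy) (ROOT_rad hM ?_) le_rfl)
      rw [ROOT_sq]
      have h' : x ^ 2 % M = y ^ 2 % M := h
      have e : x ^ 2 - y ^ 2 = (x ^ 2 - x ^ 2 % M) - (y ^ 2 - y ^ 2 % M) := by rw [h']; ring
      rw [e]
      exact dvd_sub (ROOT_mod M _) (ROOT_mod M _)) le_rfl (z % M) (mod_mem_low h0 z)
  obtain ⟨x, _, hx⟩ := key
  refine ⟨x, ?_⟩
  have e : x ^ 2 - z = (x ^ 2 - x ^ 2 % M) - (z - z % M) := by rw [hx]; ring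
  rw [e]
  exact dvd_sub (ROOT_mod M _) (ROOT_mod M _)

theorem p_ROOT :
    S_ROOT := by
  intro k _ _ _ a c M hM hMa g
  have hex : ∃ x, M ∣ FF a c x := by
    obtain ⟨u, v, huv⟩ := hMa
    obtain ⟨x, hx⟩ := ROOT_surj hM (-(c * v))
    refine ⟨x, ?_⟩
    have e : FF a c x = a * (x ^ 2 - -(c * v)) + M * (u * c) := by
      unfold FF
      linear_combination (-c) * huv
    rw [e]
    exact dvd_add (hx.mul_left a) (dvd_mul_right _ _)
  have hr : M ∣ FF a c (rt a c M) := Classical.epsilon_spec hex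
  have e : FF a c g = FF a c (rt a c M) + a * (g - rt a c M) ^ 2 := by
    rw [ROOT_sq]; unfold FF; ring
  rw [e, dvd_add_right hr]
  exact ⟨fun h => ROOT_rad hM (hMa.dvd_of_dvd_mul_left h),
    fun h => (dvd_pow h two_ne_zero).mul_left a⟩

end Pool.Agent.P.MP_8be758_nt.L2
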