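import Pool.Agent.P.MP_8be758_nt.L2.If

/-! Step BASE. -/

namespace Pool.Agent.P.MP_8be758_nt.L2

open Polynomial Finset Filter
open Pool.Agent.P.MP_8be758_nt.C2
open scoped Classical Topology

section

variable {k : Type} [Field k]

theorem BASE_pow_dvd {S : Finset k[X]} (h : ∀ P ∈ S, IsPr P) (i : ℕ) (f : k[X]) :
    pr S ^ i ∣ f ↔ ∀ P ∈ S, P ^ i ∣ f := by
  rw [pr, ← prod_pow]
  exact ⟨fun hd _ hP => (dvd_prod_of_mem (fun P => P ^ i) hP).trans hd, fun hd =>
    prod_dvd_of_coprime (fun P hP Q hQ hne => ((h P hP).coprime (h Q hQ) hne).pow) hd⟩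

theorem BASE_sqf {f : k[X]} (hf : f ≠ 0) : Squarefree f ↔ ∀ P, IsPr P → ¬ P ^ 2 ∣ f := by
  rw [squarefree_iff_irreducible_sq_not_dvd_of_ne_zero hf]
  refine ⟨fun h P hP => by rw [sq]; exact h P hP.2, fun h x hx hd => ?_⟩
  obtain ⟨P, hP, hPx⟩ := exists_isPr_dvd hx.not_isUnit hx.ne_zero
  exact h P hP (by rw [sq]; exact (mul_dvd_mul hPx hPx).trans hd)

variable [Finite k]

theorem BASE_ind {i D : ℕ} (hi : i ≠ 0) {f : k[X]} (hf : f ∈ Mo k D) :
    ∑ S ∈ Sle k D, (if pr S ^ i ∣ f then sg S else 0) =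
      if ∀ P, IsPr P → ¬ P ^ i ∣ f then 1 else 0 := by
  obtain ⟨hm, hd⟩ := mem_Mo.1 hf
  have e : (Sle k D).filter (fun S => pr S ^ i ∣ f) =
      ((pf f).filter (fun P => P ^ i ∣ f)).powerset := by
    ext S
    rw [mem_filter, mem_powerset, mem_Sle]
    constructor
    · rintro ⟨⟨h1, _⟩, h2⟩ P hP
      have := (BASE_pow_dvd h1 i f).1 h2 P hP
      exact mem_filter.2 ⟨(mem_pf hm.ne_zero).2 ⟨h1 P hP, (dvd_pow_self P hi).trans this⟩, this⟩
    · intro h
      have h1 : ∀ P ∈ S, IsPr P := fun P hP => isPr_of_mem_pf (mem_filter.1 (h hP)).1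
      refine ⟨⟨h1, ?_⟩, (BASE_pow_dvd h1 i f).2 fun P hP => (mem_filter.1 (h hP)).2⟩
      exact (dg_mono (h.trans (filter_subset _ _))).trans ((dg_pf_le hm.ne_zero).trans hd.le)
  rw [← sum_filter, e, sum_sg_powerset]
  refine if_congr ?_ rfl rfl
  rw [filter_eq_empty_iff]
  exact ⟨fun h P hP hd => h ((mem_pf hm.ne_zero).2 ⟨hP, (dvd_pow_self P hi).trans hd⟩) hd,
    fun h P hP => h P (isPr_of_mem_pf hP)⟩

theorem BASE_cnt {M : k[X]} (hM : M ≠ 0) (D : ℕ) :
    (((Mo k D).filter (fun f => M ∣ f)).card : ℝ) =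
      if M.natDegree ≤ D then qq k ^ D / qq k ^ M.natDegree else 0 := by
  split_ifs with h
  · rw [← card_Gs hM 0 h]
    congr 2
    ext f
    simp [mem_Mo, mem_Gs, and_assoc]
  · rw [Nat.cast_eq_zero, card_eq_zero, filter_eq_empty_iff]
    intro f hf hd
    obtain ⟨hm, hd'⟩ := mem_Mo.1 hf
    exact h (hd' ▸ natDegree_le_of_dvd hd hm.ne_zero)

theorem BASE_grp (D : ℕ) (F : ℕ → ℝ) :
    ∑ S ∈ Sle k D, sg S * F (dg S) =
      ∑ d ∈ range (D + 1), qq k ^ d * xs (-1) (∅ : Finset k[X]) d * F d := by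
  rw [← sum_fiberwise_of_maps_to (s := Sle k D) (t := range (D + 1)) (g := dg)
    (fun S hS => mem_range.2 (Nat.lt_succ_of_le (mem_Sle.1 hS).2))]
  refine sum_congr rfl fun d hd => ?_
  have e : (Sle k D).filter (fun S => dg S = d) = Sc ∅ d := by
    ext S
    rw [mem_filter, mem_Sle, mem_Sc]
    have := mem_range.1 hd
    exact ⟨fun h => ⟨h.1.1, h.2, disjoint_empty_right _⟩, fun h => ⟨⟨h.1, by omega⟩, h.2.1⟩⟩
  rw [e, xs, mul_div_cancel₀ _ (pow_pos qq_pos d).ne', sum_mul]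
  exact sum_congr rfl fun S hS => by rw [(mem_Sc.1 hS).2.1, sg]

theorem BASE_key {i : ℕ} (hi : i ≠ 0) (D : ℕ) :
    (((Mo k D).filter (fun f => ∀ P, IsPr P → ¬ P ^ i ∣ f)).card : ℝ) =
      ∑ d ∈ range (D + 1), qq k ^ d * xs (-1) (∅ : Finset k[X]) d *
        (if i * d ≤ D then qq k ^ D / qq k ^ (i * d) else 0) := by
  rw [← BASE_grp D (fun d => if i * d ≤ D then qq k ^ D / qq k ^ (i * d) else 0), card_filter]
  push_cast
  rw [← sum_congr rfl fun f hf => BASE_ind hi hf, sum_comm]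
  refine sum_congr rfl fun S hS => ?_
  have h1 := (mem_Sle.1 hS).1
  rw [← sum_filter, sum_const, nsmul_eq_mul, BASE_cnt (pow_ne_zero i (monic_pr h1).ne_zero),
    natDegree_pow, natDegree_pr h1, mul_comm]

theorem BASE_one (D : ℕ) :
    ∑ d ∈ range (D + 1), xs (-1) (∅ : Finset k[X]) d = if D = 0 then 1 else 0 := by
  have h := BASE_key (k := k) one_ne_zero D
  have hq := pow_pos (qq_pos (k := k)) D
  have e : ∑ d ∈ range (D + 1), qq k ^ d * xs (-1) (∅ : Finset k[X]) d *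
      (if 1 * d ≤ D then qq k ^ D / qq k ^ (1 * d) else 0) =
      qq k ^ D * ∑ d ∈ range (D + 1), xs (-1) (∅ : Finset k[X]) d := by
    rw [mul_sum]
    refine sum_congr rfl fun d hd => ?_
    rw [if_pos (by have := mem_range.1 hd; omega), one_mul]
    have := (pow_pos (qq_pos (k := k)) d).ne'
    field_simp
  rw [e] at h
  split_ifs with h0
  · subst h0
    rw [filter_true_of_mem, card_Mo] at h
    · simpa using h.symm
    · intro f hf P hP hd
      obtain ⟨hm, h0⟩ := mem_Mo.1 hf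
      rw [pow_one] at hd
      have h1 := natDegree_le_of_dvd hd hm.ne_zero
      have h2 := hP.pos
      omega
  · rw [filter_false_of_mem] at h
    · simpa [hq.ne'] using h.symm
    · intro f hf hn
      obtain ⟨hm, h1⟩ := mem_Mo.1 hf
      obtain ⟨P, hP, hd⟩ := exists_isPr_dvd (f := f)
        (fun hu => h0 (h1 ▸ natDegree_eq_zero_of_isUnit hu)) hm.ne_zero
      exact hn P hP (by rwa [pow_one])

theorem BASE_neg (D : ℕ) :
    xs (-1) (∅ : Finset k[X]) D = if D = 0 then 1 else if D = 1 then -1 else 0 := by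
  rcases D with _ | D
  · simpa using BASE_one (k := k) 0
  · have h1 := BASE_one (k := k) (D + 1)
    rw [sum_range_succ, BASE_one, if_neg (Nat.succ_ne_zero D)] at h1
    rw [if_neg (Nat.succ_ne_zero D)]
    by_cases h : D = 0
    · rw [if_pos h] at h1
      rw [if_pos (by omega)]
      linarith
    · rw [if_neg h] at h1
      rw [if_neg (by omega)]
      linarith

end

theorem p_BASE (hBIJ : S_BIJ) :
    S_BASE := by
  intro k _ _ D
  refine ⟨BASE_neg D, ?_⟩
  have hq := qq_pos (k := k)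
  have h1 := hBIJ k D (fun _ => 1)
  have h2 := BASE_key (k := k) two_ne_zero D
  rw [← filter_congr (fun f hf => BASE_sqf (mem_Mo.1 hf).1.ne_zero)] at h2
  have h3 : xs 1 (∅ : Finset k[X]) D = (((Mo k D).filter Squarefree).card : ℝ) / qq k ^ D := by
    rw [xs]
    simp only [one_pow]
    rw [h1, sum_const, nsmul_eq_mul, mul_one]
  rw [h3, h2]
  simp only [BASE_neg]
  rcases D with _ | _ | D
  · simp
  · simp [sum_range_succ, hq.ne']
  · rw [sum_range_succ', sum_range_succ', sum_eq_zero (fun d _ => by simp)]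
    rw [if_neg (by omega), if_pos (by omega), if_pos (by omega), if_pos rfl, if_pos (by omega),
      if_neg (by omega)]
    field_simp
    ring

end Pool.Agent.P.MP_8be758_nt.L2
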