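import Pool.Agent.P.MP_8be758_nt.L2.If

/-! Step COS. -/

namespace Pool.Agent.P.MP_8be758_nt.L2

open Polynomial Finset Filter
open Pool.Agent.P.MP_8be758_nt.C2
open scoped Classical Topology

theorem p_COS (hORTH : S_ORTH) :
    S_COS := by
  intro k _ _ _ m x0 Λ φ B hm hΛ h0 hadd hφ hB
  have q0 : (0 : ℝ) < qq k ^ m.natDegree := pow_pos qq_pos _
  have orth : ∀ y ∈ low k m.natDegree, ∑ l ∈ low k m.natDegree, psi (res m (l * y)) =
      if y = 0 then qq k ^ m.natDegree else 0 := fun y hy => by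
    rw [hORTH k m y _ hm le_rfl hy, Nat.sub_self]
    refine if_congr ?_ rfl rfl
    rw [mem_low, Nat.cast_zero, Nat.WithBot.lt_zero_iff, degree_eq_bot]
  have ea : ∀ l a b : k[X], psi (res m (l * (a + b))) =
      psi (res m (l * a)) * psi (res m (l * b)) := fun l a b => by
    rw [mul_add, res_add, psi_add]
  have inv : ∀ z, qq k ^ m.natDegree * φ z = ∑ l ∈ low k m.natDegree, psi (res m (l * z)) *
      ∑ y ∈ low k m.natDegree, φ y * psi (res m (l * y)) := fun z => by
    have h1 := mod_mem_low hm z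
    have h2 : φ z = φ (z % m) := by
      rw [← hφ (z % m) (z / m), EuclideanDomain.mod_add_div]
    have h3 : ∀ l, psi (res m (l * z)) = psi (res m (l * (z % m))) := fun l => by
      rw [res_congr (H' := l * (z % m))
        ⟨l * (z / m), by linear_combination -l * EuclideanDomain.mod_add_div z m⟩]
    have h4 : ∀ y ∈ low k m.natDegree, ∑ l ∈ low k m.natDegree,
        psi (res m (l * (z % m))) * (φ y * psi (res m (l * y))) =
        if y = z % m then qq k ^ m.natDegree * φ y else 0 := fun y hy => by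
      have h5 : y + z % m = 0 ↔ y = z % m := by rw [← CharTwo.sub_eq_add, sub_eq_zero]
      rw [← if_congr h5 rfl rfl, ← ite_zero_mul, ← orth _ (add_mem_low hy h1), sum_mul]
      exact sum_congr rfl fun l _ => by rw [ea]; ring
    simp only [h3, mul_sum]
    rw [sum_comm, sum_congr rfl h4, sum_ite_eq', if_pos h1, h2]
  have hat : ∀ l : k[X], 0 ≤ ∑ x ∈ Λ, psi (res m (l * x)) := fun l => by
    by_cases h : ∃ v ∈ Λ, psi (res m (l * v)) = -1
    · obtain ⟨v, hv, e⟩ := h
      exact (sum_char_zero Λ (fun g hg => hadd g hg v hv) fun g _ => by rw [ea, e]; ring).ge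
    · refine sum_nonneg fun x hx => ?_
      rcases psi_eq (res m (l * x)) with e | e
      · rw [e]; exact zero_le_one
      · exact absurd ⟨x, hx, e⟩ h
  have tot : ∑ l ∈ low k m.natDegree, ∑ x ∈ Λ, psi (res m (l * x)) = qq k ^ m.natDegree := by
    rw [sum_comm, sum_congr rfl fun x hx => orth x (hΛ hx), sum_ite_eq', if_pos h0]
  have key : qq k ^ m.natDegree * ∑ x ∈ Λ, φ (x0 + x) = ∑ l ∈ low k m.natDegree,
      (∑ x ∈ Λ, psi (res m (l * x))) * (psi (res m (l * x0)) *
        ∑ y ∈ low k m.natDegree, φ y * psi (res m (l * y))) := by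
    rw [mul_sum, sum_congr rfl fun x _ => inv (x0 + x), sum_comm]
    refine sum_congr rfl fun l _ => ?_
    rw [sum_mul]
    exact sum_congr rfl fun x _ => by rw [ea]; ring
  refine le_of_mul_le_mul_left ?_ q0
  rw [← abs_of_pos q0, ← abs_mul, key, abs_of_pos q0, ← tot, sum_mul]
  refine (abs_sum_le_sum_abs _ _).trans (sum_le_sum fun l _ => ?_)
  rw [abs_mul, abs_mul, abs_psi, one_mul, abs_of_nonneg (hat l)]
  exact mul_le_mul_of_nonneg_left (hB l) (hat l)

end Pool.Agent.P.MP_8be758_nt.L2
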