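import Pool.Agent.P.MP_8be758_nt.L2.If

/-! Step CPL. -/

namespace Pool.Agent.P.MP_8be758_nt.L2

open Polynomial Finset Filter
open Pool.Agent.P.MP_8be758_nt.C2
open scoped Classical Topology

theorem CPL_sum {k : Type} [Field k] (A : Finset k[X]) {D : ℕ} (hD : D ≤ dg A) :
    ∑ d ∈ A.powerset.filter (fun d => dg d = D), sg d =
      sg A * ∑ d ∈ A.powerset.filter (fun d => dg d = dg A - D), sg d := by
  rw [mul_sum]
  refine sum_bij' (fun d _ => A \ d) (fun d _ => A \ d) ?_ ?_ ?_ ?_ ?_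
  · intro d hd
    obtain ⟨h1, h2⟩ := mem_filter.1 hd
    have := dg_sdiff (mem_powerset.1 h1)
    exact mem_filter.2 ⟨mem_powerset.2 sdiff_subset, by omega⟩
  · intro d hd
    obtain ⟨h1, h2⟩ := mem_filter.1 hd
    have := dg_sdiff (mem_powerset.1 h1)
    exact mem_filter.2 ⟨mem_powerset.2 sdiff_subset, by omega⟩
  · exact fun d hd => Finset.sdiff_sdiff_eq_self (mem_powerset.1 (mem_filter.1 hd).1)
  · exact fun d hd => Finset.sdiff_sdiff_eq_self (mem_powerset.1 (mem_filter.1 hd).1)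
  · intro d hd
    have h := sg_union (disjoint_sdiff (s := d) (t := A))
    rw [union_sdiff_of_subset (mem_powerset.1 (mem_filter.1 hd).1)] at h
    rw [h, mul_assoc, sg_mul_self, mul_one]

theorem p_CPL (hSQF : S_SQF) :
    S_CPL := by
  intro k _ _ _ a c n E D C1 lam h hw hc hD
  refine sum_congr rfl fun g hg => ?_
  obtain ⟨g1, g2⟩ := mem_Mo.1 hg
  by_cases hd : Disjoint (pf (FF a c g)) (pf (derivative (a * c)))
  · obtain ⟨h1, h2, -⟩ := hSQF k a c g h hd
    rw [natDegree_FF h.1 g1 (by omega), g2] at h1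
    simp only
    rw [CPL_sum _ (h1 ▸ hD), h1, h2]
    ring
  · simp only [hw.2.2.2.2.1 _ hd, zero_mul, mul_zero]

end Pool.Agent.P.MP_8be758_nt.L2
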