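import Pool.Agent.P.MP_8be758_nt.L2.If

/-! Step DEC. -/

namespace Pool.Agent.P.MP_8be758_nt.L2

open Polynomial Finset Filter
open Pool.Agent.P.MP_8be758_nt.C2
open scoped Classical Topology

theorem DEC_inf {k : Type} [Field k] [CharP k 2] {U V m κ m' a : k[X]} (hU : U ≠ 0) (hB : m ≠ 0)
    (h : a ^ 2 * m = κ + U * m') :
    res (U * V ^ 2) (X * a ^ 6) = res (U * (V ^ 2 * m ^ 3)) (X * κ ^ 3) +
      res (V ^ 2 * m ^ 3) (X * (κ ^ 2 * m' + U * κ * m' ^ 2 + U ^ 2 * m' ^ 3)) := by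
  have h2 : (2 : k[X]) = 0 := CharTwo.two_eq_zero
  rw [← res_mul_mul (U * V ^ 2) _ (pow_ne_zero 3 hB), ← res_mul_mul (V ^ 2 * m ^ 3) _ hU,
    mul_comm (V ^ 2 * m ^ 3) U, ← res_add]
  congr 1
  · ring
  · have e : X * a ^ 6 * m ^ 3 = X * (a ^ 2 * m) ^ 3 := by ring
    rw [e, h]
    linear_combination (X * U * (κ ^ 2 * m' + U * κ * m' ^ 2)) * h2

theorem p_DEC :
    S_DEC := by
  intro hFORM k _ _ _ U V m1 hU hV hd hm hm0
  have h2 : (2 : k[X]) = 0 := CharTwo.two_eq_zero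
  obtain ⟨m2, em⟩ := hm
  by_cases hc : IsCoprime U V
  swap
  · refine ⟨0, fun _ => 1, by simp, ⟨by simp, by simp⟩, fun z _ => ?_⟩
    rw [zero_mul]
    refine mu_eo_eq_zero fun h => hc ?_
    have e : U + m1 * z ^ 2 = U + V * (V * m2 * z ^ 2) := by rw [em]; ring
    rw [e] at h
    exact h.of_add_mul_left_left
  obtain ⟨w, w', hw⟩ := hc
  obtain ⟨U0, a0, eU⟩ := exists_sq_add U
  obtain ⟨V0, b, eV⟩ := exists_sq_add V
  obtain ⟨p, r, ep⟩ := exists_sq_add m2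
  set W := V ^ 2 * m1 ^ 3 with hW
  set κ := derivative (U * m1) with hκ
  set m' := derivative m1 with hm'
  have eκ : κ = a0 ^ 2 * m1 + U * m' := by
    rw [hκ, derivative_mul, ← hm']; congr 2; rw [eU]; exact derivative_sq_add _ _
  have em' : m' = (V * r) ^ 2 := by
    rw [hm', em, ep, show V ^ 2 * (p ^ 2 + X * r ^ 2) = (V * p) ^ 2 + X * (V * r) ^ 2 by ring]
    exact derivative_sq_add _ _
  set A : k[X] → k[X] := fun z => X * (m1 * z ^ 2 * κ * m' ^ 2 + m1 ^ 2 * z ^ 4 * m' ^ 3) with hA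
  refine ⟨psi ((((U.natDegree + 1) / 2 + U.natDegree * (V.natDegree + 1) : ℕ) : k) +
      res W (X * (κ ^ 2 * m' + U * κ * m' ^ 2 + U ^ 2 * m' ^ 3)) +
      res V (w * (X * a0 ^ 2 * b ^ 2 + a0 ^ 3 * U0 + X * b ^ 3 * V0))),
    fun z => psi (res W (A z)), (abs_psi _).le, ⟨fun x y => ?_, fun x => psi_eq _⟩,
    fun z hz => ?_⟩
  · have h1 : A (x + y) = A x + A y := by
      simp only [hA]
      linear_combination (X * (m1 * x * y * κ * m' ^ 2 +
        m1 ^ 2 * m' ^ 3 * (2 * x ^ 3 * y + 3 * x ^ 2 * y ^ 2 + 2 * x * y ^ 3))) * h2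
    simp only [h1, res_add, psi_add]
  · have hlt : (m1 * z ^ 2).natDegree < U.natDegree :=
      lt_of_le_of_lt (natDegree_mul_le.trans (by rw [natDegree_pow])) hz
    have hmon : (U + m1 * z ^ 2).Monic := hU.add_of_left (degree_lt_degree hlt)
    have hdg : (U + m1 * z ^ 2).natDegree = U.natDegree :=
      natDegree_add_eq_left_of_natDegree_lt hlt
    have e1 : U + m1 * z ^ 2 = (U0 + V * p * z) ^ 2 + X * (a0 + V * r * z) ^ 2 := by
      rw [em, ep, eU]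
      linear_combination (-(U0 * V * p * z) - X * a0 * V * r * z) * h2
    have hF := hFORM k (U + m1 * z ^ 2) V (U0 + V * p * z) (a0 + V * r * z) V0 b w e1 eV hmon hV
      (by rwa [hdg]) ⟨-w' + w * V * m2 * z ^ 2, by rw [em]; linear_combination hw⟩
    have e2 : (a0 + V * r * z) ^ 2 * m1 = κ + (U + m1 * z ^ 2) * m' := by
      rw [eκ, em']
      linear_combination (a0 * V * r * z * m1 - U * (V * r) ^ 2) * h2
    have e3 : res V (w * (X * (a0 + V * r * z) ^ 2 * b ^ 2 +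
        (a0 + V * r * z) ^ 3 * (U0 + V * p * z) + X * b ^ 3 * V0)) =
        res V (w * (X * a0 ^ 2 * b ^ 2 + a0 ^ 3 * U0 + X * b ^ 3 * V0)) := by
      refine res_congr ?_
      rw [← AdjoinRoot.mk_eq_mk]
      simp only [map_add, map_mul, map_pow, AdjoinRoot.mk_self, zero_mul, add_zero]
    have e4 : X * (κ ^ 2 * m' + (U + m1 * z ^ 2) * κ * m' ^ 2 + (U + m1 * z ^ 2) ^ 2 * m' ^ 3) =
        X * (κ ^ 2 * m' + U * κ * m' ^ 2 + U ^ 2 * m' ^ 3) + A z := by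
      simp only [hA]
      linear_combination (X * U * m1 * z ^ 2 * m' ^ 3) * h2
    rw [hF, hdg, DEC_inf hmon.ne_zero hm0 e2, e3, e4, res_add]
    simp only [psi_add]
    ring

end Pool.Agent.P.MP_8be758_nt.L2
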