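import Pool.Agent.P.MP_8be758_nt.L2.If

/-! Step FIN. -/

namespace Pool.Agent.P.MP_8be758_nt.L2

open Polynomial Finset Filter
open Pool.Agent.P.MP_8be758_nt.C2
open scoped Classical Topology

theorem p_FIN (hID : S_ID) (hSEL : S_SEL) (hT1 : S_T1) (hT3 : S_T3) (hMID : S_MID) :
    S_FIN := by
  intro hF k _ _ _ a c H
  have q0 : 0 < qq k := by unfold qq; exact_mod_cast Nat.card_pos
  have hp : ∀ f : k[X], ∀ P ∈ pf f, IsPr P := fun f P hP =>
    (mem_filter.1 (mem_filter.1 hP).1).2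
  have A : Tendsto (fun n : ℕ => (2 * n + a.natDegree : ℝ) *
      ((Mo k n).filter (fun g => Irreducible (FF a c g))).card / qq k ^ n) atTop
      (𝓝 (eu (-1) (pf a))) := by
    rw [Metric.tendsto_atTop]
    intro ε hε
    obtain ⟨C1, E0, hC, hE⟩ := hSEL k (pf a) (pf (derivative (a * c))) (hp _) (hp _)
    obtain ⟨κ, n1, hκ, h1⟩ := hMID k a c C1 (ε / 4) H hC (by positivity)
    obtain ⟨n2, h2⟩ := hT1 k a c κ (ε / 4) H (by omega) (by positivity)
    obtain ⟨n3, h3⟩ := hT3 hF k a c κ (ε / 4) H (by omega) (by positivity)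
    refine ⟨n1 + n2 + n3 + (E0 + 1) * κ + a.natDegree + c.natDegree + 1, fun n hn => ?_⟩
    have e1 : E0 + 1 ≤ n / κ := (Nat.le_div_iff_mul_le (by omega)).2 (by omega)
    have e2 : n / κ ≤ n / 2 := Nat.div_le_div_left (by omega) (by norm_num)
    obtain ⟨lam, hl⟩ := hE (n / κ) (by omega)
    have i := hID k a c n (n / κ) C1 lam H hl (by omega) (by omega)
    have a1 := abs_le.1 (h1 n (by omega) lam hl)
    have a2 := abs_le.1 (h2 n (by omega) C1 lam hl)
    have a3 := abs_le.1 (h3 n (by omega) C1 lam hl)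
    rw [← sum_range_add_sum_Ico _ (show n - n / κ + 1 ≤ 2 * n + a.natDegree + 1 by omega),
      ← sum_Ico_consecutive _ (show n - n / κ + 1 ≤ n + a.natDegree + 2 * (n / κ) by omega)
        (show n + a.natDegree + 2 * (n / κ) ≤ 2 * n + a.natDegree + 1 by omega)] at i
    have p := pow_pos q0 n
    have p' := mul_pos hε p
    rw [Real.dist_eq, ← i, abs_lt, lt_sub_iff_add_lt, sub_lt_iff_lt_add, lt_div_iff₀ p,
      div_lt_iff₀ p]
    constructor <;> linarith [a1.1, a1.2, a2.1, a2.2, a3.1, a3.2]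
  have B := A.mul (tendsto_natCast_div_add_atTop ((a.natDegree : ℝ) / 2))
  rw [mul_one] at B
  refine B.congr' ?_
  filter_upwards [eventually_gt_atTop 0] with n hn
  have : (0 : ℝ) < n := by exact_mod_cast hn
  field_simp

end Pool.Agent.P.MP_8be758_nt.L2
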