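import Pool.Agent.P.MP_8be758_nt.L2.If

/-! Step GLB. -/

namespace Pool.Agent.P.MP_8be758_nt.L2

open Polynomial Finset Filter
open Pool.Agent.P.MP_8be758_nt.C2
open scoped Classical Topology

theorem GLB_inj {ι α : Type} [DecidableEq α] {s : Finset ι} {t : Finset α} {f : ι → ℝ} {g : α → ℝ} (e : ι → α)
    (he : Set.InjOn e s) (ht : image e s ⊆ t) (h : ∀ i ∈ s, f i ≤ g (e i))
    (hg : ∀ a ∈ t, a ∉ image e s → 0 ≤ g a) : ∑ i ∈ s, f i ≤ ∑ a ∈ t, g a :=
  ((sum_le_sum h).trans (sum_image he).ge).trans (sum_le_sum_of_subset_of_nonneg ht hg)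

section
variable {k : Type} [Field k] [Finite k]

theorem GLB_xs (s : Finset k[X]) (D : ℕ) : 0 ≤ xs 1 s D := by
  have := qq_pos (k := k)
  unfold xs
  positivity

theorem GLB_mon (hBASE : S_BASE) (hREC : S_REC) (Y : ℕ) (s : Finset k[X]) (hs : ∀ P ∈ s, IsPr P) :
    ((Y : ℝ) + 1) / 2 * eu 1 s ≤ ∑ D ∈ range (Y + 1), xs 1 s D := by
  have hq := two_le_qq (k := k)
  induction s using Finset.induction_on with
  | empty =>
    have : ∀ D ∈ range (Y + 1), (1 / 2 : ℝ) ≤ xs 1 (∅ : Finset k[X]) D := fun D _ => by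
      rw [(hBASE k D).2]
      have : 1 / qq k ≤ 1 / 2 := one_div_le_one_div_of_le (by norm_num) hq
      split_ifs <;> linarith
    have := card_nsmul_le_sum _ _ _ this
    rw [card_range, nsmul_eq_mul] at this
    push_cast at this
    rw [eu_empty]
    linarith
  | insert P s hP ih =>
    have h0 : 0 < qq k ^ P.natDegree := by positivity
    have h1 := ih fun Q hQ => hs Q (mem_insert_of_mem hQ)
    rw [sum_congr rfl fun D _ => hREC k 1 s P D (hs P (mem_insert_self _ _)) hP, sum_add_distrib,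
      ← sum_filter, ← mul_sum] at h1
    have h2 : ∑ D ∈ (range (Y + 1)).filter (fun D => P.natDegree ≤ D),
        xs 1 (insert P s) (D - P.natDegree) ≤ ∑ D ∈ range (Y + 1), xs 1 (insert P s) D :=
      GLB_inj (fun D => D - P.natDegree)
        (fun a ha b hb e => by
          have := (mem_filter.1 ha).2
          have := (mem_filter.1 hb).2
          simp only at e
          omega)
        (fun a ha => by
          obtain ⟨b, hb, rfl⟩ := mem_image.1 ha
          have := mem_range.1 (mem_filter.1 hb).1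
          exact mem_range.2 (by omega))
        (fun _ _ => le_rfl) fun _ _ _ => GLB_xs _ _
    have h3 := mul_le_mul_of_nonneg_left h2 (one_div_pos.2 h0).le
    rw [eu, prod_insert hP, ← eu, mul_left_comm, inv_mul_le_iff₀ (by positivity)]
    linarith

theorem GLB_sum (Y : ℕ) (s : Finset k[X]) : ∑ D ∈ range (Y + 1), xs 1 s D =
    ∑ S ∈ (Sle k Y).filter (fun S => Disjoint S s), ∏ P ∈ S, (qq k ^ P.natDegree)⁻¹ := by
  rw [← sum_fiberwise_of_maps_to (t := range (Y + 1)) (g := dg) fun S hS =>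
    mem_range.2 (Nat.lt_succ_of_le (mem_Sle.1 (mem_filter.1 hS).1).2)]
  refine sum_congr rfl fun D hD => ?_
  rw [xs, sum_div]
  refine sum_congr ?_ fun S hS => ?_
  · ext S
    have := mem_range.1 hD
    rw [mem_Sc, mem_filter, mem_filter, mem_Sle]
    exact ⟨fun h => ⟨⟨⟨h.1, by omega⟩, h.2.2⟩, h.2.1⟩, fun h => ⟨h.1.1.1, h.2, h.1.2⟩⟩
  · rw [prod_inv_distrib, prod_pow_eq_pow_sum, ← (mem_filter.1 hS).2, one_pow, one_div, dg]

theorem GLB_two {P : k[X]} (h : IsPr P) : 2 ≤ qq k ^ P.natDegree :=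
  two_le_qq.trans (le_self_pow₀ one_le_qq (Nat.one_le_iff_ne_zero.1 h.pos))

end

theorem p_GLB (hBASE : S_BASE) (hREC : S_REC) :
    S_GLB := by
  intro k _ _ pa hpa
  have e0 := eu_one_pos pa
  refine ⟨eu 1 pa ^ 2 / 16, by positivity, fun R => ?_⟩
  set h : k[X] → ℝ := fun P => (qq k ^ P.natDegree - 1)⁻¹ with hh
  have h0 : ∀ S : Finset k[X], (∀ P ∈ S, IsPr P) → 0 ≤ ∏ P ∈ S, h P := fun S hS =>
    prod_nonneg fun P hP => inv_nonneg.2 (by linarith [GLB_two (hS P hP)])
  have hY : ((R : ℝ) + 1) / 4 ≤ (((R / 2 : ℕ) : ℝ) + 1) / 2 := by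
    have : ((R + 1 : ℕ) : ℝ) ≤ ((2 * (R / 2) + 2 : ℕ) : ℝ) := Nat.cast_le.2 (by omega)
    push_cast at this
    linarith
  set Y := R / 2
  set y : ℝ := ((Y : ℝ) + 1) / 2
  have y0 : 0 ≤ y := by positivity
  let F : ℕ → Finset k[X] → Finset (Finset k[X]) := fun N s =>
    (Sle k N).filter (fun S => Disjoint S s)
  have mF : ∀ {N s S}, S ∈ F N s ↔ ((∀ P ∈ S, IsPr P) ∧ dg S ≤ N) ∧ Disjoint S s := by
    intro N s S
    rw [mem_filter, mem_Sle]
  calc eu 1 pa ^ 2 / 16 * ((R : ℝ) + 1) ^ 2 = (((R : ℝ) + 1) / 4 * eu 1 pa) ^ 2 := by ring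
    _ ≤ (y * eu 1 pa) ^ 2 := by gcongr
    _ ≤ y * eu 1 pa * ∑ S ∈ F Y pa, ∏ P ∈ S, (qq k ^ P.natDegree)⁻¹ := by
      rw [sq, ← GLB_sum]
      exact mul_le_mul_of_nonneg_left (GLB_mon hBASE hREC Y pa hpa) (by positivity)
    _ ≤ ∑ S ∈ F Y pa, ∑ T ∈ F Y (pa ∪ S), (∏ P ∈ S, h P) * ∏ P ∈ T, h P := by
      rw [mul_sum]
      refine sum_le_sum fun S hS => ?_
      obtain ⟨⟨a1, -⟩, a2⟩ := mF.1 hS
      have b1 := GLB_mon hBASE hREC Y (pa ∪ S) fun P hP => (mem_union.1 hP).elim (hpa P) (a1 P)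
      rw [GLB_sum, eu_union _ a2.symm] at b1
      have b2 : ∏ P ∈ S, (qq k ^ P.natDegree)⁻¹ ≤ (∏ P ∈ S, h P) * eu 1 S := by
        rw [eu, ← prod_mul_distrib]
        refine prod_le_prod (fun P hP => inv_nonneg.2 (by linarith [GLB_two (a1 P hP)]))
          fun P hP => ?_
        have := GLB_two (a1 P hP)
        simp only [hh]
        generalize qq k ^ P.natDegree = x at this
        have x0 : 0 < x := by linarith
        rw [← mul_inv]
        refine inv_anti₀ (mul_pos (by linarith) (by positivity)) ?_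
        have : (x - 1) * (1 + 1 / x) = x - 1 / x := by field_simp; ring
        rw [this]
        have := one_div_pos.2 x0
        linarith
      rw [← mul_sum]
      calc _ ≤ y * eu 1 pa * ((∏ P ∈ S, h P) * eu 1 S) :=
            mul_le_mul_of_nonneg_left b2 (by positivity)
        _ = (∏ P ∈ S, h P) * (y * (eu 1 pa * eu 1 S)) := by ring
        _ ≤ _ := by
          refine mul_le_mul_of_nonneg_left (b1.trans (sum_le_sum fun T hT => ?_)) (h0 S a1)
          have c := (mF.1 hT).1.1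
          exact prod_le_prod (fun P hP => inv_nonneg.2 (by linarith [GLB_two (c P hP)]))
            fun P hP => inv_anti₀ (by linarith [GLB_two (c P hP)]) (by linarith)
    _ ≤ ∑ S ∈ F R pa, ∑ T ∈ S.powerset, (∏ P ∈ T, h P) * ∏ P ∈ S \ T, h P := by
      rw [sum_sigma', sum_sigma']
      have key : ∀ p ∈ (F Y pa).sigma (fun S => F Y (pa ∪ S)), (p.1 ∪ p.2) \ p.1 = p.2 :=
        fun p hp => union_sdiff_cancel_left
          (disjoint_union_right.1 (mF.1 (mem_sigma.1 hp).2).2).2.symm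
      refine GLB_inj (fun p => ⟨p.1 ∪ p.2, p.1⟩) (fun p hp p' hp' e => ?_)
        (fun a ha => ?_) (fun p hp => by simp only [key p hp, le_refl]) fun a ha _ => ?_
      · have e1 : p.1 ∪ p.2 = p'.1 ∪ p'.2 := congrArg Sigma.fst e
        have e2 : p.1 = p'.1 := congrArg (fun z : (Σ _ : Finset k[X], Finset k[X]) => z.2) e
        refine Sigma.ext e2 (heq_of_eq ?_)
        rw [← key p hp, ← key p' hp', e1, e2]
      · obtain ⟨p, hp, rfl⟩ := mem_image.1 ha
        obtain ⟨⟨a1, a2⟩, a3⟩ := mF.1 (mem_sigma.1 hp).1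
        obtain ⟨⟨b1, b2⟩, b3⟩ := mF.1 (mem_sigma.1 hp).2
        refine mem_sigma.2 ⟨mF.2 ⟨⟨fun P hP => (mem_union.1 hP).elim (a1 P) (b1 P),
          (dg_union_le _ _).trans (by omega)⟩, disjoint_union_left.2
            ⟨a3, (disjoint_union_right.1 b3).1⟩⟩, mem_powerset.2 subset_union_left⟩
      · have c := (mF.1 (mem_sigma.1 ha).1).1.1
        exact mul_nonneg (h0 _ fun P hP => c P (mem_powerset.1 (mem_sigma.1 ha).2 hP))
          (h0 _ fun P hP => c P (mem_sdiff.1 hP).1)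
    _ = ∑ S ∈ F R pa, ∏ P ∈ S, gp pa P / (1 - gp pa P) := by
      refine sum_congr rfl fun S hS => ?_
      rw [← prod_add]
      refine prod_congr rfl fun P hP => ?_
      have := GLB_two ((mF.1 hS).1.1 P hP)
      simp only [hh, gp, if_neg (disjoint_left.1 (mF.1 hS).2 hP)]
      generalize qq k ^ P.natDegree = x at this
      have x1 : x - 1 ≠ 0 := by linarith
      have x2 : x + 1 ≠ 0 := by linarith
      have x3 : 1 - 2 / (x + 1) = (x - 1) / (x + 1) := by field_simp; ring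
      rw [x3]
      field_simp
      ring
    _ ≤ _ := by
      refine sum_le_sum_of_subset_of_nonneg (filter_subset _ _) fun S hS _ =>
        prod_nonneg fun P hP => ?_
      have := GLB_two ((mem_Sle.1 hS).1 P hP)
      unfold gp
      split_ifs
      · simp
      · refine div_nonneg (by positivity) (sub_nonneg.2 ?_)
        rw [div_le_one (by linarith)]
        linarith

end Pool.Agent.P.MP_8be758_nt.L2
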