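import Pool.Agent.P.MP_8be758_nt.L2.If

/-! Step ID. -/

namespace Pool.Agent.P.MP_8be758_nt.L2

open Polynomial Finset Filter
open Pool.Agent.P.MP_8be758_nt.C2
open scoped Classical Topology

theorem ID_sum {k : Type} [Field k] {A : Finset k[X]} (hA : A ≠ ∅) (n : ℝ) :
    ∑ d ∈ A.powerset, (n - dg d) * sg d = if A.card = 1 then (dg A : ℝ) else 0 := by
  obtain ⟨P, hP⟩ := nonempty_iff_ne_empty.2 hA
  obtain ⟨B, hB, rfl⟩ : ∃ B, P ∉ B ∧ A = insert P B :=
    ⟨A.erase P, notMem_erase _ _, (insert_erase hP).symm⟩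
  rw [sum_powerset_insert hB, ← sum_add_distrib]
  have : ∀ d ∈ B.powerset, (n - dg d) * sg d + (n - dg (insert P d)) * sg (insert P d) =
      P.natDegree * sg d := fun d hd => by
    have h : P ∉ d := fun h => hB (mem_powerset.1 hd h)
    rw [dg_insert h, sg_insert h]; push_cast; ring
  rw [sum_congr rfl this, ← mul_sum, sum_sg_powerset, card_insert_of_notMem hB]
  by_cases h : B = ∅
  · subst h; simp [dg]
  · rw [if_neg h, if_neg (by have := card_pos.2 (nonempty_iff_ne_empty.2 h); omega), mul_zero]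

theorem p_ID (hSQF : S_SQF) :
    S_ID := by
  intro k _ _ _ a c n E C1 lam hH hW hE hn
  obtain ⟨w0, w1, -, -, w2, -⟩ := hW
  rw [card_filter, Nat.cast_sum, mul_sum]
  simp only [NN, NX, one_mul, mul_sum]
  rw [sum_comm]
  refine sum_congr rfl fun g hg => ?_
  obtain ⟨g1, g2⟩ := mem_Mo.1 hg
  have hF := FF_ne_zero hH g
  have hN := natDegree_FF (c := c) hH.1 g1 (by omega)
  rw [g2] at hN
  have hS := hSQF k a c g hH
  have hle := dg_pf_le hF
  set A := pf (FF a c g) with hA
  have e1 : ∑ D ∈ range (2 * n + a.natDegree + 1),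
      ∑ d ∈ A.powerset.filter (fun d => dg d = D), ((n : ℝ) - D) * (wt lam A * sg d) =
      wt lam A * ∑ d ∈ A.powerset, ((n : ℝ) - dg d) * sg d := by
    rw [mul_sum, ← sum_fiberwise_of_maps_to (s := A.powerset) (g := dg)
      (t := range (2 * n + a.natDegree + 1)) (fun d hd => mem_range.2 (by
        have := dg_mono (mem_powerset.1 hd); omega))]
    refine sum_congr rfl fun D _ => sum_congr rfl fun d hd => ?_
    rw [(mem_filter.1 hd).2]; ring
  rw [e1]
  by_cases hd : Disjoint A (pf (derivative (a * c)))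
  · obtain ⟨s1, -, s2⟩ := hS hd
    have hne : A ≠ ∅ := fun h => by rw [h, dg_empty] at s1; omega
    rw [ID_sum hne]
    by_cases hi : Irreducible (FF a c g)
    · obtain ⟨P, hP⟩ := card_eq_one.1 (s2.1 hi)
      have l0 : lam {P} = 0 := by
        by_contra h
        have := (mem_Sle.1 (w1 _ h)).2
        rw [← hP] at this; omega
      have : wt lam A = 1 := by
        rw [hP, wt, ← insert_empty_eq, sum_powerset_insert (notMem_empty _)]
        simp [w0, l0]
      rw [if_pos (s2.1 hi), if_pos hi, this, s1, hN]; push_cast; ring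
    · rw [if_neg (mt s2.2 hi), if_neg hi]; simp
  · rw [w2 A hd, if_neg, zero_mul, Nat.cast_zero, mul_zero]
    intro hi
    refine hd (disjoint_left.2 fun P h1 h2 => ?_)
    obtain ⟨p1, p2⟩ := (mem_pf hF).1 h1
    have d1 := natDegree_eq_natDegree (degree_eq_degree_of_associated (p1.2.associated_of_dvd hi p2))
    have d2 := natDegree_le_of_dvd ((mem_pf hH.2.2).1 h2).2 hH.2.2
    have d3 := natDegree_derivative_le (a * c)
    have d4 := natDegree_mul_le (p := a) (q := c)
    omega

end Pool.Agent.P.MP_8be758_nt.L2
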