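import Pool.Agent.P.MP_8be758_nt.L2.If

/-! Step KLB. -/

namespace Pool.Agent.P.MP_8be758_nt.L2

open Polynomial Finset Filter
open Pool.Agent.P.MP_8be758_nt.C2
open scoped Classical Topology

theorem KLB_mod {k : Type} [Field k] (m a : k[X]) : m ∣ a % m - a := by
  rw [EuclideanDomain.mod_eq_sub_mul_div]
  exact ⟨-(a / m), by ring⟩

theorem KLB_inv {k : Type} [Field k] [Finite k] {m u u' x : k[X]} (hm : m ≠ 0)
    (hu : m ∣ u * u' - 1) (hx : x ∈ low k m.natDegree) : (u' * ((u * x) % m)) % m = x := by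
  have h1 := KLB_mod m (u' * ((u * x) % m))
  have h2 := KLB_mod m (u * x)
  have h3 : m ∣ (u' * ((u * x) % m)) % m - x := by
    have e : (u' * ((u * x) % m)) % m - x =
        ((u' * ((u * x) % m)) % m - u' * ((u * x) % m)) + u' * ((u * x) % m - u * x) +
          x * (u * u' - 1) := by ring
    rw [e]
    exact dvd_add (dvd_add h1 (dvd_mul_of_dvd_right h2 _)) (dvd_mul_of_dvd_right hu _)
  exact sub_eq_zero.1 (eq_zero_of_mem_low (sub_mem_low (mod_mem_low hm _) hx) h3 le_rfl)

theorem KLB_perm {k : Type} [Field k] [Finite k] {m u u' : k[X]} (hm : m ≠ 0)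
    (hu : m ∣ u * u' - 1) (f : k[X] → ℝ) :
    ∑ x ∈ low k m.natDegree, f ((u * x) % m) = ∑ x ∈ low k m.natDegree, f x := by
  have hu' : m ∣ u' * u - 1 := by rwa [mul_comm]
  refine sum_nbij' (fun x => (u * x) % m) (fun x => (u' * x) % m) ?_ ?_ ?_ ?_ ?_
  · intro x _; exact mod_mem_low hm _
  · intro x _; exact mod_mem_low hm _
  · intro x hx; exact KLB_inv hm hu hx
  · intro x hx; exact KLB_inv hm hu' hx
  · intro x _; rfl

theorem KLB_twist {k : Type} [Field k] [Finite k] {m t t' : k[X]} (hm : m ≠ 0)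
    (ht : m ∣ t * t' - 1) (h l : k[X]) : Kl m (h * t) ((l * t') % m) = Kl m h l := by
  have ht' : m ∣ t' * t - 1 := by rwa [mul_comm]
  symm
  unfold Kl
  rw [← KLB_perm hm ht']
  refine sum_congr rfl fun x _ => ?_
  rw [← KLB_perm hm ht]
  refine sum_congr rfl fun y _ => ?_
  have h1 := KLB_mod m (t' * x)
  have h2 := KLB_mod m (t * y)
  have h3 := KLB_mod m (l * t')
  have e1 : m ∣ ((t' * x) % m * ((t * y) % m) - 1) - (x * y - 1) := by
    have e : ((t' * x) % m * ((t * y) % m) - 1) - (x * y - 1) =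
        ((t' * x) % m - t' * x) * ((t * y) % m) + t' * x * ((t * y) % m - t * y) +
          x * y * (t * t' - 1) := by ring
    rw [e]
    exact dvd_add (dvd_add (dvd_mul_of_dvd_left h1 _) (dvd_mul_of_dvd_right h2 _))
      (dvd_mul_of_dvd_right ht _)
  have e2 : m ∣ (h * ((t * y) % m) + l * ((t' * x) % m)) - (h * t * y + (l * t') % m * x) := by
    have e : (h * ((t * y) % m) + l * ((t' * x) % m)) - (h * t * y + (l * t') % m * x) =
        h * ((t * y) % m - t * y) + l * ((t' * x) % m - t' * x) - ((l * t') % m - l * t') * x := by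
      ring
    rw [e]
    exact dvd_sub (dvd_add (dvd_mul_of_dvd_right h2 _) (dvd_mul_of_dvd_right h1 _))
      (dvd_mul_of_dvd_left h3 _)
  have e3 : m ∣ (t' * x) % m * ((t * y) % m) - 1 ↔ m ∣ x * y - 1 := by
    constructor
    · intro hd
      have := dvd_sub hd e1
      rwa [sub_sub_cancel] at this
    · intro hd
      have := dvd_add e1 hd
      rwa [sub_add_cancel] at this
  rw [res_congr e2]
  simp only [e3]

theorem KLB_pow (b : ℕ) (hb : 6 ≤ b) : 8 * b ≤ 2 ^ b := by
  induction b, hb using Nat.le_induction with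
  | base => norm_num
  | succ n hn ih => rw [pow_succ]; omega

theorem KLB_few {k : Type} [Field k] [Finite k] {m : k[X]} {b : ℕ} (hm : m ≠ 0) (hb : 1 ≤ b)
    (hR : m.natDegree ≤ 2 * b) : ((Pd k b).filter (fun t => t ∣ m)).card ≤ 2 := by
  set S := (Pd k b).filter (fun t => t ∣ m) with hS
  have h1 : ∀ P ∈ S, IsPr P := fun P hP => (mem_Pd.1 (mem_filter.1 hP).1).1
  have h2 : pr S ∣ m := (pr_dvd_iff h1 m).2 fun P hP => (mem_filter.1 hP).2
  have h3 : dg S = S.card * b := by
    unfold dg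
    rw [sum_congr rfl (fun P hP => (mem_Pd.1 (mem_filter.1 hP).1).2), sum_const, smul_eq_mul]
  have h4 := natDegree_le_of_dvd h2 hm
  rw [natDegree_pr h1, h3] at h4
  by_contra hc
  have : 3 * b ≤ S.card * b := Nat.mul_le_mul_right _ (by omega)
  omega

theorem p_KLB (hK4 : S_K4) (hN3 : S_N3) (hGAUSS : S_GAUSS) :
    S_KLB := by
  intro k _ _ _ m h l b hm hh hdeg hb hR
  have hq := qq_pos (k := k)
  set T := (Pd k b).filter (fun t => ¬ t ∣ m) with hT
  have hfew := KLB_few hm (by omega : 1 ≤ b) hR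
  have hcard : (Pd k b).card ≤ T.card + 2 := by
    have := card_filter_add_card_filter_not (s := Pd k b) (fun t => t ∣ m)
    rw [← hT] at this
    omega
  have hG := (hGAUSS k b (by omega)).2 (by omega)
  have h8 : (8 : ℝ) * b ≤ qq k ^ b := by
    refine le_trans ?_ (two_pow_le_qq b)
    exact_mod_cast KLB_pow b hb
  have hb0 : (0 : ℝ) ≤ b := Nat.cast_nonneg b
  have hTq : qq k ^ b ≤ 4 * b * T.card := by
    have h1 : ((Pd k b).card : ℝ) ≤ T.card + 2 := by exact_mod_cast hcard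
    have h2 : 2 * (b : ℝ) * (Pd k b).card ≤ 2 * b * (T.card + 2) :=
      mul_le_mul_of_nonneg_left h1 (by positivity)
    nlinarith
  have hinv : ∀ t ∈ T, ∃ t' : k[X], m ∣ t * t' - 1 := by
    intro t ht
    obtain ⟨h1, h2⟩ := mem_filter.1 ht
    obtain ⟨u, v, huv⟩ := ((mem_Pd.1 h1).1.2.coprime_iff_not_dvd).2 h2
    exact ⟨u, ⟨-v, by rw [← huv]; ring⟩⟩
  choose! iv hiv using hinv
  have hsum : (T.card : ℝ) * Kl m h l ^ 4 ≤
      ∑ H ∈ low k m.natDegree, ∑ L ∈ low k m.natDegree, Kl m H L ^ 4 := by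
    have hnn : ∀ H L : k[X], 0 ≤ Kl m H L ^ 4 := fun H L => by positivity
    have hinj : Set.InjOn (fun t => h * t) (T : Set k[X]) := fun t _ s _ e =>
      mul_left_cancel₀ hh e
    have hsub : T.image (fun t => h * t) ⊆ low k m.natDegree := by
      intro H hH
      obtain ⟨t, ht, rfl⟩ := mem_image.1 hH
      have h1 := (mem_Pd.1 (mem_filter.1 ht).1).2
      have h2 := natDegree_mul_le (p := h) (q := t)
      exact mem_low_of_natDegree_lt (by omega)
    calc (T.card : ℝ) * Kl m h l ^ 4 = ∑ t ∈ T, Kl m h l ^ 4 := by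
          rw [sum_const, nsmul_eq_mul]
      _ ≤ ∑ t ∈ T, ∑ L ∈ low k m.natDegree, Kl m (h * t) L ^ 4 := by
          refine sum_le_sum fun t ht => ?_
          rw [← KLB_twist hm (hiv t ht) h l]
          exact single_le_sum (f := fun L => Kl m (h * t) L ^ 4) (fun L _ => hnn _ _)
            (mod_mem_low hm _)
      _ = ∑ H ∈ T.image (fun t => h * t), ∑ L ∈ low k m.natDegree, Kl m H L ^ 4 := by
          rw [sum_image hinj]
      _ ≤ _ := sum_le_sum_of_subset_of_nonneg hsub fun H _ _ => sum_nonneg fun L _ => hnn _ _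
  have h4 := hsum.trans (hK4 k m hm)
  have h3 := hN3 k m hm
  have hK : 0 ≤ Kl m h l ^ 4 := by positivity
  have hp : 0 < qq k ^ (2 * m.natDegree / 3) := by positivity
  have hp3 : 0 < qq k ^ (3 * m.natDegree) := by positivity
  have e5 : qq k ^ (5 * m.natDegree) = qq k ^ (3 * m.natDegree) * qq k ^ (2 * m.natDegree) := by
    rw [← pow_add]; congr 1; ring
  calc Kl m h l ^ 4 * (qq k ^ b * qq k ^ (2 * m.natDegree / 3))
      ≤ Kl m h l ^ 4 * (4 * b * T.card * qq k ^ (2 * m.natDegree / 3)) :=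
        mul_le_mul_of_nonneg_left (mul_le_mul_of_nonneg_right hTq hp.le) hK
    _ = 4 * b * ((T.card * Kl m h l ^ 4) * qq k ^ (2 * m.natDegree / 3)) := by ring
    _ ≤ 4 * b * ((qq k ^ (3 * m.natDegree) * n3 m) * qq k ^ (2 * m.natDegree / 3)) :=
        mul_le_mul_of_nonneg_left (mul_le_mul_of_nonneg_right h4 hp.le) (by positivity)
    _ = 4 * b * qq k ^ (3 * m.natDegree) * (n3 m * qq k ^ (2 * m.natDegree / 3)) := by ring
    _ ≤ 4 * b * qq k ^ (3 * m.natDegree) * (3 * t3 m * qq k ^ (2 * m.natDegree)) :=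
        mul_le_mul_of_nonneg_left h3 (by positivity)
    _ = 12 * b * t3 m * qq k ^ (5 * m.natDegree) := by rw [e5]; ring

end Pool.Agent.P.MP_8be758_nt.L2
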