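import Pool.Agent.P.MP_8be758_nt.L2.If

/-! Step LAM. -/

namespace Pool.Agent.P.MP_8be758_nt.L2

open Polynomial Finset Filter
open Pool.Agent.P.MP_8be758_nt.C2
open scoped Classical Topology

theorem p_LAM (hPOLY : S_POLY) :
    S_LAM := by
  intro k _ _ E lam h
  have q0 := qq_pos (k := k)
  have h1 : ∑ e ∈ Sle k E, |lam e| * 8 ^ e.card / qq k ^ dg e ≤ (3 * ((E : ℝ) + 1)) ^ 248 := by
    refine le_trans (sum_le_sum fun e _ => ?_) (hPOLY k 248 E)
    rw [show ((248 : ℕ) : ℝ) = 31 * 8 by norm_num, mul_pow]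
    gcongr
    exact h e
  refine ⟨h1, le_trans ?_ (mul_le_mul_of_nonneg_left h1 (pow_pos q0 E).le)⟩
  rw [mul_sum]
  refine sum_le_sum fun e he => ?_
  rw [← mul_div_assoc, le_div_iff₀ (pow_pos q0 _), mul_comm (qq k ^ E)]
  exact mul_le_mul (by gcongr; norm_num) (qq_pow_mono (mem_Sle.1 he).2) (pow_pos q0 _).le
    (by positivity)

end Pool.Agent.P.MP_8be758_nt.L2
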