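import Pool.Agent.P.MP_8be758_nt.L2.If

/-! Step LLB. -/

namespace Pool.Agent.P.MP_8be758_nt.L2

open Polynomial Finset Filter
open Pool.Agent.P.MP_8be758_nt.C2
open scoped Classical Topology

theorem LLB_block (m : ℕ) (hm : 1 ≤ m) :
    (1 : ℝ) / 2 ≤ ∑ b ∈ Ioc m (m * 2), (1 : ℝ) / b := by
  have hm' : (0 : ℝ) < m := by exact_mod_cast hm
  have h1 : ∑ _b ∈ Ioc m (m * 2), (1 : ℝ) / (2 * m) ≤ ∑ b ∈ Ioc m (m * 2), (1 : ℝ) / b := by
    refine sum_le_sum fun b hb => ?_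
    rw [mem_Ioc] at hb
    have hb0 : (0 : ℝ) < b := by exact_mod_cast (by omega : 0 < b)
    have hb1 : (b : ℝ) ≤ 2 * m := by exact_mod_cast (by omega : b ≤ 2 * m)
    exact one_div_le_one_div_of_le hb0 hb1
  refine le_trans (le_of_eq ?_) h1
  rw [sum_const, Nat.card_Ioc, nsmul_eq_mul]
  have : m * 2 - m = m := by omega
  rw [this]
  field_simp

theorem LLB_dyadic (m : ℕ) (hm : 1 ≤ m) (J : ℕ) :
    (J : ℝ) / 2 ≤ ∑ b ∈ Ioc m (m * 2 ^ J), (1 : ℝ) / b := by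
  induction J with
  | zero => simp
  | succ J ih =>
    have hp : 1 ≤ 2 ^ J := Nat.one_le_two_pow
    have h1 : m ≤ m * 2 ^ J := Nat.le_mul_of_pos_right _ hp
    have h2 : m * 2 ^ J ≤ m * 2 ^ J * 2 := Nat.le_mul_of_pos_right _ (by norm_num)
    have h3 := LLB_block (m * 2 ^ J) (le_trans hm h1)
    have h4 := sum_Ioc_consecutive (fun b : ℕ => (1 : ℝ) / b) h1 h2
    have h5 : m * 2 ^ (J + 1) = m * 2 ^ J * 2 := by ring
    rw [h5, ← h4]
    push_cast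
    linarith

theorem LLB_sum (k : Type) [Field k] [Finite k] (n E : ℕ) :
    LL k n E = ∑ b ∈ Ioc (12 * E) (n / 100), ((Pd k b).card : ℝ) * (qq k ^ b + 1)⁻¹ := by
  unfold LL
  rw [← sum_fiberwise_of_maps_to (s := II k n E) (t := Ioc (12 * E) (n / 100))
    (g := fun P => P.natDegree) (fun P hP => by
      rw [mem_II] at hP; exact mem_Ioc.2 hP.2)]
  refine sum_congr rfl fun b hb => ?_
  rw [mem_Ioc] at hb
  have hf : (II k n E).filter (fun P => P.natDegree = b) = Pd k b := by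
    ext P
    rw [mem_filter, mem_II, mem_Pd]
    constructor
    · exact fun h => ⟨h.1.1, h.2⟩
    · exact fun h => ⟨⟨h.1, by omega, by omega⟩, h.2⟩
  rw [hf, ← nsmul_eq_mul, ← sum_const]
  refine sum_congr rfl fun P hP => ?_
  rw [(mem_Pd.1 hP).2]

theorem p_LLB (hGAUSS : S_GAUSS) :
    S_LLB := by
  intro k _ _ L0
  obtain ⟨J, hJ⟩ := exists_nat_ge (8 * L0)
  have hp : 1 ≤ 2 ^ J := Nat.one_le_two_pow
  refine ⟨1200 * 2 ^ J, 1200 * 2 ^ J, by omega, fun n hn => ?_⟩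
  set κ := 1200 * 2 ^ J with hκ
  have hκ0 : 0 < κ := by omega
  set E := n / κ with hE
  have hE1 : 1 ≤ E := (Nat.le_div_iff_mul_le hκ0).2 (by omega)
  have hEn : E * κ ≤ n := Nat.div_mul_le_self n κ
  have hb : 12 * E * 2 ^ J ≤ n / 100 := by
    rw [Nat.le_div_iff_mul_le (by norm_num)]
    calc 12 * E * 2 ^ J * 100 = E * κ := by rw [hκ]; ring
      _ ≤ n := hEn
  rw [LLB_sum]
  have h1 := LLB_dyadic (12 * E) (by omega) J
  have h2 : ∑ b ∈ Ioc (12 * E) (12 * E * 2 ^ J), (1 : ℝ) / b ≤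
      ∑ b ∈ Ioc (12 * E) (n / 100), (1 : ℝ) / b :=
    sum_le_sum_of_subset_of_nonneg (Ioc_subset_Ioc_right hb) fun b _ _ => by positivity
  have h3 : ∑ b ∈ Ioc (12 * E) (n / 100), (1 : ℝ) / b * (1 / 4) ≤
      ∑ b ∈ Ioc (12 * E) (n / 100), ((Pd k b).card : ℝ) * (qq k ^ b + 1)⁻¹ := by
    refine sum_le_sum fun b hb => ?_
    rw [mem_Ioc] at hb
    have hb4 : 4 ≤ b := by omega
    have hg := (hGAUSS k b (by omega)).2 hb4
    have hq : (1 : ℝ) ≤ qq k ^ b := one_le_pow₀ one_le_qq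
    have hb0 : (0 : ℝ) < b := by exact_mod_cast (by omega : 0 < b)
    rw [← div_eq_mul_inv, le_div_iff₀ (by linarith)]
    have : (1 : ℝ) / b * (1 / 4) * (qq k ^ b + 1) = (qq k ^ b + 1) / (4 * b) := by
      field_simp
    rw [this, div_le_iff₀ (by positivity)]
    nlinarith
  rw [← sum_mul] at h3
  linarith

end Pool.Agent.P.MP_8be758_nt.L2
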