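import Pool.Agent.P.MP_8be758_nt.L2.If

/-! Step N3. -/

namespace Pool.Agent.P.MP_8be758_nt.L2

open Polynomial Finset Filter
open Pool.Agent.P.MP_8be758_nt.C2
open scoped Classical Topology

section
variable {k : Type} [Field k] [Finite k]

/-- the pairs of monic polynomials whose product divides `m` and has large degree -/
noncomputable def N3_T (m : k[X]) : Finset (k[X] × k[X]) :=
  ((low k (m.natDegree + 1) ×ˢ low k (m.natDegree + 1)).filter
    (fun p => p.1.Monic ∧ p.2.Monic ∧ p.1 * p.2 ∣ m)).filter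
    fun p => 2 * m.natDegree / 3 ≤ p.1.natDegree + p.2.natDegree

/-- the pairs of multiples -/
noncomputable def N3_B (m : k[X]) : Finset (k[X] × k[X]) :=
  (N3_T m).biUnion fun b => (low k m.natDegree).filter (fun x => b.1 ∣ x) ×ˢ
    (low k m.natDegree).filter fun x => b.2 ∣ x

theorem N3_card {m : k[X]} (hm : m ≠ 0) :
    ((N3_B m).card : ℝ) * qq k ^ (2 * m.natDegree / 3) ≤ t3 m * qq k ^ (2 * m.natDegree) := by
  have hq := qq_pos (k := k)
  have h1 : ((N3_B m).card : ℝ) ≤ ∑ b ∈ N3_T m, ((((low k m.natDegree).filter (fun x => b.1 ∣ x) ×ˢ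
      (low k m.natDegree).filter fun x => b.2 ∣ x).card : ℕ) : ℝ) := by
    exact_mod_cast card_biUnion_le
  refine (mul_le_mul_of_nonneg_right h1 (by positivity)).trans ?_
  rw [sum_mul]
  refine (sum_le_card_nsmul _ _ (qq k ^ (2 * m.natDegree)) fun b hb => ?_).trans ?_
  · obtain ⟨hb, hd⟩ := mem_filter.1 hb
    obtain ⟨-, m1, m2, hb⟩ := mem_filter.1 hb
    have d1 := natDegree_le_of_dvd ((dvd_mul_right _ _).trans hb) hm
    have d2 := natDegree_le_of_dvd ((dvd_mul_left _ _).trans hb) hm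
    rw [card_product, Nat.cast_mul, card_low_dvd m1.ne_zero d1, card_low_dvd m2.ne_zero d2,
      ← pow_add, ← pow_add]
    exact qq_pow_mono (by omega)
  · rw [nsmul_eq_mul]
    refine mul_le_mul_of_nonneg_right ?_ (by positivity)
    exact_mod_cast card_le_card (filter_subset _ _)

theorem N3_mem {m a b y s : k[X]} (hm : m ≠ 0) (h : a * b ∣ m) (ha : a ∣ y) (hb : b ∣ s)
    (hy : y ∈ low k m.natDegree) (hs : s ∈ low k m.natDegree)
    (hd : 2 * m.natDegree / 3 ≤ a.natDegree + b.natDegree) : (y, s) ∈ N3_B m := by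
  have a0 : a ≠ 0 := left_ne_zero_of_mul (ne_zero_of_dvd_ne_zero hm h)
  have b0 : b ≠ 0 := right_ne_zero_of_mul (ne_zero_of_dvd_ne_zero hm h)
  have d1 := natDegree_le_of_dvd ((dvd_mul_right _ _).trans h) hm
  have d2 := natDegree_le_of_dvd ((dvd_mul_left _ _).trans h) hm
  have e1 : (normalize a).natDegree = a.natDegree := natDegree_eq_of_degree_eq degree_normalize
  have e2 : (normalize b).natDegree = b.natDegree := natDegree_eq_of_degree_eq degree_normalize
  refine mem_biUnion.2 ⟨(normalize a, normalize b), mem_filter.2 ⟨mem_filter.2 ⟨mem_product.2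
    ⟨mem_low_of_natDegree_lt (by simp only; omega), mem_low_of_natDegree_lt (by simp only; omega)⟩,
    monic_normalize a0, monic_normalize b0, ?_⟩, by simp only; omega⟩, mem_product.2
    ⟨mem_filter.2 ⟨hy, normalize_dvd_iff.2 ha⟩, mem_filter.2 ⟨hs, normalize_dvd_iff.2 hb⟩⟩⟩
  exact (mul_dvd_mul (normalize_associated a).dvd (normalize_associated b).dvd).trans h

theorem N3_cover {m y s : k[X]} (hm : m ≠ 0) (hy : y ∈ low k m.natDegree)
    (hs : s ∈ low k m.natDegree) (h : m ∣ y * s * (y + s)) :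
    (y, s) ∈ N3_B m ∨ (y, y + s) ∈ N3_B m ∨ (s, y + s) ∈ N3_B m := by
  obtain ⟨u, c, hu, hc, e⟩ := exists_dvd_and_dvd_of_dvd_mul h
  obtain ⟨a, b, ha, hb, rfl⟩ := exists_dvd_and_dvd_of_dvd_mul hu
  have h0 : a * b * c ≠ 0 := e ▸ hm
  have h1 := left_ne_zero_of_mul h0
  have hd : m.natDegree = a.natDegree + b.natDegree + c.natDegree := by
    rw [e, natDegree_mul h1 (right_ne_zero_of_mul h0),
      natDegree_mul (left_ne_zero_of_mul h1) (right_ne_zero_of_mul h1)]
  have hz := add_mem_low hy hs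
  by_cases c1 : 2 * m.natDegree / 3 ≤ a.natDegree + b.natDegree
  · exact Or.inl (N3_mem hm ⟨c, e⟩ ha hb hy hs c1)
  by_cases c2 : 2 * m.natDegree / 3 ≤ a.natDegree + c.natDegree
  · exact Or.inr (Or.inl (N3_mem hm ⟨b, by rw [e]; ring⟩ ha hc hy hz c2))
  · exact Or.inr (Or.inr (N3_mem hm ⟨a, by rw [e]; ring⟩ hb hc hs hz (by omega)))

theorem N3_le {m : k[X]} (hm : m ≠ 0) : n3 m ≤ 3 * (N3_B m).card := by
  have h : (low k m.natDegree ×ˢ low k m.natDegree).filter
      (fun p => m ∣ p.1 * p.2 * (p.1 + p.2)) ⊆ N3_B m ∪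
      ((N3_B m).image (fun p => (p.1, p.2 - p.1)) ∪ (N3_B m).image fun p => (p.2 - p.1, p.1)) := by
    rintro ⟨y, s⟩ hp
    obtain ⟨h1, h2⟩ := mem_filter.1 hp
    obtain ⟨hy, hs⟩ := mem_product.1 h1
    rcases N3_cover hm hy hs h2 with h | h | h
    · exact mem_union_left _ h
    · exact mem_union_right _ (mem_union_left _ (mem_image.2 ⟨_, h, by simp⟩))
    · exact mem_union_right _ (mem_union_right _ (mem_image.2 ⟨_, h, by simp⟩))
  have h1 := (card_le_card h).trans ((card_union_le _ _).trans (Nat.add_le_add_left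
    ((card_union_le _ _).trans (Nat.add_le_add card_image_le card_image_le)) _))
  unfold n3
  omega

end

theorem p_N3 :
    S_N3 := by
  intro k _ _ _ m hm
  have hq := qq_pos (k := k)
  have h1 : (n3 m : ℝ) ≤ 3 * (N3_B m).card := by exact_mod_cast N3_le hm
  have h2 := mul_le_mul_of_nonneg_right h1 (pow_pos hq (2 * m.natDegree / 3)).le
  linarith [N3_card hm]

end Pool.Agent.P.MP_8be758_nt.L2
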