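import Pool.Agent.P.MP_8be758_nt.L2.If

/-! Step NR. -/

namespace Pool.Agent.P.MP_8be758_nt.L2

open Polynomial Finset Filter
open Pool.Agent.P.MP_8be758_nt.C2
open scoped Classical Topology

theorem p_NR (hNR1 : S_NR1) (hXAB : S_XAB) (hLAM : S_LAM) (hW1 : S_W1) :
    S_NR := by
  intro k _ _ _ a c κ h hκ
  obtain ⟨n1, h1⟩ := hW1 k a c h
  obtain ⟨n2, h2⟩ := NEG 248 100 (4 ^ ((pf a).card + 2) * 3 ^ 248) (1 / 2) (by omega) (by norm_num)
  refine ⟨n1 + n2 + 600 + κ * a.natDegree, fun n hn C1 lam D r hw d1 d2 hr hc => ?_⟩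
  have hq := qq_pos (k := k)
  have q1 := one_le_qq (k := k)
  have e1 : n / κ ≤ n / 1000 := Nat.div_le_div_left hκ (by omega)
  have e2 : a.natDegree ≤ n / κ := (Nat.le_div_iff_mul_le (by omega)).2 (by rw [mul_comm]; omega)
  generalize n / κ = E at *
  have r1 := fun P (hP : P ∈ r) => mem_II.1 (hr hP)
  have r2 : dg r ≤ 2 * (n / 100) :=
    (sum_le_card_nsmul r _ _ fun P hP => (r1 P hP).2.2).trans (Nat.mul_le_mul_right _ hc)
  obtain ⟨l1, l2⟩ := hLAM k E lam hw.2.2.1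
  have g1 : 4 ^ ((pf a).card + 2) * (3 * ((E : ℝ) + 1)) ^ 248 ≤ 1 / 2 * qq k ^ (n / 100) := by
    refine le_trans ?_ ((h2 n (by omega)).trans (by gcongr; exact two_le_qq))
    rw [mul_pow, mul_assoc]
    gcongr
    omega
  refine (hNR1 k a c n E D lam r (1 / qq k ^ (n / 30 + n / 100)) (qq k ^ (n + 4 * E) / qq k ^ (n / 20))
    h hw.2.1 (fun P hP => ⟨(r1 P hP).1, by have := r1 P hP; omega⟩)
    (disjoint_left.2 fun P hP hP' => by
      have := natDegree_le_of_dvd ((mem_pf h.1).1 hP').2 h.1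
      have := r1 P hP
      have := (r1 P hP).1.pos
      omega) (by omega) (by positivity) (by positivity) (fun s D' hs hD => ?_)
    fun D' S0 hs hD => ?_).trans ?_
  · refine (hXAB k s D' hs).2.1.trans ?_
    rw [mul_one_div, ← Real.sq_sqrt hq.le, ← pow_mul, Real.sqrt_sq (Real.sqrt_nonneg _)]
    gcongr
    · exact Real.one_le_sqrt.2 q1
    · omega
  · refine (h1 n (by omega) D' S0 (by omega) hs).trans ?_
    gcongr
    omega
  have t1 : qq k ^ n * (4 ^ ((pf a).card + r.card) * (1 / qq k ^ (n / 30 + n / 100))) *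
      (∑ e ∈ Sle k E, |lam e| * 8 ^ e.card / qq k ^ dg e) ≤ qq k ^ n / qq k ^ (n / 30) / 2 :=
    calc _ ≤ qq k ^ n * (4 ^ ((pf a).card + 2) * (1 / qq k ^ (n / 30 + n / 100))) *
          (3 * ((E : ℝ) + 1)) ^ 248 := by gcongr; norm_num
      _ = qq k ^ n / qq k ^ (n / 30 + n / 100) *
          (4 ^ ((pf a).card + 2) * (3 * ((E : ℝ) + 1)) ^ 248) := by ring
      _ ≤ qq k ^ n / qq k ^ (n / 30 + n / 100) * (1 / 2 * qq k ^ (n / 100)) := by gcongr
      _ = _ := by rw [pow_add]; field_simp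
  have t2 : qq k ^ (n + 4 * E) / qq k ^ (n / 20) * ∑ e ∈ Sle k E, |lam e| * 2 ^ e.card ≤
      qq k ^ n / qq k ^ (n / 30) / 2 :=
    calc _ ≤ qq k ^ (n + 4 * E) / qq k ^ (n / 20) * (qq k ^ E * (1 / 2 * qq k ^ (n / 100))) := by
          gcongr
          refine l2.trans (mul_le_mul_of_nonneg_left (le_trans ?_ g1) (by positivity))
          exact le_mul_of_one_le_left (by positivity) (one_le_pow₀ (by norm_num))
      _ ≤ qq k ^ (n + 4 * E) / qq k ^ (n / 30 + 4 * E + E + n / 100) *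
          (qq k ^ E * (1 / 2 * qq k ^ (n / 100))) := by gcongr; omega
      _ = _ := by simp only [pow_add]; field_simp
  linarith

end Pool.Agent.P.MP_8be758_nt.L2
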