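import Pool.Agent.P.MP_8be758_nt.L2.If

/-! Step PARM. -/

namespace Pool.Agent.P.MP_8be758_nt.L2

open Polynomial Finset Filter
open Pool.Agent.P.MP_8be758_nt.C2
open scoped Classical Topology

theorem p_PARM :
    S_PARM := by
  intro κ dV hκ
  obtain ⟨p, hp⟩ : ∃ p, p = 2 ^ (κ + 1 + 1) := ⟨_, rfl⟩
  have hp1 : 4 * κ ≤ p := by
    have := Nat.lt_two_pow_self (n := κ)
    rw [hp, pow_succ, pow_succ]; omega
  have hp4 : 4 ≤ p := by omega
  refine ⟨κ + 1, 2 * p * (4 * p * (κ + 1 + 1) + 6) * p, 2 * p * (3 + 2 * dV + 8 * p) + 4 * κ * dV,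
    Nat.succ_le_of_lt (by positivity), fun n hn => ?_⟩
  obtain ⟨y, hy⟩ : ∃ y, y = n / (2 * p) := ⟨_, rfl⟩
  obtain ⟨t, ht⟩ : ∃ t, t = y / (4 * p * (κ + 1 + 1) + 6) := ⟨_, rfl⟩
  have h1 : 3 + 2 * dV + 8 * p ≤ y := by
    rw [hy, Nat.le_div_iff_mul_le (by omega)]; nlinarith [Nat.zero_le (4 * κ * dV)]
  have h2 : 2 * p * y + n % (2 * p) = n := by rw [hy]; exact Nat.div_add_mod n (2 * p)
  have h3 : n % (2 * p) < 2 * p := Nat.mod_lt _ (by omega)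
  generalize n % (2 * p) = r at h2 h3
  have h4 : t * (4 * p * (κ + 1 + 1) + 6) ≤ y := by rw [ht]; exact Nat.div_mul_le_self _ _
  obtain ⟨u, hu⟩ : ∃ u, u = (κ + 1 + 1) * t := ⟨_, rfl⟩
  have h5 : 4 * (p * u) + 6 * t ≤ y := by rw [hu]; nlinarith
  have h6 : 4 * u ≤ p * u := Nat.mul_le_mul_right _ hp4
  have h7 : 4 * y ≤ p * y := Nat.mul_le_mul_right _ hp4
  have h8 : 4 * κ * y ≤ p * y := Nat.mul_le_mul_right _ hp1
  obtain ⟨L, hL⟩ : ∃ L, y = L + 2 := ⟨y - 2, by omega⟩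
  refine ⟨2 * y, L, t, ?_, by omega, ?_, by nlinarith, by omega, fun ρ hρ hev => ?_⟩
  · rw [Nat.le_div_iff_mul_le hκ]
    nlinarith [Nat.zero_le (2 * p * (3 + 2 * dV + 8 * p))]
  · rw [← hp, ht, hy, Nat.div_div_eq_div_mul, Nat.div_div_eq_div_mul, mul_assoc (2 * p)]
  · have eu : ((κ + 1 + 1 : ℕ) : ℤ) * t = u := by rw [hu]; push_cast; ring
    have ep : (2 : ℤ) ^ (κ + 1 + 1) = p := by rw [hp]; push_cast; ring
    unfold Ok
    rw [eu, ep, ← hu]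
    subst hL
    zify at h1 h2 h3 h5 h6 h7 hρ hp4
    have hr : (0 : ℤ) ≤ r := by positivity
    have hu0 : (0 : ℤ) ≤ u := by positivity
    refine ⟨by omega, by push_cast; omega, by push_cast; nlinarith, by push_cast; nlinarith,
      by push_cast; nlinarith, hev⟩

end Pool.Agent.P.MP_8be758_nt.L2
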