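import Pool.Agent.P.MP_8be758_nt.L2.If

/-! Step PH. -/

namespace Pool.Agent.P.MP_8be758_nt.L2

open Polynomial Finset Filter
open Pool.Agent.P.MP_8be758_nt.C2
open scoped Classical Topology

theorem PH_cong {k : Type} [Field k] {a w v B A A0 t e e0 u0 s ν y z' : k[X]}
    (hA : a ∣ A - A0) (he : (A + t * B) * e - 1 = B * a * z') (he0 : a ∣ (A0 + t * B) * e0 - 1)
    (hu : u0 * (A0 ^ 2 + X * B ^ 2) + s * a = 1)
    (hy : a * ν + w + v * (A * (a * z' + t * e) + X * B * e) = (A ^ 2 + X * B ^ 2) * y) :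
    a ∣ y - u0 * (w + v * (A0 * t + X * B) * e0) := by
  rw [← AdjoinRoot.mk_eq_mk] at hA he0 ⊢
  have h1 := congrArg (AdjoinRoot.mk a) he
  have h2 := congrArg (AdjoinRoot.mk a) hu
  have h3 := congrArg (AdjoinRoot.mk a) hy
  simp only [map_add, map_mul, map_sub, map_pow, map_one, AdjoinRoot.mk_self, mul_zero, zero_mul,
    add_zero, zero_add, hA] at h1 h2 h3 he0 ⊢
  have h4 : AdjoinRoot.mk a e = AdjoinRoot.mk a e0 := by
    linear_combination AdjoinRoot.mk a e0 * h1 - AdjoinRoot.mk a e * he0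
  rw [h4] at h3
  linear_combination (-AdjoinRoot.mk a y) * h2 - AdjoinRoot.mk a u0 * h3

theorem p_PH (hSQ2 : S_SQ2) :
    S_PH := by
  intro k _ _ _ a c w v h B A0 t ha hB hac hco
  have h2 : (2 : k[X]) = 0 := CharTwo.two_eq_zero
  by_cases hex : ∃ e0, a ∣ (A0 + t * B) * e0 - 1
  swap
  · refine ⟨0, by simp, fun A e ν hA he _ _ _ => (hex ⟨e, ?_⟩).elim⟩
    have := dvd_sub ((Dvd.intro_left B rfl).trans he) (hA.mul_right e)
    convert this using 1
    ring
  obtain ⟨e0, he0⟩ := hex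
  obtain ⟨u0, s, hu⟩ := hco
  refine ⟨psi (res a (h * (u0 * (w + v * (A0 * t + X * B) * e0)))), (abs_psi _).le, ?_⟩
  intro A e ν hA ⟨z', he⟩ hF d1 d2
  have e1 : e * A + (a * z' + t * e) * B = 1 := by linear_combination he + (B * a * z') * h2
  have hsq := (hSQ2 k A B).2 ⟨_, _, e1⟩
  have hM : A ^ 2 + X * B ^ 2 ≠ 0 := hsq.ne_zero
  obtain ⟨τ, hτ⟩ : ∃ τ, τ = A * (a * z' + t * e) + X * B * e := ⟨_, rfl⟩
  obtain ⟨c', hc'⟩ : ∃ c', c' = a * z' + t * e := ⟨_, rfl⟩
  have hτ' : τ = A * c' + X * B * e := by rw [hτ, hc']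
  rw [← hc'] at e1
  have e2 : τ ^ 2 + X = (A ^ 2 + X * B ^ 2) * (c' ^ 2 + X * e ^ 2) := by
    rw [hτ']
    linear_combination (-X * (e * A + c' * B + 1)) * e1 + (2 * X * A * B * c' * e) * h2
  have e3 : τ * B = e * (A ^ 2 + X * B ^ 2) + A := by
    rw [hτ']
    linear_combination A * e1 - (e * A ^ 2) * h2
  obtain ⟨y, hy⟩ : A ^ 2 + X * B ^ 2 ∣ a * ν + w + v * τ := by
    rw [← hsq.dvd_pow_iff_dvd two_ne_zero]
    have : (a * ν + w + v * τ) ^ 2 = a * FF a c ν + v ^ 2 * (τ ^ 2 + X) := by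
      unfold FF
      linear_combination (-1) * hac + (a * ν * w + a * ν * v * τ + w * v * τ - X * v ^ 2) * h2
    rw [this, e2]
    exact dvd_add (hF.mul_left a) ((Dvd.intro _ rfl).mul_left _)
  have hc := PH_cong hA he he0 hu (hτ ▸ hy)
  generalize A ^ 2 + X * B ^ 2 = M at *
  have n1 : M.natDegree ≤ (M * a).natDegree := natDegree_le_of_dvd (Dvd.intro _ rfl)
    (mul_ne_zero hM ha)
  have n2 : M.natDegree ≤ (B * a * M).natDegree := natDegree_le_of_dvd (Dvd.intro_left _ rfl)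
    (mul_ne_zero (mul_ne_zero hB ha) hM)
  have r1 : res (M * a) (h * w) = 0 :=
    res_eq_zero (by have := natDegree_mul_le (p := h) (q := w); omega)
  have r2 : res (M * a) (h * v * τ) = res (B * a) (h * v * e) := by
    have r3 : res (B * a * M) (h * v * A) = 0 := res_eq_zero (by
      have := natDegree_mul_le (p := h) (q := v)
      have := natDegree_mul_le (p := h * v) (q := A)
      omega)
    rw [← res_mul_mul _ _ hB, show M * a * B = B * a * M by ring,
      show h * v * τ * B = h * v * e * M + h * v * A by linear_combination h * v * e3, res_add,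
      res_mul_mul _ _ hM, r3, add_zero]
  have r4 : res (M * a) (h * y * M) = res a (h * (u0 * (w + v * (A0 * t + X * B) * e0))) := by
    rw [mul_comm M a, res_mul_mul _ _ hM]
    exact res_congr (by rw [← mul_sub]; exact hc.mul_left h)
  rw [← res_mul_mul M _ ha, show h * ν * a = h * y * M + (h * w + h * v * τ) by
    linear_combination h * hy - (h * w + h * v * τ) * h2, res_add, res_add, r1, r2, r4, zero_add,
    psi_add]

end Pool.Agent.P.MP_8be758_nt.L2
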