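import Pool.Agent.P.MP_8be758_nt.L2.If

/-! Step REC. -/

namespace Pool.Agent.P.MP_8be758_nt.L2

open Polynomial Finset Filter
open Pool.Agent.P.MP_8be758_nt.C2
open scoped Classical Topology

theorem REC_not {k : Type} [Field k] [Finite k] (s : Finset k[X]) (P : k[X]) (D : ℕ) :
    (Sc s D).filter (fun S => ¬ P ∈ S) = Sc (insert P s) D := by
  ext S
  simp only [mem_filter, mem_Sc, disjoint_insert_right]
  tauto

theorem REC_mem {k : Type} [Field k] [Finite k] (ε : ℝ) (s : Finset k[X]) (P : k[X]) (D : ℕ)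
    (hP : IsPr P) (hs : P ∉ s) (hD : P.natDegree ≤ D) :
    ∑ S ∈ (Sc s D).filter (fun S => P ∈ S), ε ^ S.card =
      ε * ∑ S ∈ Sc (insert P s) (D - P.natDegree), ε ^ S.card := by
  rw [mul_sum]
  symm
  refine sum_bij' (fun S _ => insert P S) (fun S _ => S.erase P) ?_ ?_ ?_ ?_ ?_
  · intro S hS
    rw [mem_Sc, disjoint_insert_right] at hS
    obtain ⟨h1, h2, h3, h4⟩ := hS
    rw [mem_filter, mem_Sc]
    refine ⟨⟨?_, ?_, ?_⟩, mem_insert_self _ _⟩
    · intro Q hQ
      rcases mem_insert.1 hQ with rfl | hQ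
      · exact hP
      · exact h1 Q hQ
    · rw [dg_insert h3, h2]; omega
    · rw [disjoint_insert_left]; exact ⟨hs, h4⟩
  · intro S hS
    rw [mem_filter, mem_Sc] at hS
    obtain ⟨⟨h1, h2, h3⟩, h4⟩ := hS
    rw [mem_Sc, disjoint_insert_right]
    refine ⟨fun Q hQ => h1 Q (mem_of_mem_erase hQ), ?_, notMem_erase _ _,
      h3.mono_left (erase_subset _ _)⟩
    have h5 := dg_insert (notMem_erase P S)
    rw [insert_erase h4, h2] at h5
    omega
  · intro S hS
    rw [mem_Sc, disjoint_insert_right] at hS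
    exact erase_insert hS.2.2.1
  · intro S hS
    rw [mem_filter] at hS
    exact insert_erase hS.2
  · intro S hS
    rw [mem_Sc, disjoint_insert_right] at hS
    rw [card_insert_of_notMem hS.2.2.1, pow_succ']

theorem REC_empty {k : Type} [Field k] [Finite k] (s : Finset k[X]) (P : k[X]) (D : ℕ)
    (hD : ¬ P.natDegree ≤ D) : (Sc s D).filter (fun S => P ∈ S) = ∅ := by
  rw [filter_eq_empty_iff]
  intro S hS hP
  rw [mem_Sc] at hS
  exact hD ((natDegree_le_dg hP).trans hS.2.1.le)

theorem p_REC :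
    S_REC := by
  intro k _ _ ε s P D hP hs
  have hq := qq_pos (k := k)
  unfold xs
  rw [← sum_filter_add_sum_filter_not (Sc s D) (fun S => P ∈ S), REC_not, add_div, add_comm]
  congr 1
  split_ifs with hD
  · rw [REC_mem ε s P D hP hs hD]
    have h : qq k ^ D = qq k ^ P.natDegree * qq k ^ (D - P.natDegree) := by
      rw [← pow_add]; congr 1; omega
    rw [h]
    field_simp
  · rw [REC_empty s P D hD]; simp

end Pool.Agent.P.MP_8be758_nt.L2
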