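import Pool.Agent.P.MP_8be758_nt.L2.If

/-! Step SEL. -/

namespace Pool.Agent.P.MP_8be758_nt.L2

open Polynomial Finset Filter
open Pool.Agent.P.MP_8be758_nt.C2
open scoped Classical Topology

section
variable {k : Type} [Field k]

/-- the product of two systems of weights -/
noncomputable def SEL_cv (l m : Finset k[X] → ℝ) (S : Finset k[X]) : ℝ :=
  ∑ p ∈ (S.powerset ×ˢ S.powerset).filter (fun p => p.1 ∪ p.2 = S), l p.1 * m p.2

theorem SEL_wt (l m : Finset k[X] → ℝ) (A : Finset k[X]) :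
    wt (SEL_cv l m) A = wt l A * wt m A := by
  rw [wt, wt, wt, sum_mul_sum, ← sum_product', ← sum_fiberwise_of_maps_to
    (s := A.powerset ×ˢ A.powerset) (t := A.powerset) (g := fun p => p.1 ∪ p.2) fun p hp => by
      simpa [union_subset_iff] using hp]
  refine sum_congr rfl fun S hS => sum_congr ?_ fun _ _ => rfl
  ext p
  simp only [mem_filter, mem_product, mem_powerset, and_congr_left_iff] at hS ⊢
  rintro rfl
  exact iff_of_true ⟨subset_union_left, subset_union_right⟩ (union_subset_iff.1 hS)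

theorem SEL_inj {l m : Finset k[X] → ℝ} (h : ∀ A, wt l A = wt m A) (S : Finset k[X]) :
    l S = m S := by
  induction S using Finset.strongInduction with
  | H S ih =>
    have h1 := h S
    rw [wt, wt, ← add_sum_erase _ _ (mem_powerset_self S), ← add_sum_erase _ m
      (mem_powerset_self S), sum_congr rfl fun U hU => ih U (by
        rw [mem_erase, mem_powerset] at hU
        exact ssubset_of_ne_of_subset hU.1 hU.2)] at h1
    exact add_right_cancel h1

theorem SEL_pow (c : ℝ) (A : Finset k[X]) : wt (fun S => c ^ S.card) A = (c + 1) ^ A.card := by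
  simpa [wt] using sum_pow_mul_eq_add_pow c 1 A

theorem SEL_abs {l m : Finset k[X] → ℝ} {c d e : ℝ} (he : e + 1 = (c + 1) * (d + 1))
    (hl : ∀ S, |l S| ≤ c ^ S.card) (hm : ∀ S, |m S| ≤ d ^ S.card) (S : Finset k[X]) :
    |SEL_cv l m S| ≤ e ^ S.card := by
  rw [← SEL_inj (l := SEL_cv (fun S => c ^ S.card) fun S => d ^ S.card)
    (m := fun S => e ^ S.card) (fun A => by rw [SEL_wt, SEL_pow, SEL_pow, SEL_pow, he, mul_pow]) S]
  refine (abs_sum_le_sum_abs _ _).trans (sum_le_sum fun p _ => ?_)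
  rw [abs_mul]
  exact mul_le_mul (hl _) (hm _) (abs_nonneg _) ((abs_nonneg _).trans (hl _))

theorem SEL_sup {l m : Finset k[X] → ℝ} {S : Finset k[X]} (h : SEL_cv l m S ≠ 0) :
    ∃ U V, U ∪ V = S ∧ l U ≠ 0 ∧ m V ≠ 0 := by
  obtain ⟨p, hp, h1⟩ := exists_ne_zero_of_sum_ne_zero h
  exact ⟨p.1, p.2, (mem_filter.1 hp).2, mul_ne_zero_iff.1 h1⟩

theorem SEL_mean (T : Finset k[X]) (g : k[X] → ℝ) (l : Finset k[X] → ℝ) :
    ∑ S ∈ T.powerset, l S * ∏ P ∈ S, g P =
      ∑ A ∈ T.powerset, ((∏ P ∈ A, g P) * ∏ P ∈ T \ A, (1 - g P)) * wt l A := by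
  simp only [wt, mul_sum]
  rw [sum_comm' (s := T.powerset) (t' := T.powerset)
    (s' := fun S => T.powerset.filter (S ⊆ ·)) fun A S => by
      simp only [mem_powerset, mem_filter]
      exact ⟨fun h => ⟨h, h.2.trans h.1⟩, fun h => h.1⟩]
  refine sum_congr rfl fun S hS => ?_
  rw [← sum_mul, mul_comm, sum_filter]
  congr 1
  have h1 := prod_add g (fun P => if P ∈ S then 0 else 1 - g P) T
  rw [prod_congr rfl fun P _ => show g P + (if P ∈ S then 0 else 1 - g P) =
    if P ∈ S then g P else 1 by split_ifs <;> ring, prod_ite_mem,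
    inter_eq_right.2 (mem_powerset.1 hS)] at h1
  rw [h1]
  refine sum_congr rfl fun A _ => ?_
  split_ifs with h
  · exact congrArg _ (prod_congr rfl fun P hP => if_neg fun e => (mem_sdiff.1 hP).2 (h e))
  · obtain ⟨P, h2, h3⟩ := not_subset.1 h
    exact mul_eq_zero_of_right _
      (prod_eq_zero (mem_sdiff.2 ⟨mem_powerset.1 hS h2, h3⟩) (if_pos h2))

theorem SEL_m (pv A : Finset k[X]) :
    wt (fun S => if S ⊆ pv then sg S else 0) A = if Disjoint A pv then 1 else 0 := by
  rw [wt, ← sum_filter, show A.powerset.filter (· ⊆ pv) = (A ∩ pv).powerset by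
    ext S; simp only [mem_filter, mem_powerset, subset_inter_iff], sum_sg_powerset]
  simp only [disjoint_iff_inter_eq_empty]

end

theorem p_SEL (hSEL0 : S_SEL0) (hGLB : S_GLB) :
    S_SEL := by
  intro k _ _ pa pv ha hv
  obtain ⟨c, hc, hG⟩ := hGLB k pa ha
  refine ⟨16 / c, 2 * dg pv + 2, by positivity, fun E hE => ?_⟩
  obtain ⟨R, hR⟩ : ∃ R, R = (E - dg pv) / 2 := ⟨_, rfl⟩
  have hg : ∀ P ∈ Pr k E, 0 ≤ gp pa P ∧ gp pa P ≤ 2 / 3 := fun P hP => by
    have h1 : (2 : ℝ) ≤ qq k ^ P.natDegree :=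
      two_le_qq.trans (le_self_pow₀ one_le_qq (by have := (mem_Pr.1 hP).1.pos; omega))
    unfold gp
    split_ifs
    · norm_num
    · exact ⟨by positivity, div_le_div_of_nonneg_left (by norm_num) (by norm_num) (by linarith)⟩
  obtain ⟨ρ, r0, r1, r2, r3⟩ := hSEL0 k (Pr k E) (gp pa) R hg
  have hw : ∀ A, wt (SEL_cv (SEL_cv ρ ρ) fun S => if S ⊆ pv then sg S else 0) A =
      wt ρ A ^ 2 * if Disjoint A pv then 1 else 0 := fun A => by rw [SEL_wt, SEL_wt, SEL_m, sq]
  have hs : ∀ S, SEL_cv (SEL_cv ρ ρ) (fun S => if S ⊆ pv then sg S else 0) S ≠ 0 →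
      S ∈ Sle k E := fun S h => by
    obtain ⟨U, V, rfl, h1, h2⟩ := SEL_sup h
    obtain ⟨U, W, rfl, h3, h4⟩ := SEL_sup h1
    have h5 : V ⊆ pv := by_contra fun e => h2 (if_neg e)
    refine mem_Sle.2 ⟨fun P hP => ?_, ?_⟩
    · rcases mem_union.1 hP with hP | hP
      · exact (mem_Pr.1 (union_subset (r1 U h3).1 (r1 W h4).1 hP)).1
      · exact hv P (h5 hP)
    · have := dg_union_le (U ∪ W) V
      have := dg_union_le U W
      have := (r1 U h3).2
      have := (r1 W h4).2
      have := dg_mono h5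
      omega
  refine ⟨_, ?_, hs, SEL_abs (c := 15) (d := 1) (by norm_num) (SEL_abs (by norm_num) r2 r2)
    fun S => ?_, fun A => ?_, fun A h => by rw [hw, if_neg h, mul_zero], ?_⟩
  · simpa [wt, r0] using hw ∅
  · split_ifs <;> simp [abs_sg]
  · rw [hw]
    split_ifs <;> simp [sq_nonneg]
  · have e1 : (Pr k E).powerset.filter (fun S => dg S ≤ R) = Sle k R := by
      ext S
      rw [mem_filter, mem_powerset, mem_Sle]
      exact ⟨fun h => ⟨fun P hP => (mem_Pr.1 (h.1 hP)).1, h.2⟩, fun h => ⟨fun P hP =>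
        mem_Pr.2 ⟨h.1 P hP, by have := natDegree_le_dg hP; omega⟩, h.2⟩⟩
    have h1 := hG R
    have h2 : 0 < c * ((R : ℝ) + 1) ^ 2 := by positivity
    rw [e1, ← eq_div_iff (h2.trans_le h1).ne'] at r3
    refine (sum_subset (filter_subset _ _ : Sle k E ⊆ (Pr k E).powerset) fun S _ h =>
      mul_eq_zero_of_left (not_not.1 fun e => h (hs S e)) _).trans_le ?_
    rw [SEL_mean]
    refine (sum_le_sum fun A hA => mul_le_mul_of_nonneg_left (show _ ≤ wt ρ A ^ 2 by
      rw [hw]; split_ifs <;> simp [sq_nonneg]) (mul_nonneg (prod_nonneg fun P hP =>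
        (hg P (mem_powerset.1 hA hP)).1) (prod_nonneg fun P hP => by
        linarith [(hg P (mem_sdiff.1 hP).1).2]))).trans ?_
    have h3 : (E : ℝ) ≤ 4 * (R + 1) := by exact_mod_cast (by omega : E ≤ 4 * (R + 1))
    have h4 : (0 : ℝ) < E := by exact_mod_cast (by omega : 0 < E)
    rw [r3]
    refine (one_div_le_one_div_of_le h2 h1).trans ?_
    rw [div_div, div_le_div_iff₀ h2 (by positivity)]
    nlinarith [mul_le_mul_of_nonneg_left (pow_le_pow_left₀ h4.le h3 2) hc.le]

end Pool.Agent.P.MP_8be758_nt.L2
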