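import Pool.Agent.P.MP_8be758_nt.L2.If

/-! Step SEL0. -/

namespace Pool.Agent.P.MP_8be758_nt.L2

open Polynomial Finset Filter
open Pool.Agent.P.MP_8be758_nt.C2
open scoped Classical Topology

section
variable {ι : Type} [DecidableEq ι] {T : Finset ι} {g h : ι → ℝ}

theorem SEL0_split {A e : Finset ι} (hA : A ⊆ T) (he : e ⊆ T) :
    ∏ P ∈ e, ((if P ∈ A then -(1 + h P) else 0) + h P) =
      (∏ P ∈ A, if P ∈ e then (-1 : ℝ) else 1) * ∏ P ∈ T \ A, if P ∈ e then h P else 1 := by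
  have e1 : ∏ P ∈ e, ((if P ∈ A then -(1 + h P) else 0) + h P) =
      ∏ P ∈ T, if P ∈ e then ((if P ∈ A then -(1 + h P) else 0) + h P) else 1 := by
    rw [prod_ite_mem, inter_eq_right.2 he]
  rw [e1, ← prod_sdiff hA, mul_comm]
  congr 1
  · exact prod_congr rfl fun P hP => by simp [hP]
  · exact prod_congr rfl fun P hP => by simp [(Finset.mem_sdiff.1 hP).2]

theorem SEL0_orth (hh : ∀ P ∈ T, (1 - g P) * h P = g P) {e e' : Finset ι} (he : e ⊆ T)
    (he' : e' ⊆ T) :
    ∑ A ∈ T.powerset, ((∏ P ∈ A, g P) * ∏ P ∈ T \ A, (1 - g P)) *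
      ((∏ P ∈ e, ((if P ∈ A then -(1 + h P) else 0) + h P)) *
        ∏ P ∈ e', ((if P ∈ A then -(1 + h P) else 0) + h P)) =
      if e = e' then ∏ P ∈ e, h P else 0 := by
  have e1 := prod_add (fun P => g P * ((if P ∈ e then (-1 : ℝ) else 1) * if P ∈ e' then -1 else 1))
    (fun P => (1 - g P) * ((if P ∈ e then h P else 1) * if P ∈ e' then h P else 1)) T
  refine Eq.trans (sum_congr rfl fun A hA => ?_) (e1.symm.trans ?_)
  · rw [SEL0_split (mem_powerset.1 hA) he, SEL0_split (mem_powerset.1 hA) he']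
    simp only [prod_mul_distrib]
    ring
  · by_cases E : e = e'
    · subst E
      rw [if_pos rfl, ← inter_eq_right.2 he, ← prod_ite_mem, inter_eq_right.2 he]
      refine prod_congr rfl fun P hP => ?_
      by_cases a : P ∈ e
      · simp only [if_pos a]
        linear_combination (h P - 1) * hh P hP
      · simp only [if_neg a]
        ring
    · rw [if_neg E]
      obtain ⟨P, hP⟩ := not_forall.1 fun H => E (Finset.ext H)
      by_cases a : P ∈ e
      · have b : P ∉ e' := fun b => hP (iff_of_true a b)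
        refine prod_eq_zero (he a) ?_
        simp only [if_pos a, if_neg b]
        linear_combination hh P (he a)
      · have b : P ∈ e' := by_contra fun b => hP (iff_of_false a b)
        refine prod_eq_zero (he' b) ?_
        simp only [if_neg a, if_pos b]
        linear_combination hh P (he' b)

theorem SEL0_gen (F : Finset (Finset ι)) (hh : ∀ P ∈ T, (1 - g P) * h P = g P)
    (h0 : ∀ P ∈ T, 0 ≤ h P ∧ h P ≤ 2) (F0 : ∅ ∈ F) (F1 : ∀ e ∈ F, e ⊆ T)
    (F2 : ∀ e ∈ F, ∀ S ⊆ e, S ∈ F) :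
    ∃ ρ : Finset ι → ℝ, ρ ∅ = 1 ∧ (∀ S, ρ S ≠ 0 → S ∈ F) ∧ (∀ S, |ρ S| ≤ 3 ^ S.card) ∧
      (∑ A ∈ T.powerset, ((∏ P ∈ A, g P) * ∏ P ∈ T \ A, (1 - g P)) *
        (∑ S ∈ A.powerset, ρ S) ^ 2) * (∑ S ∈ F, ∏ P ∈ S, h P) = 1 := by
  have nn : ∀ e ∈ F, 0 ≤ ∏ P ∈ e, h P := fun e he => prod_nonneg fun P hP => (h0 P (F1 e he hP)).1
  obtain ⟨G, hG⟩ : ∃ G, G = ∑ S ∈ F, ∏ P ∈ S, h P := ⟨_, rfl⟩
  have G1 : 1 ≤ G := by simpa [hG] using single_le_sum nn F0
  have G0 : 0 < G := one_pos.trans_le G1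
  refine ⟨fun S => (∏ P ∈ S, -(1 + h P)) * (∑ e ∈ F.filter (S ⊆ ·), ∏ P ∈ e \ S, h P) / G,
    ?_, fun S hS => ?_, fun S => ?_, ?_⟩
  · simp [← hG, G0.ne']
  · by_contra H
    beta_reduce at hS
    rw [filter_false_of_mem fun e he h' => H (F2 e he S h')] at hS
    simp at hS
  · beta_reduce
    by_cases H : S ∈ F
    · have a1 : |∏ P ∈ S, -(1 + h P)| ≤ 3 ^ S.card := by
        rw [abs_prod]
        refine (prod_le_prod (fun _ _ => abs_nonneg _) fun P hP => ?_).trans_eq (prod_const 3)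
        have := h0 P (F1 S H hP)
        rw [abs_le]
        constructor <;> linarith
      have a2 : ∑ e ∈ F.filter (S ⊆ ·), ∏ P ∈ e \ S, h P ≤ G := by
        rw [← sum_image (f := fun e => ∏ P ∈ e, h P) (g := fun e => e \ S), hG]
        · refine sum_le_sum_of_subset_of_nonneg (fun e he => ?_) fun e he _ => nn e he
          obtain ⟨e', he', rfl⟩ := mem_image.1 he
          exact F2 e' (mem_filter.1 he').1 _ sdiff_subset
        · intro a ha b hb E
          rw [← sdiff_union_of_subset (mem_filter.1 ha).2,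
            ← sdiff_union_of_subset (mem_filter.1 hb).2]
          exact congrArg (· ∪ S) E
      have a3 : 0 ≤ ∑ e ∈ F.filter (S ⊆ ·), ∏ P ∈ e \ S, h P :=
        sum_nonneg fun e he => nn _ (F2 e (mem_filter.1 he).1 _ sdiff_subset)
      rw [abs_div, abs_mul, abs_of_nonneg a3, abs_of_pos G0, div_le_iff₀ G0]
      exact mul_le_mul a1 a2 a3 (by positivity)
    · rw [filter_false_of_mem fun e he h' => H (F2 e he S h')]
      simp
  · have w : ∀ A : Finset ι, ∑ S ∈ A.powerset,
        (∏ P ∈ S, -(1 + h P)) * (∑ e ∈ F.filter (S ⊆ ·), ∏ P ∈ e \ S, h P) / G =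
        (∑ e ∈ F, ∏ P ∈ e, ((if P ∈ A then -(1 + h P) else 0) + h P)) / G := fun A => by
      rw [← sum_div]
      congr 1
      simp only [sum_filter, mul_sum]
      rw [sum_comm]
      refine sum_congr rfl fun e _ => ?_
      rw [prod_add]
      simp only [prod_ite_zero, mul_ite, ite_mul, mul_zero, zero_mul]
      rw [← sum_filter, ← sum_filter]
      refine sum_congr ?_ fun _ _ => rfl
      ext S
      simp only [mem_filter, mem_powerset]
      exact and_comm
    simp only [w, div_pow, ← mul_div_assoc]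
    rw [← sum_div, ← hG]
    simp only [sq, sum_mul_sum]
    simp only [mul_sum]
    rw [sum_comm, sum_congr rfl fun e he => sum_comm.trans
      (sum_congr rfl fun e' he' => SEL0_orth hh (F1 e he) (F1 e' he'))]
    rw [sum_congr rfl fun e he => (sum_ite_eq F e _).trans (if_pos he), ← hG]
    field_simp

end

theorem p_SEL0 :
    S_SEL0 := by
  intro k _ T g R hg
  have p : ∀ P ∈ T, 0 < 1 - g P := fun P hP => by linarith [(hg P hP).2]
  obtain ⟨ρ, a, b, c, d⟩ := SEL0_gen (T := T) (g := g) (h := fun P => g P / (1 - g P))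
    (T.powerset.filter fun S => dg S ≤ R) (fun P hP => mul_div_cancel₀ _ (p P hP).ne')
    (fun P hP => ⟨div_nonneg (hg P hP).1 (p P hP).le,
      by rw [div_le_iff₀ (p P hP)]; linarith [(hg P hP).2]⟩)
    (by simp [dg_empty]) (fun e he => mem_powerset.1 (mem_filter.1 he).1)
    fun e he S hS => mem_filter.2 ⟨mem_powerset.2 (hS.trans (mem_powerset.1 (mem_filter.1 he).1)),
      (dg_mono hS).trans (mem_filter.1 he).2⟩
  exact ⟨ρ, a, fun S hS => ⟨mem_powerset.1 (mem_filter.1 (b S hS)).1, (mem_filter.1 (b S hS)).2⟩,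
    c, d⟩

end Pool.Agent.P.MP_8be758_nt.L2
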