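import Pool.Agent.P.MP_8be758_nt.L2.If

/-! Step SEQ. -/

namespace Pool.Agent.P.MP_8be758_nt.L2

open Polynomial Finset Filter
open Pool.Agent.P.MP_8be758_nt.C2
open scoped Classical Topology

theorem SEQ_step {r e cs c' B : ℝ} {a : ℕ} {u v : ℕ → ℝ} (hr : 4 / 3 ≤ r) (ha : 1 ≤ a)
    (he : |e| = 1 / (r ^ a * r ^ a)) (hc : cs = c' * (1 + e)) (hB : 0 ≤ B) (hc' : |c'| ≤ 4 * B)
    (hu : ∀ D, |u D - cs| ≤ B / r ^ D)
    (hrec : ∀ D, u D = v D + if a ≤ D then e * v (D - a) else 0) (D : ℕ) :
    |v D - c'| ≤ 4 * B / r ^ D := by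
  have r1 : 1 ≤ r := by linarith
  have r0 : 0 < r := by linarith
  have ra : 4 / 3 ≤ r ^ a := hr.trans (by simpa using pow_le_pow_right₀ r1 ha)
  have pa : 0 < r ^ a := by positivity
  induction D using Nat.strong_induction_on with
  | _ D ih =>
  have pD : 0 < r ^ D := by positivity
  have key : ∀ z, |e * z| ≤ 3 * B / r ^ D → v D - c' = (u D - cs) - e * z →
      |v D - c'| ≤ 4 * B / r ^ D := fun z hz e1 => by
    rw [e1]
    refine (abs_sub _ _).trans ((add_le_add (hu D) hz).trans_eq ?_)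
    ring
  have three : 4 * B / r ^ a ≤ 3 * B := by
    rw [div_le_iff₀ pa]; nlinarith
  by_cases h : a ≤ D
  · refine key (v (D - a) - c') ?_ (by rw [hrec D, if_pos h, hc]; ring)
    have e2 : r ^ D = r ^ (D - a) * r ^ a := by rw [← pow_add, Nat.sub_add_cancel h]
    have := ih (D - a) (by omega)
    rw [abs_mul, he]
    calc _ ≤ 1 / (r ^ a * r ^ a) * (4 * B / r ^ (D - a)) := by gcongr
      _ = 4 * B / r ^ a / r ^ D := by rw [e2]; field_simp
      _ ≤ _ := by gcongr
  · refine key (-c') ?_ (by rw [hrec D, if_neg h, hc]; ring)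
    have e2 : r ^ D ≤ r ^ a := pow_le_pow_right₀ r1 (by omega)
    rw [abs_mul, he, abs_neg]
    calc _ ≤ 1 / (r ^ a * r ^ D) * (4 * B) := by gcongr
      _ = 4 * B / r ^ a / r ^ D := by field_simp
      _ ≤ _ := by gcongr

theorem p_SEQ :
    S_SEQ := by
  intro k _ _ ε c K y hε hc hrec h0 s
  have q2 := two_le_qq (k := k)
  have q0 := qq_pos (k := k)
  have K0 : 0 ≤ K := (abs_nonneg _).trans hc
  have hr : 4 / 3 ≤ √(qq k) := Real.le_sqrt_of_sq_le (by linarith)
  have e1 : |ε| = 1 := by rcases hε with h | h <;> simp [h]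
  suffices H : (∀ P ∈ s, IsPr P) → |eu ε s| ≤ 2 ^ s.card ∧
      ∀ D, |y s D - c * eu ε s| ≤ K * 4 ^ s.card / √(qq k) ^ D from fun h => (H h).2
  induction s using Finset.induction_on with
  | empty => exact fun _ => ⟨by simp [eu_empty], by simpa [eu_empty] using h0⟩
  | insert P s hP ih =>
    intro hs
    obtain ⟨i1, i2⟩ := ih fun Q hQ => hs Q (mem_insert_of_mem hQ)
    have pP := hs P (mem_insert_self _ _)
    have qa : 2 ≤ qq k ^ P.natDegree :=
      q2.trans (by simpa using qq_pow_mono (k := k) pP.pos)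
    have ae : |ε / qq k ^ P.natDegree| = 1 / qq k ^ P.natDegree := by
      rw [abs_div, e1, abs_of_pos (by positivity)]
    have half : 1 / 2 ≤ 1 + ε / qq k ^ P.natDegree := by
      have h1 : 1 / qq k ^ P.natDegree ≤ 1 / 2 := one_div_le_one_div_of_le (by norm_num) qa
      have h2 := neg_abs_le (ε / qq k ^ P.natDegree)
      linarith
    have eq : eu ε (insert P s) = (1 + ε / qq k ^ P.natDegree)⁻¹ * eu ε s := by
      rw [eu, prod_insert hP, eu]
    have b1 : |eu ε (insert P s)| ≤ 2 ^ (insert P s).card := by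
      rw [eq, abs_mul, card_insert_of_notMem hP, pow_succ', abs_of_pos (by positivity)]
      have : (1 + ε / qq k ^ P.natDegree)⁻¹ ≤ 2 := by
        rw [inv_le_comm₀ (by linarith) (by norm_num)]; linarith
      gcongr
    refine ⟨b1, fun D => ?_⟩
    have := SEQ_step (c' := c * eu ε (insert P s)) (e := ε / qq k ^ P.natDegree)
      (v := y (insert P s)) hr pP.pos
      (by rw [ae, ← mul_pow, Real.mul_self_sqrt q0.le])
      (by
        have : 1 + ε / qq k ^ P.natDegree ≠ 0 := by linarith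
        rw [eq, mul_assoc, mul_right_comm, inv_mul_cancel₀ this, one_mul])
      (by positivity)
      (by
        rw [abs_mul]
        rw [card_insert_of_notMem hP] at b1
        have h3 : (2 : ℝ) ^ s.card ≤ 4 ^ s.card := pow_le_pow_left₀ (by norm_num) (by norm_num) _
        have h4 : (0 : ℝ) < 4 ^ s.card := by positivity
        calc _ ≤ K * 2 ^ (s.card + 1) := by gcongr
          _ ≤ K * (4 * 4 ^ s.card) := mul_le_mul_of_nonneg_left (by rw [pow_succ]; linarith) K0
          _ = _ := by ring)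
      i2 (fun D => hrec s P D pP hP) D
    rw [card_insert_of_notMem hP, pow_succ]
    exact this.trans_eq (by ring)

end Pool.Agent.P.MP_8be758_nt.L2
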