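import Pool.Agent.P.MP_8be758_nt.L2.If

/-! Step SPL. -/

namespace Pool.Agent.P.MP_8be758_nt.L2

open Polynomial Finset Filter
open Pool.Agent.P.MP_8be758_nt.C2
open scoped Classical Topology

theorem p_SPL :
    S_SPL := by
  intro k _ _ s e D φ he hes
  rw [sum_sigma']
  have key : ∀ x ∈ (e.powerset.filter fun e1 => dg e1 ≤ D).sigma fun e1 => Sc (s ∪ e) (D - dg e1),
      x.1 ⊆ e ∧ dg x.1 ≤ D ∧ (∀ P ∈ x.2, IsPr P) ∧ dg x.2 = D - dg x.1 ∧ Disjoint x.2 s ∧
        Disjoint x.2 e := fun x hx => by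
    simpa only [mem_sigma, mem_filter, mem_powerset, mem_Sc, disjoint_union_right, and_assoc]
      using hx
  refine sum_bij' (fun d _ => ⟨d ∩ e, d \ e⟩) (fun x _ => x.1 ∪ x.2) (fun d hd => ?_)
    (fun x hx => ?_) (fun d _ => by rw [union_comm, sdiff_union_inter]) (fun x hx => ?_)
    fun d _ => by rw [union_comm, sdiff_union_inter]
  · obtain ⟨h1, h2, h3⟩ := mem_Sc.1 hd
    have h4 := dg_sdiff (inter_subset_left : d ∩ e ⊆ d)
    rw [sdiff_inter_self_left] at h4
    exact mem_sigma.2 ⟨mem_filter.2 ⟨mem_powerset.2 inter_subset_right, by simp only; omega⟩,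
      mem_Sc.2 ⟨fun P hP => h1 P (mem_sdiff.1 hP).1, by simp only; omega,
        disjoint_union_right.2 ⟨h3.mono_left sdiff_subset, sdiff_disjoint⟩⟩⟩
  · obtain ⟨h1, h2, h3, h4, h5, h6⟩ := key x hx
    refine mem_Sc.2 ⟨fun P hP => (mem_union.1 hP).elim (fun h => he P (h1 h)) (h3 P), ?_,
      disjoint_union_left.2 ⟨hes.mono_left h1, h5⟩⟩
    rw [dg_union (h6.symm.mono_left h1)]
    omega
  · obtain ⟨h1, -, -, -, -, h6⟩ := key x hx
    obtain ⟨a, b⟩ := x
    rw [union_inter_distrib_right, inter_eq_left.2 h1, disjoint_iff_inter_eq_empty.1 h6, union_empty,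
      union_sdiff_distrib, sdiff_eq_empty_iff_subset.2 h1, empty_union, sdiff_eq_self_of_disjoint h6]

end Pool.Agent.P.MP_8be758_nt.L2
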