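import Pool.Agent.P.MP_8be758_nt.L2.If

/-! Step SQ2. -/

namespace Pool.Agent.P.MP_8be758_nt.L2

open Polynomial Finset Filter
open Pool.Agent.P.MP_8be758_nt.C2
open scoped Classical Topology

theorem p_SQ2 :
    S_SQ2 := by
  intro k _ _ _ A B
  rw [← PerfectField.separable_iff_squarefree, Polynomial.separable_def, derivative_sq_add,
    IsCoprime.add_mul_right_left_iff, IsCoprime.pow_iff two_pos two_pos]

end Pool.Agent.P.MP_8be758_nt.L2
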