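import Pool.Agent.P.MP_8be758_nt.L2.If

/-! Step SQF. -/

namespace Pool.Agent.P.MP_8be758_nt.L2

open Polynomial Finset Filter
open Pool.Agent.P.MP_8be758_nt.C2
open scoped Classical Topology

theorem SQF_card {k : Type} [Field k] {S : Finset k[X]} (h : ∀ P ∈ S, IsPr P) :
    (UniqueFactorizationMonoid.factors (pr S)).card = S.card :=
  Multiset.card_eq_card_of_rel (UniqueFactorizationMonoid.factors_unique (g := S.val)
    (fun _ hx => UniqueFactorizationMonoid.irreducible_of_factor _ hx) (fun P hP => (h P hP).2)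
    ((UniqueFactorizationMonoid.factors_prod (monic_pr h).ne_zero).trans
      (by rw [pr, prod_eq_multiset_prod, Multiset.map_id']; rfl)))

theorem p_SQF :
    S_SQF := by
  intro k _ _ _ a c g H hd
  have f0 := FF_ne_zero H g
  have hS : ∀ P ∈ pf (FF a c g), IsPr P := fun P => isPr_of_mem_pf
  have h2 : (2 : k[X]) = 0 := CharTwo.two_eq_zero
  have e : derivative (a * c) = a * derivative (FF a c g) + derivative a * FF a c g := by
    simp only [FF, derivative_add, derivative_mul, sq]
    linear_combination (-(a * derivative a * g * g) - a * a * g * derivative g) * h2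
  have hA : Associated (pr (pf (FF a c g))) (FF a c g) := by
    obtain ⟨w, hw⟩ := (subset_pf_iff f0 hS).1 subset_rfl
    have hu : IsUnit w := by
      by_contra hu
      obtain ⟨P, p1, p2⟩ := exists_isPr_dvd hu (right_ne_zero_of_mul (hw ▸ f0))
      have p3 : P ∣ FF a c g := hw ▸ p2.mul_left _
      have p4 := (mem_pf f0).2 ⟨p1, p3⟩
      have p5 := (dvd_pr_iff hS p1).2 p4
      refine disjoint_left.1 hd p4 ((mem_pf H.2.2).2 ⟨p1, ?_⟩)
      rw [e]
      refine dvd_add (Dvd.dvd.mul_left ?_ _) (p3.mul_left _)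
      rw [hw, derivative_mul]
      exact dvd_add (p2.mul_left _) (p5.mul_right _)
    exact ⟨hu.unit, hw.symm⟩
  refine ⟨?_, ?_, ?_⟩
  · rw [← natDegree_pr hS]
    exact natDegree_eq_of_degree_eq (degree_eq_degree_of_associated hA)
  · rw [mu, ← hA.moebius_eq, UniqueFactorizationMonoid.moebius, if_pos (squarefree_pr hS),
      SQF_card hS, sg]
    push_cast
    rfl
  · rw [← hA.irreducible_iff]
    refine ⟨fun h => ?_, fun h => ?_⟩
    · rw [← SQF_card hS, UniqueFactorizationMonoid.card_factors_of_irreducible h]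
    · obtain ⟨P, hP⟩ := card_eq_one.1 h
      rw [hP, pr, prod_singleton]
      exact (hS P (hP ▸ mem_singleton_self P)).2

end Pool.Agent.P.MP_8be758_nt.L2
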