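import Pool.Agent.P.MP_8be758_nt.L2.If

/-! Step T1. -/

namespace Pool.Agent.P.MP_8be758_nt.L2

open Polynomial Finset Filter
open Pool.Agent.P.MP_8be758_nt.C2
open scoped Classical Topology

theorem T1_num {e n c T ε p s : ℝ} (A : ℕ) (he : 0 ≤ e) (hen : e ≤ n) (hc : 0 ≤ c) (hp : 0 < p)
    (hs : p ≤ s) (hT : T ≤ (3 * (e + 1)) ^ A)
    (h : c * 3 ^ A * (n + 1) ^ (A + 1) ≤ ε * p) : (e + 1) * c / s * T ≤ ε := by
  have sp : 0 < s := hp.trans_le hs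
  have h1 : (e + 1) * c / s * T ≤ (e + 1) * c / s * (3 * (e + 1)) ^ A :=
    mul_le_mul_of_nonneg_left hT (by positivity)
  have h2 : (e + 1) * c / s * (3 * (e + 1)) ^ A = c * 3 ^ A * (e + 1) ^ (A + 1) / s := by
    rw [mul_pow]; ring
  have h3 : c * 3 ^ A * (e + 1) ^ (A + 1) ≤ c * 3 ^ A * (n + 1) ^ (A + 1) :=
    mul_le_mul_of_nonneg_left (pow_le_pow_left₀ (by positivity) (by linarith) _) (by positivity)
  have h4 : c * 3 ^ A * (e + 1) ^ (A + 1) / s ≤ c * 3 ^ A * (e + 1) ^ (A + 1) / p :=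
    div_le_div_of_nonneg_left (by positivity) hp hs
  have h5 : c * 3 ^ A * (e + 1) ^ (A + 1) / p ≤ ε := by
    rw [div_le_iff₀ hp]; linarith
  linarith

theorem p_T1 (hT1A : S_T1A) (hLAM : S_LAM) :
    S_T1 := by
  intro k _ _ _ a c κ ε hH hκ hε
  obtain ⟨n0, h0⟩ := NEG (248 + 1) 4 (4 ^ (pf a).card * 3 ^ 248) ε (by norm_num) hε
  refine ⟨n0, fun n hn C1 lam hW => ?_⟩
  have hE : n / κ ≤ n / 4 := Nat.div_le_div_left hκ (by norm_num)
  have h1 := hT1A k a c n (n / κ) lam hH hW.1 hW.2.1 (by omega)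
  have h2 := (hLAM k (n / κ) lam hW.2.2.1).1
  have hq := qq_pos (k := k)
  have s1 : (1 : ℝ) ≤ √(qq k) := Real.one_le_sqrt.2 one_le_qq
  have s2 : (2 : ℝ) ^ (n / 4) ≤ √(qq k) ^ (n - 2 * (n / κ)) :=
    calc (2 : ℝ) ^ (n / 4) ≤ qq k ^ (n / 4) := two_pow_le_qq _
      _ = √(qq k) ^ (2 * (n / 4)) := by rw [pow_mul, Real.sq_sqrt hq.le]
      _ ≤ _ := pow_le_pow_right₀ s1 (by omega)
  have h3 := T1_num (e := ((n / κ : ℕ) : ℝ)) (n := (n : ℝ)) 248 (Nat.cast_nonneg _)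
    (by exact_mod_cast Nat.div_le_self n κ) (by positivity) (by positivity) s2 h2 (h0 n hn)
  refine h1.trans ?_
  rw [mul_assoc, mul_comm ε]
  exact mul_le_mul_of_nonneg_left h3 (by positivity)

end Pool.Agent.P.MP_8be758_nt.L2
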