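import Pool.Agent.P.MP_8be758_nt.L2.If

/-! Step T2B. -/

namespace Pool.Agent.P.MP_8be758_nt.L2

open Polynomial Finset Filter
open Pool.Agent.P.MP_8be758_nt.C2
open scoped Classical Topology

theorem p_T2B (hW2 : S_W2) (hRF : S_RF) (hXAB : S_XAB) (hGAUSS : S_GAUSS) :
    S_T2B := by
  intro k _ _ _ a c h
  obtain ⟨n0, h0⟩ := hW2 k a c h
  refine ⟨n0, fun n hn D b hb hD hn' => ?_⟩
  have q0 := qq_pos (k := k)
  have cT := (hXAB k (pf a) D fun P => isPr_of_mem_pf).1
  have cB : ((Pd k b).card : ℝ) ≤ qq k ^ b := le_trans (le_mul_of_one_le_left (Nat.cast_nonneg _)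
    (by exact_mod_cast (show 1 ≤ b by omega))) (hGAUSS k b (by omega)).1
  have na : ∀ P ∈ Pd k b, P ∉ pf a := fun P hP e => by
    have := natDegree_le_of_dvd ((mem_pf h.1).1 e).2 h.1
    have := (mem_Pd.1 hP).2
    omega
  set f : Finset k[X] → k[X] → ℝ := fun S P => if P ∉ S then rr a c n (insert P S) else 0 with hf
  set W := qq k ^ (D + 2 * b) / qq k ^ (n / 20) with hW
  have W0 : 0 ≤ W := by positivity
  have key : ∀ P1 ∈ Pd k b, ∀ P2 ∈ Pd k b, ∑ S ∈ Sc (pf a) D, f S P1 * f S P2 ≤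
      (if P1 = P2 then qq k ^ D else 0) + W := fun P1 h1 P2 h2 => by
    split_ifs with e
    · subst e
      refine le_add_of_le_of_nonneg (le_trans ?_ cT) W0
      rw [card_eq_sum_ones, Nat.cast_sum]
      refine sum_le_sum fun S hS => ?_
      simp only [hf]
      split_ifs
      · simp
      · rw [mem_Sc] at hS
        simpa [← sq] using (sq_le_one_iff_abs_le_one _).2 (hRF k a c n (insert P1 S) h.1
          (forall_mem_insert _ _ _ |>.2 ⟨(mem_Pd.1 h1).1, hS.1⟩)
          (disjoint_insert_left.2 ⟨na _ h1, hS.2.2⟩)).2.1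
    · rw [zero_add]
      refine le_trans (le_of_eq ?_) ((le_abs_self _).trans
        (h0 n hn D b P1 P2 h1 h2 e (na _ h1) (na _ h2) hD hn'))
      rw [show Sc (pf a ∪ {P1, P2}) D = (Sc (pf a) D).filter (fun S => P1 ∉ S ∧ P2 ∉ S) by
        ext S; simp [mem_Sc, and_assoc]; tauto, sum_filter]
      refine sum_congr rfl fun S _ => ?_
      by_cases a1 : P1 ∈ S <;> by_cases a2 : P2 ∈ S <;> simp [hf, a1, a2]
  refine sq_sum_le_card_mul_sum_sq.trans (mul_le_mul cT ?_ (sum_nonneg fun _ _ => sq_nonneg _)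
    (by positivity))
  calc _ = ∑ P1 ∈ Pd k b, ∑ P2 ∈ Pd k b, ∑ S ∈ Sc (pf a) D, f S P1 * f S P2 := by
        simp only [sdiff_eq_filter, sum_filter, sq, abs_mul_abs_self, sum_mul_sum]
        rw [sum_comm]
        exact sum_congr rfl fun _ _ => sum_comm
    _ ≤ ∑ P1 ∈ Pd k b, (qq k ^ D + qq k ^ b * W) := sum_le_sum fun P1 h1 => by
        refine (sum_le_sum (key P1 h1)).trans ?_
        rw [sum_add_distrib, sum_ite_eq, if_pos h1, sum_const, nsmul_eq_mul]
        gcongr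
    _ ≤ qq k ^ b * (qq k ^ D + qq k ^ b * W) := by
        rw [sum_const, nsmul_eq_mul]
        gcongr
    _ = _ := by rw [hW]; ring

end Pool.Agent.P.MP_8be758_nt.L2
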