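import Pool.Agent.P.MP_8be758_nt.L2.If

/-! Step T3. -/

namespace Pool.Agent.P.MP_8be758_nt.L2

open Polynomial Finset Filter
open Pool.Agent.P.MP_8be758_nt.C2
open scoped Classical Topology

theorem T3_inv (hSPL : S_SPL) (hXAB : S_XAB) {k : Type} [Field k] [Finite k]
    (s e : Finset k[X]) (D : ℕ) (hs : ∀ P ∈ s, IsPr P) (he : ∀ P ∈ e, IsPr P)
    (hd : Disjoint e s) :
    ∑ d ∈ Sc s D, 1 / qq k ^ dg (d ∪ e) ≤ 8 ^ e.card / qq k ^ dg e := by
  have hq := qq_pos (k := k)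
  rw [hSPL k s e D _ he hd]
  calc _ ≤ ∑ _e1 ∈ e.powerset.filter (fun e1 => dg e1 ≤ D), 1 / qq k ^ dg e := by
        refine sum_le_sum fun e1 h1 => ?_
        have h2 : e1 ⊆ e := mem_powerset.1 (mem_filter.1 h1).1
        have h3 := (hXAB k (s ∪ e) (D - dg e1) fun P hP =>
          (mem_union.1 hP).elim (hs P) (he P)).1
        rw [sum_congr rfl (g := fun _ => 1 / (qq k ^ (D - dg e1) * qq k ^ dg e)) fun d hd => by
          obtain ⟨-, h5, h6⟩ := mem_Sc.1 hd
          rw [union_comm e1, union_assoc, union_eq_right.2 h2,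
            dg_union (disjoint_union_right.1 h6).2, h5, pow_add], sum_const, nsmul_eq_mul]
        calc _ ≤ qq k ^ (D - dg e1) * (1 / (qq k ^ (D - dg e1) * qq k ^ dg e)) := by gcongr
          _ = _ := by field_simp
    _ ≤ 8 ^ e.card * (1 / qq k ^ dg e) := by
        rw [sum_const, nsmul_eq_mul]
        have h1 := card_le_card (filter_subset (fun e1 => dg e1 ≤ D) e.powerset)
        rw [card_powerset] at h1
        have h2 : (2 : ℝ) ^ e.card ≤ 8 ^ e.card := by gcongr; norm_num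
        exact mul_le_mul_of_nonneg_right (le_trans (by exact_mod_cast h1) h2) (by positivity)
    _ = _ := by ring

theorem T3_one (hXP : S_XP) (hSPL : S_SPL) (hXAB : S_XAB) (hLAM : S_LAM) {k : Type} [Field k]
    [Finite k] [CharP k 2] {a c : k[X]} (h : Hyp a c) {n E D : ℕ} {B : ℝ} (hB : 0 ≤ B)
    {lam : Finset k[X] → ℝ} {ξ : k[X] → ℝ} (h1 : ∀ S, lam S ≠ 0 → S ∈ Sle k E)
    (h2 : ∀ S, |lam S| ≤ 31 ^ S.card) (hD : D + 2 * E ≤ n)
    (hT : ∀ S : Finset k[X], (∀ P ∈ S, IsPr P) → Disjoint S (pf a) → dg S + E ≤ n →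
      |cx a c n ξ S| ≤ B / qq k ^ dg S) :
    |NX a c n lam ξ D sg| ≤ B * (3 * ((E : ℝ) + 1)) ^ 248 := by
  have hq := qq_pos (k := k)
  rw [hXP k a c n E D lam sg ξ h h1]
  calc _ ≤ ∑ e ∈ (Sle k E).filter (fun e => Disjoint e (pf a)),
        B * (|lam e| * 8 ^ e.card / qq k ^ dg e) := by
        refine (abs_sum_le_sum_abs _ _).trans (sum_le_sum fun e he => ?_)
        obtain ⟨h3, h4⟩ := mem_filter.1 he
        obtain ⟨h5, h6⟩ := mem_Sle.1 h3
        have h7 : |∑ d ∈ Sc (pf a) D, sg d * cx a c n ξ (d ∪ e)| ≤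
            B * (8 ^ e.card / qq k ^ dg e) := by
          refine (abs_sum_le_sum_abs _ _).trans (le_trans (sum_le_sum
            (g := fun d => B * (1 / qq k ^ dg (d ∪ e))) fun d hd => ?_) ?_)
          · obtain ⟨g1, g2, g3⟩ := mem_Sc.1 hd
            have g4 := dg_union_le d e
            rw [abs_mul, abs_sg, one_mul, mul_one_div]
            exact hT _ (fun P hP => (mem_union.1 hP).elim (g1 P) (h5 P))
              (disjoint_union_left.2 ⟨g3, h4⟩) (by omega)
          · rw [← mul_sum]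
            exact mul_le_mul_of_nonneg_left
              (T3_inv hSPL hXAB _ e D (fun P => isPr_of_mem_pf) h5 h4) hB
        rw [abs_mul]
        exact (mul_le_mul_of_nonneg_left h7 (abs_nonneg _)).trans_eq (by ring)
    _ ≤ ∑ e ∈ Sle k E, B * (|lam e| * 8 ^ e.card / qq k ^ dg e) :=
        sum_le_sum_of_subset_of_nonneg (filter_subset _ _) fun _ _ _ => by positivity
    _ ≤ _ := by
        rw [← mul_sum]
        exact mul_le_mul_of_nonneg_left (hLAM k E lam h2).1 hB

theorem p_T3 (hXP : S_XP) (hTW : S_TW) (hCPL : S_CPL) (hSPL : S_SPL) (hXAB : S_XAB) (hLAM : S_LAM) :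
    S_T3 := by
  intro hF k _ _ _ a c κ ε h hκ hε
  have hq := qq_pos (k := k)
  obtain ⟨κ2, n1, k2, hT⟩ := hTW hF k a c κ h (by omega)
  obtain ⟨n2, hN⟩ := NEG 250 κ2 (6 * 3 ^ 248) ε k2 hε
  refine ⟨n1 + n2 + a.natDegree + c.natDegree + 1, fun n hn C1 lam hW => ?_⟩
  have hE : ((n / κ : ℕ) : ℝ) ≤ n := by exact_mod_cast Nat.div_le_self n κ
  set B : ℝ := 3 * qq k ^ n / 2 ^ (n / κ2) with hB
  have B0 : 0 ≤ B := by positivity
  calc _ ≤ ∑ _D ∈ Ico (n + a.natDegree + 2 * (n / κ)) (2 * n + a.natDegree + 1),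
        2 * ((n : ℝ) + 1) * (B * (3 * ((n : ℝ) + 1)) ^ 248) := by
        refine (abs_sum_le_sum_abs _ _).trans (sum_le_sum fun D hD => ?_)
        obtain ⟨d1, d2⟩ := mem_Ico.1 hD
        have e1 : |(n : ℝ) - D| ≤ 2 * ((n : ℝ) + 1) := by
          have f1 : (n : ℝ) ≤ D := by exact_mod_cast (by omega : n ≤ D)
          have f2 : (D : ℝ) ≤ 3 * n := by exact_mod_cast (by omega : D ≤ 3 * n)
          rw [abs_le]; constructor <;> linarith
        have e2 := T3_one hXP hSPL hXAB hLAM h (n := n) (E := n / κ)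
          (D := 2 * n + a.natDegree - D) (ξ := fun g => mu (FF a c g)) B0 hW.2.1 hW.2.2.1
          (by omega) fun S s1 s2 s3 => (hT n (by omega) S s1 s2 s3).trans_eq (by rw [hB]; ring)
        rw [abs_mul, hCPL k a c n (n / κ) D C1 lam h hW (by omega) (by omega)]
        exact mul_le_mul e1 (e2.trans (by gcongr)) (abs_nonneg _) (by positivity)
    _ ≤ ((n : ℝ) + 1) * (2 * ((n : ℝ) + 1) * (B * (3 * ((n : ℝ) + 1)) ^ 248)) := by
        rw [sum_const, nsmul_eq_mul, Nat.card_Ico]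
        refine mul_le_mul_of_nonneg_right ?_ (by positivity)
        exact_mod_cast (by omega : 2 * n + a.natDegree + 1 - (n + a.natDegree + 2 * (n / κ)) ≤ n + 1)
    _ = 6 * 3 ^ 248 * ((n : ℝ) + 1) ^ 250 / 2 ^ (n / κ2) * qq k ^ n := by
        rw [hB, mul_pow, show 250 = 248 + 2 from rfl, pow_add]
        generalize ((n : ℝ) + 1) ^ 248 = u
        generalize (3 : ℝ) ^ 248 = w
        ring
    _ ≤ _ := by
        refine mul_le_mul_of_nonneg_right ?_ (by positivity)
        rw [div_le_iff₀ (by positivity)]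
        exact hN n (by omega)

end Pool.Agent.P.MP_8be758_nt.L2
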