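import Pool.Agent.P.MP_8be758_nt.L2.If

/-! Step T3S. -/

namespace Pool.Agent.P.MP_8be758_nt.L2

open Polynomial Finset Filter
open Pool.Agent.P.MP_8be758_nt.C2
open scoped Classical Topology

theorem p_T3S :
    S_T3S := by
  intro k _ _ R
  have hq := qq_pos (k := k)
  let T := (range (R + 1) ×ˢ range (R + 1)).filter fun d => d.1 + d.2 ≤ R
  have h1 : ∀ m ∈ (low k (R + 1)).filter (fun m => m ≠ 0 ∧ m.natDegree = R), (t3 m : ℝ) ≤
      ∑ d ∈ T, ∑ p ∈ Mo k d.1 ×ˢ Mo k d.2, if p.1 * p.2 ∣ m then (1 : ℝ) else 0 := fun m hm => by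
    obtain ⟨-, m0, hm⟩ := mem_filter.1 hm
    simp only [sum_boole, ← Nat.cast_sum, Nat.cast_le]
    refine le_trans (card_le_card fun p hp => ?_) card_biUnion_le
    obtain ⟨-, p1, p2, p3⟩ := mem_filter.1 hp
    have := natDegree_le_of_dvd p3 m0
    rw [p1.natDegree_mul p2] at this
    refine mem_biUnion.2 ⟨(p.1.natDegree, p.2.natDegree), ?_, ?_⟩
    · simp only [T, mem_filter, mem_product, mem_range]
      omega
    · simp [mem_Mo, p1, p2, p3]
  refine (sum_le_sum h1).trans ?_
  rw [sum_comm]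
  refine (sum_le_card_nsmul _ _ (qq k ^ (R + 1)) fun d hd => ?_).trans ?_
  · have hd := (mem_filter.1 hd).2
    rw [sum_comm]
    refine (sum_le_card_nsmul _ _ (qq k ^ (R + 1 - (d.1 + d.2))) fun p hp => ?_).trans ?_
    · obtain ⟨p1, p2⟩ := mem_product.1 hp
      rw [mem_Mo] at p1 p2
      have e : (p.1 * p.2).natDegree = d.1 + d.2 := by rw [p1.1.natDegree_mul p2.1, p1.2, p2.2]
      rw [sum_boole, ← e, ← card_low_dvd (p1.1.mul p2.1).ne_zero (by omega), Nat.cast_le]
      exact card_le_card (filter_subset_filter _ (filter_subset _ _))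
    · rw [card_product, nsmul_eq_mul, Nat.cast_mul, card_Mo, card_Mo, ← pow_add, ← pow_add]
      exact le_of_eq (congrArg _ (by omega))
  · rw [nsmul_eq_mul]
    refine mul_le_mul_of_nonneg_right ?_ (by positivity)
    have := card_le_card (filter_subset (fun d : ℕ × ℕ => d.1 + d.2 ≤ R)
      (range (R + 1) ×ˢ range (R + 1)))
    rw [card_product, card_range, ← sq] at this
    exact_mod_cast this

end Pool.Agent.P.MP_8be758_nt.L2
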