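import Pool.Agent.P.MP_8be758_nt.L2.If

/-! Step TK. -/

namespace Pool.Agent.P.MP_8be758_nt.L2

open Polynomial Finset Filter
open Pool.Agent.P.MP_8be758_nt.C2
open scoped Classical Topology

theorem TK_abs {α : Type} [DecidableEq α] (Λ : (Finset α → ℝ) →ₗ[ℝ] ℝ) (I : Finset α)
    (g : α → ℝ) {T T1 e : ℝ} (h0 : ∀ P, 0 ≤ g P) (h1 : ∀ P, g P ≤ 1) (hT : T ≤ T1)
    (hT1 : 0 ≤ T1)
    (h : ∀ r ⊆ I, r.card ≤ 2 → |Λ (fun d => if r ⊆ d then 1 else 0) - T * ∏ P ∈ r, g P| ≤ e) :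
    Λ (fun d => (∑ P ∈ I, g P - (d ∩ I).card) ^ 2) ≤ T1 * ∑ P ∈ I, g P + 4 * I.card ^ 2 * e := by
  obtain ⟨L, hL⟩ : ∃ L, L = ∑ P ∈ I, g P := ⟨_, rfl⟩
  obtain ⟨u, hu⟩ : ∃ u : Finset α → Finset α → ℝ, u = fun r d => if r ⊆ d then 1 else 0 := ⟨_, rfl⟩
  have e0 : (fun d : Finset α => (L - (d ∩ I).card) ^ 2) =
      L ^ 2 • u ∅ - (2 * L) • ∑ P ∈ I, u {P} + ∑ P ∈ I, ∑ Q ∈ I, u {P, Q} := funext fun d => by
    have k1 : ((d ∩ I).card : ℝ) = ∑ P ∈ I, if P ∈ d then 1 else 0 := by simp [inter_comm]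
    have k2 : ∀ P Q, u {P, Q} d = (if P ∈ d then 1 else 0) * if Q ∈ d then 1 else 0 := fun P Q => by
      simp only [hu, insert_subset_iff, singleton_subset_iff, ite_and, ite_mul, one_mul, zero_mul]
    simp only [Pi.add_apply, Pi.sub_apply, Pi.smul_apply, Finset.sum_apply, k2, ← sum_mul_sum]
    simp only [hu, singleton_subset_iff, ← k1, empty_subset, if_true, smul_eq_mul]
    ring
  have h' : ∀ r ⊆ I, r.card ≤ 2 → |Λ (u r) - T * ∏ P ∈ r, g P| ≤ e := hu ▸ h
  have a0 := abs_le.1 (h' ∅ (empty_subset _) (by simp))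
  have a1 : T * L - I.card * e ≤ ∑ P ∈ I, Λ (u {P}) := by
    rw [hL, mul_sum, ← nsmul_eq_mul, ← sum_const, ← sum_sub_distrib]
    refine sum_le_sum fun P hP => ?_
    have := abs_le.1 (h' {P} (by simpa) (by simp))
    rw [prod_singleton] at this
    linarith
  have a2 : ∑ P ∈ I, ∑ Q ∈ I, Λ (u {P, Q}) ≤
      ∑ P ∈ I, ∑ Q ∈ I, (T * (g P * g Q + if P = Q then g P - g P ^ 2 else 0) + e) :=
    sum_le_sum fun P hP => sum_le_sum fun Q hQ => by
      have := abs_le.1 (h' {P, Q} (by simp [insert_subset_iff, hP, hQ]) card_le_two)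
      split_ifs with k
      · subst k
        rw [pair_eq_singleton, prod_singleton] at this
        rw [pair_eq_singleton]
        linarith
      · rw [prod_pair k] at this
        linarith
  have a3 : ∑ P ∈ I, ∑ Q ∈ I, (T * (g P * g Q + if P = Q then g P - g P ^ 2 else 0) + e) =
      T * (L * L + (L - ∑ P ∈ I, g P ^ 2)) + I.card * (I.card * e) := by
    simp +contextual only [sum_add_distrib, ← mul_sum, sum_ite_eq, if_true, ← sum_mul, ← hL,
      sum_sub_distrib, sum_const, nsmul_eq_mul]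
  have b0 : 0 ≤ L := hL ▸ sum_nonneg fun P _ => h0 P
  have b1 : L ≤ I.card := hL ▸ (sum_le_card_nsmul _ _ 1 fun P _ => h1 P).trans (by simp)
  have b2 : 0 ≤ ∑ P ∈ I, g P ^ 2 := by positivity
  have b3 : ∑ P ∈ I, g P ^ 2 ≤ L := hL ▸ sum_le_sum fun P _ => by nlinarith [h0 P, h1 P]
  have b4 : 0 ≤ e := by linarith
  rw [prod_empty] at a0
  rw [← hL, e0]
  simp only [map_add, map_sub, map_smul, map_sum, smul_eq_mul]
  have c0 := mul_le_mul_of_nonneg_left a0.2 (sq_nonneg L)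
  have c1 := mul_le_mul_of_nonneg_left a1 b0
  have c2 := mul_le_mul_of_nonneg_right hT (sub_nonneg.2 b3)
  have c3 := mul_nonneg hT1 b2
  have c4 := mul_le_mul_of_nonneg_right (mul_le_mul b1 b1 b0 (b0.trans b1)) b4
  have c5 := mul_le_mul_of_nonneg_right (mul_le_mul_of_nonneg_right b1 (b0.trans b1)) b4
  linarith

theorem p_TK (hNR : S_NR) :
    S_TK := by
  intro k _ _ _ a c κ H hκ
  obtain ⟨n0, h0⟩ := hNR k a c κ H hκ
  refine ⟨n0 + 1500, fun n hn C1 lam D hC W h1 h2 => ?_⟩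
  have q0 := qq_pos (k := k)
  have q1 := one_le_qq (k := k)
  have s0 : 0 ≤ 1 - 1 / qq k := sub_nonneg.2 ((div_le_one q0).2 q1)
  have s1 : (1 - 1 / qq k) * eu 1 (pf a) ≤ 1 :=
    mul_le_one₀ (sub_le_self _ (by positivity)) (eu_one_pos _).le (eu_one_le _)
  have hT : qq k ^ n * ((1 - 1 / qq k) * eu 1 (pf a)) * GG (pf a) (n / κ) lam ≤
      qq k ^ n * (C1 / ((n / κ : ℕ) : ℝ) ^ 2) := by
    rw [mul_assoc]
    exact mul_le_mul_of_nonneg_left ((mul_le_mul_of_nonneg_left W.2.2.2.2.2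
      (mul_nonneg s0 (eu_one_pos _).le)).trans (mul_le_of_le_one_left (by positivity) s1))
      (by positivity)
  have he : 4 * (qq k ^ (n / 100 + 1)) ^ 2 * (qq k ^ n / qq k ^ (n / 30)) ≤
      qq k ^ n / 2 ^ (n / 100) := by
    have : 2 ^ (n / 100 + 2) * (qq k ^ (n / 100 + 1)) ^ 2 ≤ qq k ^ (n / 30) :=
      (mul_le_mul_of_nonneg_right (two_pow_le_qq _) (by positivity)).trans (by
        rw [← pow_mul, ← pow_add]
        exact qq_pow_mono (by omega))
    rw [← mul_div_assoc, div_le_div_iff₀ (by positivity) (by positivity)]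
    convert mul_le_mul_of_nonneg_left this (pow_pos q0 n).le using 1
    ring
  have hr := fun r => h0 n (by omega) C1 lam D r W h1 h2
  refine ⟨?_, le_trans (TK_abs
    { toFun := NN a c n lam D
      map_add' := fun φ ψ => by simp [NN, NX, sum_add_distrib, mul_add]
      map_smul' := fun t φ => by simp [NN, NX, mul_sum, mul_left_comm] }
    (II k n (n / κ)) (fun P => (qq k ^ P.natDegree + 1)⁻¹) (fun P => by positivity)
    (fun P => inv_le_one_of_one_le₀ (le_add_of_nonneg_left (by positivity))) hT (by positivity) hr)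
    (add_le_add le_rfl (le_trans ?_ he))⟩
  · have := (abs_le.1 (hr ∅ (empty_subset _) (by simp))).2
    simp only [empty_subset, if_true, prod_empty, mul_one] at this
    have h3 : 1 ≤ (qq k ^ (n / 100 + 1)) ^ 2 := one_le_pow₀ (one_le_pow₀ q1)
    have h4 : 0 ≤ qq k ^ n / qq k ^ (n / 30) := by positivity
    nlinarith
  · gcongr
    exact card_II_le _ _

end Pool.Agent.P.MP_8be758_nt.L2
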