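import Pool.Agent.P.MP_8be758_nt.L2.If

/-! Step TW. -/

namespace Pool.Agent.P.MP_8be758_nt.L2

open Polynomial Finset Filter
open Pool.Agent.P.MP_8be758_nt.C2
open scoped Classical Topology

section aux

variable {k : Type} [Field k]

theorem TW_mu_C_mul {z : k} (hz : z ≠ 0) (f : k[X]) : mu (C z * f) = mu f := by
  rw [mu, mu, (associated_unit_mul_left f _ (isUnit_C.2 hz.isUnit)).moebius_eq]

theorem TW_mu_mul {a f : k[X]} (h : IsCoprime a f) : mu (a * f) = mu a * mu f := by
  rw [mu, mu, mu, h.isRelPrime.moebius_mul, Int.cast_mul]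

theorem TW_abs_mu {a : k[X]} (h : Squarefree a) : |mu a| = 1 := by
  rw [mu, h.moebius_eq]
  simp

theorem TW_sq_free (n : ℕ) : ∀ a : k[X], a ≠ 0 → a.natDegree = n →
    ∃ a0 s : k[X], s ^ 2 * a0 = a ∧ Squarefree a0 := by
  induction n using Nat.strong_induction_on with
  | _ n ih =>
  intro a ha hn
  by_cases h : Squarefree a
  · exact ⟨a, 1, by simp, h⟩
  obtain ⟨x, ⟨y, rfl⟩, hx⟩ : ∃ x, x * x ∣ a ∧ ¬ IsUnit x := by simpa [Squarefree] using h
  have h0 : x ≠ 0 := fun h => by simp [h] at ha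
  have h1 := right_ne_zero_of_mul ha
  have h2 := natDegree_pos_iff_degree_pos.2 (degree_pos_of_ne_zero_of_nonunit h0 hx)
  rw [natDegree_mul (mul_ne_zero h0 h0) h1, natDegree_mul h0 h0] at hn
  obtain ⟨a0, s, rfl, h3⟩ := ih _ (by omega) y h1 rfl
  exact ⟨a0, x * s, by ring, h3⟩

variable [Finite k] [CharP k 2]

omit [Finite k] in
theorem TW_fr_inj {p q : k[X]} (h : fr p = fr q) : p = q :=
  map_injective _ (frobenius k 2).injective h

theorem TW_fr_surj (t : k[X]) : ∃ t', fr t' = t := by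
  have hs : Function.Surjective (frobenius k 2) :=
    Finite.surjective_of_injective (frobenius k 2).injective
  exact map_surjective _ hs t

theorem TW_sum {bm M ν W0 : k[X]} (hbm : bm.Monic) {n : ℕ} (hW : W0.natDegree < n)
    (φ : k[X] → ℝ) :
    ∑ g ∈ Gs M ν n, φ (fr (bm * g) + W0) =
      ∑ U ∈ Gs (fr (bm * M)) (fr (bm * ν) + W0) (n + bm.natDegree), φ U := by
  refine sum_bij (fun g _ => fr (bm * g) + W0) ?_ ?_ ?_ fun _ _ => rfl
  · intro g hg
    obtain ⟨h1, h2, t, h3⟩ := mem_Gs.1 hg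
    have h4 : (fr (bm * g)).Monic := (hbm.mul h1).map _
    have h5 : (fr (bm * g)).natDegree = n + bm.natDegree := by
      rw [natDegree_fr, hbm.natDegree_mul h1, h2, add_comm]
    have h6 : W0.natDegree < (fr (bm * g)).natDegree := by omega
    refine mem_Gs.2 ⟨h4.add_of_left (degree_lt_degree h6), ?_, fr t, ?_⟩
    · rw [natDegree_add_eq_left_of_natDegree_lt h6, h5]
    · have : g = ν + M * t := by linear_combination h3
      simp only [this, fr, Polynomial.map_mul, Polynomial.map_add]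
      ring
  · intro g _ g' _ h
    exact mul_left_cancel₀ hbm.ne_zero (TW_fr_inj (add_right_cancel h))
  · intro U hU
    obtain ⟨h1, h2, t, h3⟩ := mem_Gs.1 hU
    obtain ⟨t', rfl⟩ := TW_fr_surj t
    have e : fr (bm * (ν + M * t')) = U - W0 := by
      simp only [fr, Polynomial.map_mul, Polynomial.map_add] at h3 ⊢
      linear_combination -h3
    have h6 : W0.natDegree < U.natDegree := by omega
    have h7 : (fr (bm * (ν + M * t'))).Monic := by
      rw [e]; exact h1.sub_of_left (degree_lt_degree h6)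
    have h8 : (bm * (ν + M * t')).Monic := monic_of_injective (frobenius k 2).injective h7
    have h9 : (ν + M * t').Monic := hbm.of_mul_monic_left h8
    have h10 : (fr (bm * (ν + M * t'))).natDegree = n + bm.natDegree := by
      rw [e, natDegree_sub_eq_left_of_natDegree_lt h6, h2]
    rw [natDegree_fr, hbm.natDegree_mul h9] at h10
    refine ⟨ν + M * t', mem_Gs.2 ⟨h9, by omega, t', by ring⟩, ?_⟩
    rw [e]; ring

end aux

theorem p_TW (hTWU : S_TWU) (hROOT : S_ROOT) :
    S_TW := by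
  intro hF k _ _ _ a c κ hH hκ
  have ha0 : a ≠ 0 := hH.1
  obtain ⟨a0, s, ha, h0⟩ := TW_sq_free _ a ha0 rfl
  have hs : s ≠ 0 := fun h => ha0 (by rw [← ha, h]; simp)
  have hbe : a0 * s ≠ 0 := mul_ne_zero h0.ne_zero hs
  have hz : (a0 * s).leadingCoeff⁻¹ ≠ 0 := inv_ne_zero (leadingCoeff_ne_zero.2 hbe)
  have hbm := monic_mul_leadingCoeff_inv hbe
  generalize (a0 * s).leadingCoeff⁻¹ = z at hz hbm
  have h2 : (2 : k[X]) = 0 := CharTwo.two_eq_zero
  set ga : k[X] := C (z ^ 2) * (a0 * c) with hga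
  have hV : odp ga ≠ 0 := by
    intro hV
    have h1 := derivative_eo (evp ga) (odp ga)
    rw [eo_evp_odp, hV, map_zero, hga, derivative_C_mul] at h1
    have h3 : derivative (a0 * c) = 0 :=
      (mul_eq_zero.1 h1).resolve_left (C_ne_zero.2 (pow_ne_zero 2 hz))
    apply hH.2.2
    rw [← ha, mul_assoc, derivative_mul, h3, derivative_sq]
    simp [map_ofNat, h2]
  obtain ⟨κ2, n0, hκ2, H⟩ := hTWU hF k (odp ga) (2 * κ) hV (by omega)
  refine ⟨κ2, n0 + (a0 * s * C z).natDegree + (evp ga).natDegree + 1, hκ2, ?_⟩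
  intro n hn S hS hd hle
  have hco : IsCoprime (pr S) a := (coprime_pr_iff ha0 hS).2 hd
  have e1 : (Mo k n).filter (fun g => pr S ∣ FF a c g) = Gs (pr S) (rt a c (pr S)) n := by
    ext g
    rw [mem_filter, mem_Mo, mem_Gs, hROOT k a c _ (squarefree_pr hS) hco g, and_assoc]
  have e2 : ∀ g, mu (eo (fr (a0 * s * C z * g) + evp ga) (odp ga)) = mu a0 * mu (FF a c g) := by
    intro g
    have hc : IsCoprime a0 (FF a c g) :=
      (coprime_FF hH.2.1 g).of_isCoprime_of_dvd_left ⟨s ^ 2, by rw [← ha]; ring⟩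
    rw [← TW_mu_mul hc, ← TW_mu_C_mul (pow_ne_zero 2 hz) (a0 * _)]
    congr 1
    have h3 := eo_evp_odp ga
    unfold eo at h3 ⊢
    rw [map_add, expand_fr, add_assoc, h3, hga, FF, ← ha, C_pow]
    ring
  have hm : (fr (a0 * s * C z * pr S)).natDegree = (a0 * s * C z).natDegree + dg S := by
    rw [natDegree_fr, hbm.natDegree_mul (monic_pr hS), natDegree_pr hS]
  have hdiv : (n + (a0 * s * C z).natDegree) / (2 * κ) ≤ n / κ := by
    rw [← Nat.mul_div_mul_left n κ (show 0 < 2 by norm_num)]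
    exact Nat.div_le_div_right (by omega)
  have h4 := H (n + (a0 * s * C z).natDegree) (by omega) (fr (a0 * s * C z * pr S))
    (fr (a0 * s * C z * rt a c (pr S)) + evp ga)
    (fr_ne_zero (hbm.mul (monic_pr hS)).ne_zero) (by omega)
  rw [← TW_sum hbm (by omega) (fun U => mu (eo U (odp ga))), hm] at h4
  simp only [e2] at h4
  rw [← mul_sum, abs_mul, TW_abs_mu h0, one_mul] at h4
  rw [cx, e1]
  refine h4.trans ?_
  have hq := qq_pos (k := k)
  have e3 : qq k ^ (n + (a0 * s * C z).natDegree) / qq k ^ ((a0 * s * C z).natDegree + dg S) =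
      qq k ^ n / qq k ^ dg S := by
    rw [pow_add, pow_add]
    field_simp
  rw [e3]
  refine div_le_div_of_nonneg_left (by positivity) (by positivity) ?_
  exact pow_le_pow_right₀ (by norm_num) (Nat.div_le_div_right (by omega))

end Pool.Agent.P.MP_8be758_nt.L2
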