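import Pool.Agent.P.MP_8be758_nt.L2.If

/-! Step TWU. -/

namespace Pool.Agent.P.MP_8be758_nt.L2

open Polynomial Finset Filter
open Pool.Agent.P.MP_8be758_nt.C2
open scoped Classical Topology

theorem p_TWU (hWY : S_WY) (hDEC : S_DEC) (hBADK : S_BADK) (hPARM : S_PARM) :
    S_TWU := by
  intro hFORM k _ _ _ V κ hV hκ
  obtain ⟨s, κ2, n0, hκ2, hP⟩ := hPARM κ V.natDegree hκ
  refine ⟨κ2, n0, hκ2, fun n hn m U0 hm hmn => ?_⟩
  obtain ⟨J, L, t, p1, p2, p3, p4, p5, p6⟩ := hP n hn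
  have hq := qq_pos (k := k)
  have hdiv := Nat.div_le_self n κ
  set m1 := V ^ 2 * (m * X ^ (n - 2 * J - m.natDegree - 2 * V.natDegree)) with hm1
  have hX : (X ^ (n - 2 * J - m.natDegree - 2 * V.natDegree) : k[X]) ≠ 0 :=
    pow_ne_zero _ X_ne_zero
  have hm10 : m1 ≠ 0 := mul_ne_zero (pow_ne_zero 2 hV) (mul_ne_zero hm hX)
  have hd1 : m1.natDegree + 2 * J = n := by
    rw [hm1, natDegree_mul (pow_ne_zero 2 hV) (mul_ne_zero hm hX), natDegree_mul hm hX,
      natDegree_pow, natDegree_X_pow]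
    omega
  have hmm : m ∣ m1 := (dvd_mul_right m _).mul_left _
  have hzd : ∀ z ∈ low k L, m1.natDegree + 2 * z.natDegree < n := by
    intro z hz
    have := natDegree_le_of_mem_low hz
    omega
  have hv : ∀ z ∈ low k L, m1 * z ^ 2 ∈ low k n := fun z hz =>
    mem_low_of_natDegree_lt (lt_of_le_of_lt (natDegree_mul_le.trans (by rw [natDegree_pow]))
      (hzd z hz))
  set η : ℝ := 1 / 2 ^ (t / 2 ^ (s + 1)) with hη
  set N := n + m1.natDegree - 1 - 2 * t with hN
  have inner : ∀ U ∈ Gs m U0 n, |∑ z ∈ low k L, mu (eo (U + m1 * z ^ 2) V)| ≤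
      (if derivative (U * m1) ∈ low k N then qq k ^ L else 0) + 2 * η * qq k ^ L := by
    intro U hU
    obtain ⟨u1, u2, -⟩ := mem_Gs.1 hU
    have hη0 : 0 ≤ 2 * η * qq k ^ L := by positivity
    split_ifs with hb
    · refine (abs_sum_le_sum_abs _ _).trans ((sum_le_sum fun z _ => abs_mu_le _).trans ?_)
      rw [sum_const, nsmul_eq_mul, card_low']; linarith
    rw [zero_add]
    obtain ⟨e, χ, he, hχ, hD⟩ := hDEC hFORM k U V m1 u1 hV (by omega) (dvd_mul_right _ _) hm10
    rw [sum_congr rfl (fun z hz => hD z (by rw [u2]; exact hzd z hz)), ← mul_sum, abs_mul]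
    set c := derivative (U * m1) with hc
    have hc0 : c ≠ 0 := by rintro h; rw [h] at hb; exact hb (zero_mem_low _)
    have c1 : N ≤ c.natDegree := by
      by_contra h; exact hb (mem_low_of_natDegree_lt (by omega))
    have c2 : c.natDegree ≤ n + m1.natDegree - 1 := by
      have := natDegree_derivative_le (U * m1)
      rwa [natDegree_mul u1.ne_zero hm10, u2] at this
    obtain ⟨i, c3⟩ : ∃ i, c.natDegree = 2 * i := by
      obtain ⟨x, y, h⟩ := exists_sq_add (U * m1)
      exact ⟨y.natDegree, by rw [hc, h, derivative_sq_add, natDegree_pow]⟩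
    have d1 : (X * c ^ 3).natDegree = 1 + 3 * c.natDegree := by
      rw [natDegree_mul X_ne_zero (pow_ne_zero 3 hc0), natDegree_X, natDegree_pow]
    have d2 : (V ^ 2 * m1 ^ 3).natDegree = 2 * V.natDegree + 3 * m1.natDegree := by
      rw [natDegree_mul (pow_ne_zero 2 hV) (pow_ne_zero 3 hm10), natDegree_pow, natDegree_pow]
    have hok := p6 (n + m1.natDegree - 1 - c.natDegree) (by omega)
      ⟨3 * i + 1 - V.natDegree - 2 * m1.natDegree, by omega⟩
    have := hWY k s t χ hχ U (X * c ^ 3) (V ^ 2 * m1 ^ 3) (fun z => m1 * z ^ 2) m1.leadingCoeff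
      m1.natDegree L u1 (mul_ne_zero X_ne_zero (pow_ne_zero 3 hc0))
      (mul_ne_zero (pow_ne_zero 2 hV) (pow_ne_zero 3 hm10)) (leadingCoeff_ne_zero.2 hm10)
      (fun x y => by rw [CharTwo.add_sq, mul_add])
      (fun z _ hz => ⟨by rw [natDegree_mul hm10 (pow_ne_zero 2 hz), natDegree_pow],
        by rw [leadingCoeff_mul, leadingCoeff_pow]⟩)
      (by rw [d1, d2, u2]; convert hok using 1 <;> omega)
    calc _ ≤ 1 * (2 * η * qq k ^ L) := mul_le_mul he this (abs_nonneg _) (by norm_num)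
      _ = _ := one_mul _
  have av := sum_avg (Gs m U0 n) (low k L) (fun z => m1 * z ^ 2)
    (fun z hz g hg => add_mem_Gs hg (hv z hz) (hmm.mul_right _)) (fun U => mu (eo U V))
  rw [card_low'] at av
  have tot := (abs_sum_le_sum_abs _ _).trans (sum_le_sum inner)
  rw [← av, sum_add_distrib, ← sum_filter, sum_const, sum_const, nsmul_eq_mul, nsmul_eq_mul,
    abs_mul, abs_of_pos (by positivity)] at tot
  have hB := hBADK k m m1 U0 n J t hm10 hmm hd1 p2
  rw [← hN] at hB
  rw [← card_Gs hm U0 (by omega : m.natDegree ≤ n)]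
  set G : ℝ := ((Gs m U0 n).card : ℝ) with hG
  set B : ℝ := (((Gs m U0 n).filter (fun U => derivative (U * m1) ∈ low k N)).card : ℝ)
  have hG0 : 0 ≤ G := by positivity
  have hB0 : 0 ≤ B := by positivity
  have h1 : (2 : ℝ) ^ (n / κ2) ≤ 2 ^ (t / 2 ^ (s + 1)) := pow_le_pow_right₀ (by norm_num) p3
  have h2 : (2 : ℝ) ^ (t / 2 ^ (s + 1)) ≤ qq k ^ t :=
    (pow_le_pow_right₀ (by norm_num) (Nat.div_le_self _ _)).trans (two_pow_le_qq t)
  have h3 : B ≤ G * η := by
    rw [hη, mul_one_div, le_div_iff₀ (by positivity)]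
    exact (mul_le_mul_of_nonneg_left h2 hB0).trans hB
  have h4 : η ≤ 1 / 2 ^ (n / κ2) := one_div_le_one_div_of_le (by positivity) h1
  have hp : 0 < qq k ^ L := by positivity
  have h5 : |∑ U ∈ Gs m U0 n, mu (eo U V)| ≤ 3 * G * η := by
    refine le_of_mul_le_mul_left ?_ hp
    nlinarith [mul_le_mul_of_nonneg_right h3 hp.le]
  refine h5.trans ?_
  rw [div_eq_mul_one_div]
  gcongr

end Pool.Agent.P.MP_8be758_nt.L2
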