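import Pool.Agent.P.MP_8be758_nt.L2.If

/-! Step W1. -/

namespace Pool.Agent.P.MP_8be758_nt.L2

open Polynomial Finset Filter
open Pool.Agent.P.MP_8be758_nt.C2
open scoped Classical Topology

theorem p_W1 (hWSB : S_WSB) (hRF : S_RF) :
    S_W1 := by
  intro k _ _ _ a c hy
  obtain ⟨D1, hD1⟩ := hWSB k a c hy
  refine ⟨D1, fun n hn D S0 hD hS0 => ?_⟩
  have q0 := qq_pos (k := k)
  have hR : ∀ S ∈ (Sc (pf a) D).filter (fun S => S0 ⊆ S), _ := fun S hS =>
    have h := mem_Sc.1 (mem_filter.1 hS).1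
    And.intro h.2.1 (hRF k a c n S hy.1 h.1 h.2.2)
  rcases le_or_gt D n with h | h
  · rw [sum_eq_zero fun S hS => (hR S hS).2.1 ((hR S hS).1.trans_le h), abs_zero]
    positivity
  have e : ∑ S ∈ (Sc (pf a) D).filter (fun S => S0 ⊆ S), rr a c n S =
      (∑ g ∈ (low k (D - n)).erase 0, psi (g.coeff (D - n - 1)) * WS a c g S0 D) /
        qq k ^ (D - n) := by
    simp only [WS, mul_sum]
    rw [sum_comm, sum_div]
    refine sum_congr rfl fun S hS => ?_
    rw [(hR S hS).2.2.2 (by rw [(hR S hS).1]; exact h), (hR S hS).1]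
  rw [e, abs_div, abs_of_pos (pow_pos q0 _), div_le_iff₀ (pow_pos q0 _)]
  refine (abs_sum_le_sum_abs _ _).trans ((sum_le_card_nsmul _ _
    (qq k ^ D / qq k ^ (n / 20)) fun g hg => ?_).trans ?_)
  · have h1 := natDegree_le_of_mem_low (mem_erase.1 hg).2
    rw [abs_mul, abs_psi, one_mul]
    refine (hD1 D (by omega) g S0 (mem_erase.1 hg).1 (by omega) hS0).trans ?_
    exact div_le_div_of_nonneg_left (by positivity) (by positivity) (qq_pow_mono (by omega))
  · rw [nsmul_eq_mul, mul_comm, ← card_low' (D - n)]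
    exact mul_le_mul_of_nonneg_left (Nat.cast_le.2 (card_le_card (erase_subset _ _)))
      (by positivity)

end Pool.Agent.P.MP_8be758_nt.L2
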