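import Pool.Agent.P.MP_8be758_nt.L2.If

/-! Step W2. -/

namespace Pool.Agent.P.MP_8be758_nt.L2

open Polynomial Finset Filter
open Pool.Agent.P.MP_8be758_nt.C2
open scoped Classical Topology

section

variable {k : Type} [Field k] [Finite k] [CharP k 2]

theorem W2_res (hROOT : S_ROOT) {a c M1 P : k[X]} (h : k[X]) (hP : P ≠ 0)
    (hs : Squarefree (M1 * P)) (hc : IsCoprime (M1 * P) a) :
    res (M1 * P) (h * rt a c (M1 * P) * P) = res M1 (h * rt a c M1) := by
  have h1 : M1 * P ∣ FF a c (rt a c (M1 * P)) := (hROOT k a c _ hs hc _).2 (by simp)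
  have h2 := (hROOT k a c M1 hs.of_mul_left hc.of_mul_left_left _).1 (dvd_of_mul_right_dvd h1)
  rw [res_mul_mul _ _ hP]
  exact res_congr (by rw [← mul_sub]; exact h2.mul_left _)

theorem W2_psi (hROOT : S_ROOT) {a c P1 P2 : k[X]} {S : Finset k[X]} (ha : a ≠ 0) (h1 h2 : k[X])
    (hT : ∀ P ∈ insert P1 (insert P2 S), IsPr P) (hd : Disjoint (insert P1 (insert P2 S)) (pf a))
    (n1 : P1 ∉ S) (n2 : P2 ∉ S) (n12 : P1 ≠ P2) :
    psi (res (pr (insert P1 S)) (h1 * rt a c (pr (insert P1 S)))) *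
      psi (res (pr (insert P2 S)) (h2 * rt a c (pr (insert P2 S)))) =
    psi (res (pr (insert P1 (insert P2 S)))
      ((h1 * P2 + h2 * P1) * rt a c (pr (insert P1 (insert P2 S))))) := by
  have hs := squarefree_pr hT
  have hc := (coprime_pr_iff ha hT).2 hd
  have n3 : P1 ∉ insert P2 S := by simp [n1, n12]
  have e2 : pr (insert P1 (insert P2 S)) = pr (insert P2 S) * P1 := by
    rw [pr_insert n3, mul_comm]
  have e1 : pr (insert P1 (insert P2 S)) = pr (insert P1 S) * P2 := by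
    rw [pr_insert n3, pr_insert n2, pr_insert n1]; ring
  have r1 := W2_res hROOT (c := c) h1 (hT P2 (by simp)).ne_zero (e1 ▸ hs) (e1 ▸ hc)
  have r2 := W2_res hROOT (c := c) h2 (hT P1 (by simp)).ne_zero (e2 ▸ hs) (e2 ▸ hc)
  rw [← e1] at r1
  rw [← e2] at r2
  rw [← psi_add, ← r1, ← r2, ← res_add]
  exact congrArg (fun z => psi (res _ z)) (by ring)

omit [CharP k 2] in
theorem W2_bij {pa : Finset k[X]} {P1 P2 : k[X]} {b D : ℕ} (p1 : P1 ∈ Pd k b) (p2 : P2 ∈ Pd k b)
    (n12 : P1 ≠ P2) (a1 : P1 ∉ pa) (a2 : P2 ∉ pa) (F : Finset k[X] → ℝ) :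
    ∑ S ∈ Sc (pa ∪ {P1, P2}) D, F (insert P1 (insert P2 S)) =
      ∑ T ∈ (Sc pa (D + 2 * b)).filter (fun T => {P1, P2} ⊆ T), F T := by
  obtain ⟨q1, d1⟩ := mem_Pd.1 p1
  obtain ⟨q2, d2⟩ := mem_Pd.1 p2
  have hd : dg ({P1, P2} : Finset k[X]) = 2 * b := by
    rw [dg_insert (by simpa using n12), dg_singleton]; omega
  refine sum_nbij' (fun S => insert P1 (insert P2 S)) (fun T => T \ {P1, P2}) (fun S hS => ?_)
    (fun T hT => ?_) (fun S hS => ?_) (fun T hT => ?_) fun _ _ => rfl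
  · obtain ⟨h1, h2, h3⟩ := mem_Sc.1 hS
    rw [disjoint_union_right, disjoint_insert_right, disjoint_singleton_right] at h3
    refine mem_filter.2 ⟨mem_Sc.2 ⟨by simpa [q1, q2] using h1, ?_, by simp [a1, a2, h3.1]⟩,
      insert_subset_insert _ (by simp)⟩
    rw [dg_insert (by simp [n12, h3.2.1]), dg_insert h3.2.2]; omega
  · obtain ⟨h0, h4⟩ := mem_filter.1 hT
    obtain ⟨h1, h2, h3⟩ := mem_Sc.1 h0
    have := dg_sdiff h4
    exact mem_Sc.2 ⟨fun P hP => h1 P (mem_sdiff.1 hP).1, by omega,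
      disjoint_union_right.2 ⟨h3.mono_left sdiff_subset, sdiff_disjoint⟩⟩
  · obtain ⟨-, -, h3⟩ := mem_Sc.1 hS
    rw [disjoint_union_right, disjoint_insert_right, disjoint_singleton_right] at h3
    ext P
    simp only [Finset.mem_sdiff, Finset.mem_insert, Finset.mem_singleton]
    grind
  · obtain ⟨-, h4⟩ := mem_filter.1 hT
    have h5 := h4 (mem_insert_self _ _)
    have h6 := h4 (mem_insert_of_mem (mem_singleton_self _))
    ext P
    simp only [Finset.mem_sdiff, Finset.mem_insert, Finset.mem_singleton]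
    grind

end

theorem p_W2 (hWSB : S_WSB) (hRF : S_RF) (hROOT : S_ROOT) :
    S_W2 := by
  intro k _ _ _ a c hac
  obtain ⟨D1, hD1⟩ := hWSB k a c hac
  refine ⟨D1, fun n hn D b P1 P2 p1 p2 n12 a1 a2 hD hb => ?_⟩
  obtain ⟨q1, d1⟩ := mem_Pd.1 p1
  obtain ⟨q2, d2⟩ := mem_Pd.1 p2
  have hq := qq_pos (k := k)
  have key : ∀ S ∈ Sc (pf a ∪ {P1, P2}) D, (∀ P ∈ S, IsPr P) ∧ dg S = D ∧ Disjoint S (pf a) ∧
      P1 ∉ S ∧ P2 ∉ S := fun S hS => by
    obtain ⟨h1, h2, h3⟩ := mem_Sc.1 hS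
    rw [disjoint_union_right, disjoint_insert_right, disjoint_singleton_right] at h3
    exact ⟨h1, h2, h3⟩
  have one : ∀ S ∈ Sc (pf a ∪ {P1, P2}) D, ∀ P, IsPr P → P.natDegree = b → P ∉ pf a → P ∉ S →
      (D + b ≤ n → rr a c n (insert P S) = 0) ∧
      (n < D + b → rr a c n (insert P S) = (∑ h ∈ (low k (D + b - n)).erase 0,
        psi (h.coeff (D + b - n - 1)) * psi (res (pr (insert P S))
          (h * rt a c (pr (insert P S))))) / qq k ^ (D + b - n)) := fun S hS P hP hd ha hs => by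
    obtain ⟨h1, h2, h3, -⟩ := key S hS
    have e : dg (insert P S) = D + b := by rw [dg_insert hs]; omega
    have := hRF k a c n (insert P S) hac.1 (by simpa [hP] using h1) (by simp [ha, h3])
    rw [e] at this
    exact ⟨this.1, this.2.2⟩
  rcases le_or_gt (D + b) n with hx | hx
  · rw [sum_eq_zero fun S hS => by
      rw [(one S hS P1 q1 d1 a1 (key S hS).2.2.2.1).1 hx, zero_mul]]
    rw [abs_zero]; positivity
  obtain ⟨x, hx'⟩ : ∃ x, x = D + b - n := ⟨_, rfl⟩
  rw [← hx'] at one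
  have e1 : ∑ S ∈ Sc (pf a ∪ {P1, P2}) D, rr a c n (insert P1 S) * rr a c n (insert P2 S) =
      (∑ h1 ∈ (low k x).erase 0, ∑ h2 ∈ (low k x).erase 0,
        psi (h1.coeff (x - 1)) * psi (h2.coeff (x - 1)) *
          WS a c (h1 * P2 + h2 * P1) {P1, P2} (D + 2 * b)) / (qq k ^ x * qq k ^ x) := by
    simp only [WS, ← W2_bij p1 p2 n12 a1 a2, mul_sum]
    rw [sum_congr rfl fun _ _ => sum_comm, sum_comm, sum_div]
    refine sum_congr rfl fun S hS => ?_
    obtain ⟨h1, h2, h3, h4, h5⟩ := key S hS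
    rw [(one S hS P1 q1 d1 a1 h4).2 hx, (one S hS P2 q2 d2 a2 h5).2 hx, div_mul_div_comm,
      sum_mul_sum]
    refine congrArg (· / _) (sum_congr rfl fun u _ => sum_congr rfl fun v _ => ?_)
    rw [← W2_psi hROOT hac.1 u v (by simpa [q1, q2] using h1) (by simp [a1, a2, h3]) h4 h5 n12]
    ring
  have e2 : ∀ u ∈ (low k x).erase 0, ∀ v ∈ (low k x).erase 0,
      |psi (u.coeff (x - 1)) * psi (v.coeff (x - 1)) *
        WS a c (u * P2 + v * P1) {P1, P2} (D + 2 * b)| ≤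
        qq k ^ (D + 2 * b) / qq k ^ (n / 20) := fun u hu v hv => by
    obtain ⟨u0, hu⟩ := mem_erase.1 hu
    obtain ⟨v0, hv⟩ := mem_erase.1 hv
    have n0 : u * P2 + v * P1 ≠ 0 := fun e => by
      have h1 : P1 ∣ u * P2 := ⟨-v, by linear_combination e⟩
      exact u0 (eq_zero_of_mem_low hu ((q1.coprime q2 n12).dvd_of_dvd_mul_right h1) (by omega))
    have g1 := natDegree_lt_of_mem_low hu u0
    have g2 := natDegree_lt_of_mem_low hv v0
    have g3 := natDegree_mul_le (p := u) (q := P2)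
    have g4 := natDegree_mul_le (p := v) (q := P1)
    have g5 := natDegree_add_le (u * P2) (v * P1)
    rw [abs_mul, abs_mul, abs_psi, abs_psi, one_mul, one_mul]
    refine (hD1 (D + 2 * b) (by omega) _ _ n0 (by omega) (by simp [q1, q2])).trans ?_
    exact div_le_div_of_nonneg_left (by positivity) (by positivity) (qq_pow_mono (by omega))
  have hc : (((low k x).erase 0).card : ℝ) ≤ qq k ^ x := by
    rw [← card_low']; exact_mod_cast card_erase_le
  rw [e1, abs_div, abs_of_pos (a := qq k ^ x * qq k ^ x) (by positivity),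
    div_le_iff₀ (by positivity)]
  refine (abs_sum_le_sum_abs _ _).trans ((sum_le_sum fun u hu =>
    (abs_sum_le_sum_abs _ _).trans (sum_le_sum (e2 u hu))).trans ?_)
  simp only [sum_const, nsmul_eq_mul]
  rw [← mul_assoc, mul_comm]
  gcongr

end Pool.Agent.P.MP_8be758_nt.L2
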