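import Pool.Agent.P.MP_8be758_nt.L2.If

/-! Step WB1. -/

namespace Pool.Agent.P.MP_8be758_nt.L2

open Polynomial Finset Filter
open Pool.Agent.P.MP_8be758_nt.C2
open scoped Classical Topology

theorem WB1_shift {k : Type} [Field k] [Finite k] {A B a : k[X]} (ha : a ≠ 0)
    (h : IsCoprime A B) : ∃ t : k[X], IsCoprime (A + t * B) a := by
  set S := (pf a).filter (fun P => ¬ P ∣ A) with hS
  have hSp : ∀ P ∈ S, IsPr P := fun P hP => isPr_of_mem_pf (mem_filter.1 hP).1
  refine ⟨pr S, isCoprime_of_irreducible_dvd (fun h0 => ha h0.2) ?_⟩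
  intro z hz h1 h2
  obtain ⟨P, hP, hPz⟩ := exists_isPr_dvd hz.not_isUnit hz.ne_zero
  have h3 : P ∣ A + pr S * B := hPz.trans h1
  have h4 : P ∈ pf a := (mem_pf ha).2 ⟨hP, hPz.trans h2⟩
  by_cases hA : P ∣ A
  · rcases hP.prime.dvd_or_dvd ((dvd_add_right hA).1 h3) with h5 | h5
    · exact (mem_filter.1 ((dvd_pr_iff hSp hP).1 h5)).2 hA
    · exact hP.2.not_isUnit (h.isUnit_of_dvd' hA h5)
  · have h5 : P ∣ pr S := (dvd_pr_iff hSp hP).2 (mem_filter.2 ⟨h4, hA⟩)
    exact hA ((dvd_add_left (h5.mul_right B)).1 h3)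

/-- the character of the inverse -/
noncomputable def WB1_f {k : Type} [Field k] [Finite k] (m u y : k[X]) : ℝ :=
  ∑ e ∈ low k m.natDegree, if m ∣ y * e - 1 then psi (res m (u * e)) else 0

theorem WB1_zero {k : Type} [Field k] [Finite k] {m u y : k[X]} (h : ¬ IsCoprime y m) :
    WB1_f m u y = 0 := by
  refine sum_eq_zero fun e _ => if_neg ?_
  rintro ⟨d, hd⟩
  exact h ⟨e, -d, by linear_combination hd⟩

theorem WB1_one {k : Type} [Field k] [Finite k] {m y : k[X]} (u : k[X]) (hm : m ≠ 0)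
    (h : IsCoprime y m) : ∃ e, m ∣ y * e - 1 ∧ WB1_f m u y = psi (res m (u * e)) := by
  obtain ⟨e, d, hed⟩ := id h
  have h1 : m ∣ y * (e % m) - 1 :=
    ⟨-d - y * (e / m), by linear_combination hed + y * EuclideanDomain.div_add_mod e m⟩
  refine ⟨e % m, h1, ?_⟩
  unfold WB1_f
  rw [sum_eq_single_of_mem (e % m) (mod_mem_low hm e), if_pos h1]
  intro e' he' hne
  refine if_neg fun h2 => hne ?_
  have h3 : m ∣ y * (e' - e % m) := by
    have := dvd_sub h2 h1
    rwa [show y * e' - 1 - (y * (e % m) - 1) = y * (e' - e % m) by ring] at this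
  exact sub_eq_zero.1 (eq_zero_of_mem_low (sub_mem_low he' (mod_mem_low hm e))
    (h.symm.dvd_of_dvd_mul_left h3) le_rfl)

theorem WB1_per {k : Type} [Field k] [Finite k] (m u x y : k[X]) :
    WB1_f m u (x + m * y) = WB1_f m u x := by
  refine sum_congr rfl fun e _ => if_congr ?_ rfl rfl
  rw [show (x + m * y) * e - 1 = x * e - 1 + m * (y * e) by ring]
  exact dvd_add_left (dvd_mul_right _ _)

theorem WB1_kl {k : Type} [Field k] [Finite k] [CharP k 2] (m u l : k[X]) :
    ∑ x ∈ low k m.natDegree, WB1_f m u x * psi (res m (l * x)) = Kl m u l := by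
  refine sum_congr rfl fun x _ => ?_
  unfold WB1_f
  rw [sum_mul]
  refine sum_congr rfl fun e _ => ?_
  split_ifs
  · rw [res_add, psi_add]
  · exact zero_mul _

theorem p_WB1 (hPH : S_PH) (hCOS : S_COS) (hSQ2 : S_SQ2) (hROOT : S_ROOT) :
    S_WB1 := by
  intro k _ _ _ a c w v h B M0 G Bd ha hB hac hM0 haB hG hdeg hK
  have hBd : 0 ≤ Bd := (abs_nonneg _).trans (hK 0)
  have hm : B * a ≠ 0 := mul_ne_zero hB ha
  set T := low k (B.natDegree - a.natDegree) with hT
  set φ : k[X] → ℝ := fun A => if Squarefree (A ^ 2 + X * B ^ 2) ∧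
      IsCoprime (A ^ 2 + X * B ^ 2) a ∧ M0 ∣ A ^ 2 + X * B ^ 2 then
      psi (res (A ^ 2 + X * B ^ 2) (h * rt a c (A ^ 2 + X * B ^ 2))) else 0 with hφ
  have hax : ∀ x ∈ T, a * x ∈ low k B.natDegree := fun x hx => mul_mem_low hx (by omega)
  have main : ∀ A ∈ G, (Squarefree (A ^ 2 + X * B ^ 2) ∧
      IsCoprime (A ^ 2 + X * B ^ 2) a ∧ M0 ∣ A ^ 2 + X * B ^ 2) →
      |∑ x ∈ T, φ (A + a * x)| ≤ Bd := by
    rintro A hA ⟨h1, h2, h3⟩
    obtain ⟨t, ht⟩ := WB1_shift ha ((hSQ2 k A B).1 h1)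
    obtain ⟨z, hz, hP⟩ := hPH k a c w v h B A t ha hB hac h2
    have e1 : ∀ x ∈ T, φ (A + a * x) =
        if M0 ∣ a * x then z * WB1_f (B * a) (h * v) (A + t * B + a * x) else 0 := by
      intro x hx
      have hA' := hG A hA _ (hax x hx)
      have e2 : (A + a * x) ^ 2 + X * B ^ 2 = A ^ 2 + X * B ^ 2 + (a * x) ^ 2 := by
        linear_combination add_self' (A * (a * x))
      have c1 : IsCoprime ((A + a * x) ^ 2 + X * B ^ 2) a := by
        rw [e2, show (a * x) ^ 2 = a * (a * x ^ 2) by ring]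
        exact h2.add_mul_left_left _
      have c2 : M0 ∣ (A + a * x) ^ 2 + X * B ^ 2 ↔ M0 ∣ a * x := by
        rw [e2, dvd_add_right h3]
        exact hM0.dvd_pow_iff_dvd two_ne_zero
      have c3 : IsCoprime (A + t * B + a * x) (B * a) ↔ IsCoprime (A + a * x) B := by
        rw [IsCoprime.mul_right_iff, and_iff_left (ht.add_mul_left_left x),
          show A + t * B + a * x = A + a * x + t * B by ring, IsCoprime.add_mul_right_left_iff]
      by_cases hd : M0 ∣ a * x
      · rw [if_pos hd]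
        by_cases hc : IsCoprime (A + a * x) B
        · have hs := (hSQ2 k _ B).2 hc
          obtain ⟨e, he, hf⟩ := WB1_one (h * v) hm (c3.2 hc)
          rw [hf, hφ]
          simp only
          rw [if_pos ⟨hs, c1, c2.2 hd⟩]
          refine hP (A + a * x) e _ ⟨x, by ring⟩ ?_ ?_ (hdeg _ hA').1 (hdeg _ hA').2
          · rwa [show A + a * x + t * B = A + t * B + a * x by ring]
          · exact (hROOT k a c _ hs c1 _).2 (by rw [sub_self]; exact dvd_zero _)
        · rw [WB1_zero (fun h' => hc (c3.1 h')), mul_zero, hφ]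
          exact if_neg fun h' => hc ((hSQ2 k _ B).1 h'.1)
      · rw [if_neg hd, hφ]
        exact if_neg fun h' => hd (c2.1 h'.2.2)
    rw [sum_congr rfl e1, ← sum_filter, ← mul_sum, abs_mul]
    have e3 : ∑ x ∈ T.filter (fun x => M0 ∣ a * x), WB1_f (B * a) (h * v) (A + t * B + a * x) =
        ∑ u ∈ (T.filter (fun x => M0 ∣ a * x)).image (fun x => a * x),
          WB1_f (B * a) (h * v) (A + t * B + u) :=
      (sum_image (f := fun u => WB1_f (B * a) (h * v) (A + t * B + u))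
        (fun x _ y _ hxy => mul_left_cancel₀ ha hxy)).symm
    have e4 := hCOS k (B * a) (A + t * B) ((T.filter (fun x => M0 ∣ a * x)).image (fun x => a * x))
      (WB1_f (B * a) (h * v)) Bd hm
      (by
        intro u hu
        obtain ⟨x, hx, rfl⟩ := mem_image.1 hu
        exact low_mono (by rw [natDegree_mul hB ha]; omega) (hax x (mem_filter.1 hx).1))
      (mem_image.2 ⟨0, mem_filter.2 ⟨zero_mem_low _, by simp⟩, mul_zero _⟩)
      (by
        intro u hu u' hu'
        obtain ⟨x, hx, rfl⟩ := mem_image.1 hu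
        obtain ⟨x', hx', rfl⟩ := mem_image.1 hu'
        rw [mem_filter] at hx hx'
        refine mem_image.2 ⟨x + x', mem_filter.2 ⟨add_mem_low hx.1 hx'.1, ?_⟩, mul_add _ _ _⟩
        rw [mul_add]
        exact dvd_add hx.2 hx'.2)
      (WB1_per _ _) (fun l => by rw [WB1_kl]; exact hK l)
    rw [e3]
    exact (mul_le_of_le_one_left (abs_nonneg _) hz).trans e4
  have inner : ∀ A ∈ G, |∑ x ∈ T, φ (A + a * x)| ≤ Bd := by
    intro A hA
    by_cases hex : ∃ x ∈ T, Squarefree ((A + a * x) ^ 2 + X * B ^ 2) ∧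
      IsCoprime ((A + a * x) ^ 2 + X * B ^ 2) a ∧ M0 ∣ (A + a * x) ^ 2 + X * B ^ 2
    · obtain ⟨x1, hx1, hc⟩ := hex
      rw [← sum_shift T x1 (fun g hg => add_mem_low hg hx1) (fun x => φ (A + a * x))]
      have := main _ (hG A hA _ (hax x1 hx1)) hc
      refine le_of_eq_of_le (congrArg _ (sum_congr rfl fun x _ => ?_)) this
      rw [show A + a * (x + x1) = A + a * x1 + a * x by ring]
    · rw [sum_eq_zero, abs_zero]
      · exact hBd
      · intro x hx
        exact if_neg fun h' => hex ⟨x, hx, h'⟩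
  have av := sum_avg G T (fun x => a * x) (fun x hx g hg => hG g hg _ (hax x hx)) φ
  rw [hT, card_low'] at av
  rw [sum_filter, ← abs_of_pos (pow_pos (qq_pos (k := k)) (B.natDegree - a.natDegree)),
    ← abs_mul, mul_comm]
  change |qq k ^ (B.natDegree - a.natDegree) * ∑ A ∈ G, φ A| ≤ _
  rw [av]
  refine (abs_sum_le_sum_abs _ _).trans ((sum_le_sum inner).trans_eq ?_)
  rw [sum_const, nsmul_eq_mul]

end Pool.Agent.P.MP_8be758_nt.L2
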