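import Pool.Agent.P.MP_8be758_nt.L2.If

/-! Step WS1. -/

namespace Pool.Agent.P.MP_8be758_nt.L2

open Polynomial Finset Filter
open Pool.Agent.P.MP_8be758_nt.C2
open scoped Classical Topology

theorem WS1_deg {k : Type} [Field k] (A B : k[X]) :
    2 * A.natDegree ≤ (A ^ 2 + X * B ^ 2).natDegree ∧
      (B ≠ 0 → 2 * B.natDegree + 1 ≤ (A ^ 2 + X * B ^ 2).natDegree) := by
  have h1 : (A ^ 2).natDegree = 2 * A.natDegree := natDegree_pow _ _
  by_cases hB : B = 0
  · subst hB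
    simp [h1]
  · have h2 : (X * B ^ 2).natDegree = 2 * B.natDegree + 1 := by
      rw [natDegree_X_mul (pow_ne_zero _ hB), natDegree_pow]
    rcases lt_or_gt_of_ne (show (A ^ 2).natDegree ≠ (X * B ^ 2).natDegree by omega) with h | h
    · rw [natDegree_add_eq_right_of_natDegree_lt h]; omega
    · rw [natDegree_add_eq_left_of_natDegree_lt h]; omega

theorem WS1_sq {k : Type} [Field k] [CharP k 2] {B B' : k[X]} (h : B ^ 2 = B' ^ 2) : B = B' := by
  have h2 : (2 : k[X]) = 0 := CharTwo.two_eq_zero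
  have h3 : (B - B') ^ 2 = 0 := by linear_combination h + (B' ^ 2 - B * B') * h2
  exact sub_eq_zero.1 (pow_eq_zero_iff two_ne_zero |>.1 h3)

theorem WS1_inj {k : Type} [Field k] [Finite k] [CharP k 2] {A B A' B' : k[X]}
    (h : A ^ 2 + X * B ^ 2 = A' ^ 2 + X * B' ^ 2) : B = B' ∧ A = A' := by
  have h1 := congrArg derivative h
  rw [derivative_sq_add, derivative_sq_add] at h1
  obtain rfl := WS1_sq h1
  exact ⟨rfl, WS1_sq (add_right_cancel h)⟩

theorem WS1_split {k : Type} [Field k] [Finite k] [CharP k 2] (D : ℕ) (T : Finset k[X])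
    (hT : ∀ M ∈ T, M.natDegree = D) (ψ : k[X] → ℝ) :
    ∑ M ∈ T, ψ M = ∑ B ∈ low k (D / 2 + 1),
      ∑ A ∈ (low k (D / 2 + 1)).filter (fun A => A ^ 2 + X * B ^ 2 ∈ T), ψ (A ^ 2 + X * B ^ 2) := by
  have e : ∑ p ∈ (low k (D / 2 + 1) ×ˢ low k (D / 2 + 1)).filter
      (fun p => p.2 ^ 2 + X * p.1 ^ 2 ∈ T), ψ (p.2 ^ 2 + X * p.1 ^ 2) = ∑ M ∈ T, ψ M := by
    refine sum_bij (fun p _ => p.2 ^ 2 + X * p.1 ^ 2) (fun p hp => (mem_filter.1 hp).2) ?_ ?_
      fun _ _ => rfl
    · intro p _ p' _ h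
      exact Prod.ext (WS1_inj h).1 (WS1_inj h).2
    · intro M hM
      obtain ⟨A, B, rfl⟩ := exists_sq_add M
      obtain ⟨h1, h2⟩ := WS1_deg A B
      rw [hT _ hM] at h1 h2
      refine ⟨(B, A), mem_filter.2 ⟨mem_product.2 ⟨?_, mem_low_of_natDegree_lt (by
        dsimp only; omega)⟩, hM⟩, rfl⟩
      by_cases hB : B = 0
      · rw [hB]; exact zero_mem_low _
      · have := h2 hB
        exact mem_low_of_natDegree_lt (by dsimp only; omega)
  rw [← e, sum_filter, sum_product]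
  exact sum_congr rfl fun B _ => (sum_filter _ _).symm

theorem WS1_eq (hBIJ : S_BIJ) {k : Type} [Field k] [Finite k] {a : k[X]} (c h : k[X]) (ha : a ≠ 0)
    {S0 : Finset k[X]} (hS : ∀ P ∈ S0, IsPr P) (D : ℕ) :
    WS a c h S0 D = ∑ M ∈ (Mo k D).filter (fun M => Squarefree M ∧ IsCoprime M a ∧ pr S0 ∣ M),
      psi (res M (h * rt a c M)) := by
  have e : (Sc (pf a) D).filter (fun S => S0 ⊆ S) =
      (Sc (∅ : Finset k[X]) D).filter (fun S => IsCoprime (pr S) a ∧ pr S0 ∣ pr S) := by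
    ext S
    simp only [mem_filter, mem_Sc, disjoint_empty_right, and_true]
    constructor
    · rintro ⟨⟨h1, h2, h3⟩, h4⟩
      exact ⟨⟨h1, h2⟩, (coprime_pr_iff ha h1).2 h3, (pr_dvd_pr hS h1).2 h4⟩
    · rintro ⟨⟨h1, h2⟩, h3, h4⟩
      exact ⟨⟨h1, h2, (coprime_pr_iff ha h1).1 h3⟩, (pr_dvd_pr hS h1).1 h4⟩
  rw [WS, e, sum_filter, ← filter_filter, sum_filter (s := (Mo k D).filter Squarefree)]
  exact hBIJ k D fun M => if IsCoprime M a ∧ pr S0 ∣ M then psi (res M (h * rt a c M)) else 0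

theorem p_WS1 (hWB1 : S_WB1) (hBIJ : S_BIJ) :
    S_WS1 := by
  intro k _ _ _ a c w v h S0 D R0 Bd ha hac hS hR hD hBd hK
  have hq := qq_pos (k := k)
  rw [WS1_eq hBIJ c h ha hS, WS1_split D _ (fun M hM => (mem_Mo.1 (mem_filter.1 hM).1).2)]
  refine (abs_sum_le_sum_abs _ _).trans ?_
  rw [← sum_filter_add_sum_filter_not _ (fun B : k[X] => B ≠ 0 ∧ R0 ≤ B.natDegree), add_comm]
  refine add_le_add ?_ (sum_le_sum fun B hB => ?_)
  · refine (sum_le_card_nsmul _ _ (qq k ^ (D / 2 + 1)) fun B _ => ?_).trans ?_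
    · refine (abs_sum_le_sum_abs _ _).trans ?_
      simp only [abs_psi, sum_const, nsmul_eq_mul, mul_one]
      rw [← card_low']
      exact_mod_cast card_filter_le _ _
    · rw [nsmul_eq_mul, pow_add _ _ R0, mul_comm]
      refine mul_le_mul_of_nonneg_left ?_ (by positivity)
      rw [← card_low']
      refine Nat.cast_le.2 (card_le_card fun B hB => ?_)
      by_cases h0 : B = 0
      · rw [h0]; exact zero_mem_low _
      · exact mem_low_of_natDegree_lt (not_le.1 fun h1 => (mem_filter.1 hB).2 ⟨h0, h1⟩)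
  · obtain ⟨hB1, hB0, hB2⟩ := mem_filter.1 hB
    have hB3 := natDegree_lt_of_mem_low hB1 hB0
    have h1 := hWB1 k a c w v h B (pr S0)
      ((low k (D / 2 + 1)).filter fun A => A ^ 2 + X * B ^ 2 ∈ Mo k D) (Bd B) ha hB0 hac
      (squarefree_pr hS) (hR.trans hB2) (fun A hA x hx => by
        obtain ⟨a1, a2⟩ := mem_filter.1 hA
        refine mem_filter.2 ⟨add_mem_low a1 (low_mono hB3.le hx), ?_⟩
        have h2 : (2 : k[X]) = 0 := CharTwo.two_eq_zero
        have e : (A + x) ^ 2 + X * B ^ 2 = A ^ 2 + X * B ^ 2 + x ^ 2 := by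
          linear_combination (A * x) * h2
        rw [e]
        refine add_mem_Gs a2 ?_ (one_dvd _)
        by_cases h0 : x = 0
        · rw [h0, zero_pow two_ne_zero]; exact zero_mem_low _
        · have a3 := natDegree_lt_of_mem_low hx h0
          have a4 := (WS1_deg A B).2 hB0
          rw [(mem_Mo.1 a2).2] at a4
          exact mem_low_of_natDegree_lt (by rw [natDegree_pow]; omega))
      (fun A hA => by
        have a2 := (mem_Mo.1 (mem_filter.1 hA).2).2
        have a4 := (WS1_deg A B).1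
        rw [a2] at a4 ⊢
        omega) (hK B hB1 hB0 hB2)
    rw [filter_filter] at h1
    simp only [mem_filter]
    rw [div_mul_eq_mul_div, le_div_iff₀ (by positivity)]
    refine h1.trans (mul_le_mul_of_nonneg_right ?_ (hBd B))
    rw [← card_low']
    exact_mod_cast card_filter_le _ _

end Pool.Agent.P.MP_8be758_nt.L2
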