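import Pool.Agent.P.MP_8be758_nt.L2.If

/-! Step WY. -/

namespace Pool.Agent.P.MP_8be758_nt.L2

open Polynomial Finset Filter
open Pool.Agent.P.MP_8be758_nt.C2
open scoped Classical Topology

theorem p_WY (hWY0 : S_WY0) (hWYS : S_WYS) :
    S_WY := by
  intro k _ _ _ s t χ hχ
  have main : ∀ (s : ℕ) (η : ℝ) (χ : k[X] → ℝ), 0 ≤ η → η ≤ 1 →
      1 ≤ η ^ (2 ^ (s + 1)) * 2 ^ t → IsCh χ → WB k (s + 1) t η χ := by
    intro s
    induction s with
    | zero =>
      intro η χ h0 _ h2 hχ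
      exact hWYS k 0 t η χ h0 (by simpa using h2) hχ (hWY0 k t _ (by positivity))
    | succ s ih =>
      intro η χ h0 h1 h2 hχ
      refine hWYS k (s + 1) t η χ h0 (h2.trans ?_) hχ (ih (η ^ 2) _ (by positivity)
        (pow_le_one₀ h0 h1) ?_ ⟨by simp, by simp⟩)
      · refine mul_le_mul_of_nonneg_right (pow_le_pow_of_le_one h0 h1 ?_) (by positivity)
        calc 2 = 2 ^ 1 := rfl
          _ ≤ 2 ^ (s + 1 + 1) := Nat.pow_le_pow_right (by norm_num) (by omega)
      · rwa [← pow_mul, ← pow_succ']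
  refine main s _ χ (by positivity) ?_ ?_ hχ
  · rw [div_le_one (by positivity)]
    exact one_le_pow₀ (by norm_num)
  · rw [div_pow, one_pow, ← pow_mul, div_mul_eq_mul_div, one_mul, le_div_iff₀ (by positivity),
      one_mul]
    exact pow_le_pow_right₀ (by norm_num) (Nat.div_mul_le_self _ _)

end Pool.Agent.P.MP_8be758_nt.L2
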