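import Pool.Agent.P.MP_8be758_nt.L2.If

/-! Step WY0. -/

namespace Pool.Agent.P.MP_8be758_nt.L2

open Polynomial Finset Filter
open Pool.Agent.P.MP_8be758_nt.C2
open scoped Classical Topology

theorem WY0_exp {k : Type} [Field k] [CharP k 2] {U E W Cn : k[X]} (hU : U ≠ 0)
    (hUE : U + E ≠ 0) :
    res ((U + E) * W) Cn = res (U * W) Cn + res (U ^ 2 * W) (Cn * E) +
      res (U ^ 2 * (U + E) * W) (Cn * E ^ 2) := by
  have h2 : (2 : k[X]) = 0 := CharTwo.two_eq_zero
  rw [← res_mul_mul ((U + E) * W) Cn (pow_ne_zero 2 hU),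
    ← res_mul_mul (U * W) Cn (mul_ne_zero hU hUE), ← res_mul_mul (U ^ 2 * W) (Cn * E) hUE,
    show U * W * (U * (U + E)) = (U + E) * W * U ^ 2 by ring,
    show U ^ 2 * W * (U + E) = (U + E) * W * U ^ 2 by ring,
    show U ^ 2 * (U + E) * W = (U + E) * W * U ^ 2 by ring, ← res_add, ← res_add]
  congr 1
  linear_combination (-(Cn * U * E) - Cn * E ^ 2) * h2

theorem WY0_deg {k : Type} [Field k] [Finite k] {U : k[X]} {Ef : k[X] → k[X]} {A L : ℕ}
    {z0 : k} (hU : U.Monic) (hadd : ∀ x y, Ef (x + y) = Ef x + Ef y)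
    (hE : ∀ z ∈ low k L, z ≠ 0 → (Ef z).natDegree = A + 2 * z.natDegree ∧
      (Ef z).leadingCoeff = z0 * z.leadingCoeff ^ 2)
    (h : 2 * (L : ℤ) ≤ (U.natDegree : ℤ) - A + 1) {z : k[X]} (hz : z ∈ low k L) :
    (U + Ef z).Monic ∧ (U + Ef z).natDegree = U.natDegree := by
  by_cases h0 : z = 0
  · have : Ef 0 = 0 := by have := hadd 0 0; simpa using this
    simp [h0, this, hU]
  · have h1 := natDegree_lt_of_mem_low hz h0
    have h2 := (hE z hz h0).1
    have h3 : (Ef z).natDegree < U.natDegree := by omega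
    exact ⟨hU.add_of_left (degree_lt_degree h3), natDegree_add_eq_left_of_natDegree_lt h3⟩

theorem p_WY0 :
    S_WY0 := by
  intro k _ _ _ t η hη U Cn W Ef z0 A L hU hC hW hz0 hadd hE hOk
  obtain ⟨o1, o2, o3, o4, o5, i, o6⟩ := hOk
  simp only [pow_zero, Nat.cast_zero, zero_mul] at o1 o4 o5
  have hE0 : Ef 0 = 0 := by have := hadd 0 0; simpa using this
  have hU0 := hU.ne_zero
  have key : ∀ z ∈ low k L, psi (res ((U + Ef z) * W) Cn) =
      psi (res (U * W) Cn) * psi (res (U ^ 2 * W) (Cn * Ef z)) := by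
    intro z hz
    obtain ⟨h1, h2⟩ := WY0_deg hU hadd hE o2 hz
    rw [WY0_exp hU0 h1.ne_zero, ← psi_add]
    by_cases h0 : z = 0
    · simp [h0, hE0, res_zero]
    · have h3 := natDegree_lt_of_mem_low hz h0
      have h4 := (hE z hz h0).1
      rw [res_eq_zero (M := U ^ 2 * (U + Ef z) * W), add_zero]
      have h5 : (Cn * Ef z ^ 2).natDegree ≤ Cn.natDegree + 2 * (Ef z).natDegree :=
        natDegree_mul_le.trans (by rw [natDegree_pow])
      rw [natDegree_mul (mul_ne_zero (pow_ne_zero 2 hU0) h1.ne_zero) hW,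
        natDegree_mul (pow_ne_zero 2 hU0) h1.ne_zero, natDegree_pow, h2]
      omega
  obtain ⟨y, hy⟩ := exists_psi_neg (K := k)
  have hy0 : y ≠ 0 := by rintro rfl; rw [psi_zero] at hy; norm_num at hy
  have hlC := leadingCoeff_ne_zero.2 hC
  have hlW := leadingCoeff_ne_zero.2 hW
  obtain ⟨c, hc⟩ := exists_sqrt (y * W.leadingCoeff / (Cn.leadingCoeff * z0))
  have hc0 : c ≠ 0 := by
    rintro rfl
    have : y * W.leadingCoeff / (Cn.leadingCoeff * z0) ≠ 0 := by positivity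
    exact this (by rw [← hc]; simp)
  obtain ⟨m, hm⟩ : ∃ m : ℕ, (m : ℤ) = U.natDegree - A - i := ⟨_, Int.toNat_of_nonneg (by omega)⟩
  have hv0 : (C c * X ^ m : k[X]) ≠ 0 := mul_ne_zero (C_ne_zero.2 hc0) (pow_ne_zero _ X_ne_zero)
  have hvd : (C c * X ^ m : k[X]).natDegree = m := natDegree_C_mul_X_pow _ _ hc0
  have hv : (C c * X ^ m : k[X]) ∈ low k L := mem_low_of_natDegree_lt (by omega)
  obtain ⟨e1, e2⟩ := hE _ hv hv0
  rw [leadingCoeff_C_mul_X_pow] at e2
  have hEv : Ef (C c * X ^ m) ≠ 0 := by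
    rw [← leadingCoeff_ne_zero, e2]; positivity
  have hd1 : (U ^ 2 * W).natDegree = 2 * U.natDegree + W.natDegree := by
    rw [natDegree_mul (pow_ne_zero 2 hU0) hW, natDegree_pow]
  have hd2 : (Cn * Ef (C c * X ^ m)).natDegree + 1 = (U ^ 2 * W).natDegree := by
    rw [natDegree_mul hC hEv, e1, hvd, hd1]; omega
  have hneg : psi (res (U ^ 2 * W) (Cn * Ef (C c * X ^ m))) = -1 := by
    rw [res_of_lt (degree_lt_degree (by omega)), ← hd2, Nat.add_sub_cancel, coeff_natDegree,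
      leadingCoeff_mul, e2, leadingCoeff_mul, leadingCoeff_pow, hU.leadingCoeff, hc, ← hy]
    congr 1
    field_simp
  have hz : ∑ z ∈ low k L, psi (res (U ^ 2 * W) (Cn * Ef z)) = 0 :=
    sum_char_zero (v := C c * X ^ m) _ (fun g hg => add_mem_low hg hv) fun g _ => by
      rw [hadd, mul_add, res_add, psi_add, hneg]; ring
  simp only [one_mul]
  rw [sum_congr rfl key, ← mul_sum, hz, mul_zero, abs_zero]
  have := qq_pos (k := k)
  positivity

end Pool.Agent.P.MP_8be758_nt.L2
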