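import Pool.Agent.P.MP_8be758_nt.L2.TWY0

/-! Step WYS. -/

namespace Pool.Agent.P.MP_8be758_nt.L2

open Polynomial Finset Filter
open Pool.Agent.P.MP_8be758_nt.C2
open scoped Classical Topology

theorem WYS_ok {s t L d : ℕ} {j S0 : ℤ} (h : Ok (s + 1) t L j S0) (h1 : L - t ≤ d)
    (h2 : d < L) : Ok s t (L - t) (2 * j - 2 * d) S0 := by
  obtain ⟨o1, o2, o3, o4, o5, o6⟩ := h
  have ht : t ≤ L := by nlinarith
  have e : ((L - t : ℕ) : ℤ) = L - t := by omega
  have hp : (1 : ℤ) ≤ 2 ^ s := one_le_pow₀ (by norm_num)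
  have hst : (0 : ℤ) ≤ s * t := by positivity
  have h1' : (L : ℤ) - t ≤ d := by omega
  have h2' : (d : ℤ) ≤ L := by omega
  have ht0 : (0 : ℤ) ≤ t := by positivity
  rw [pow_succ] at o4 o5
  push_cast at o5
  refine ⟨?_, by omega, by omega, ?_, ?_, o6⟩
  · have : (s + 1) * t = s * t + t := by ring
    omega
  · rw [e]; generalize (2 : ℤ) ^ s = p at *
    nlinarith [mul_nonneg (sub_nonneg.2 hp) ht0, mul_le_mul_of_nonneg_left h2' (by omega : 0 ≤ p)]
  · rw [e]; generalize (2 : ℤ) ^ s = p at *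
    nlinarith [mul_nonneg (by omega : 0 ≤ p) hst, mul_le_mul_of_nonneg_left h1' (by omega : 0 ≤ p)]

theorem WYS_diff {k : Type} [Field k] [Finite k] [CharP k 2] {U H W Cn : k[X]} (hU : U ≠ 0)
    (hUH : U + H ≠ 0) :
    psi (res (U * W) Cn) * psi (res ((U + H) * W) Cn) =
      psi (res ((U ^ 2 + H * U) * W) (Cn * H)) := by
  have h2 : (2 : k[X]) = 0 := CharTwo.two_eq_zero
  rw [← psi_add, ← res_mul_mul (U * W) Cn hUH, ← res_mul_mul ((U + H) * W) Cn hU,
    show U * W * (U + H) = (U ^ 2 + H * U) * W by ring,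
    show (U + H) * W * U = (U ^ 2 + H * U) * W by ring, ← res_add]
  congr 2
  linear_combination (Cn * U) * h2

theorem p_WYS :
    S_WYS := by
  intro k _ _ _ s t η χ hη hηt hχ IH U Cn W Ef z0 A L hU hC hW hz0 hadd hE hOk
  have hq := qq_pos (k := k)
  have h2 : (2 : k[X]) = 0 := CharTwo.two_eq_zero
  have o2 := hOk.2.1
  have ht : t ≤ L := by have := hOk.1; nlinarith
  set F : k[X] → ℝ := fun z => psi (res ((U + Ef z) * W) Cn) with hF
  have hFa : ∀ z, |F z| = 1 := fun z => abs_psi _
  have hχa : ∀ z, |χ z| = 1 := fun z => by rcases hχ.2 z with h | h <;> simp [h]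
  have hχ2 : ∀ z, χ z * χ z = 1 := fun z => by rcases hχ.2 z with h | h <;> simp [h]
  have sq : (∑ z ∈ low k L, χ z * F z) ^ 2 =
      ∑ h ∈ low k L, χ h * ∑ z ∈ low k L, F z * F (z + h) := by
    simp only [mul_sum]
    rw [sum_comm, sq, sum_mul]
    refine sum_congr rfl fun z hz => ?_
    rw [← sum_shift (low k L) z (fun g hg => add_mem_low hg hz) (fun z => χ z * F z), mul_sum]
    refine sum_congr rfl fun h _ => ?_
    rw [hχ.1, add_comm h z]
    linear_combination (χ h * F z * F (z + h)) * hχ2 z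
  have triv : ∀ h, |∑ z ∈ low k L, F z * F (z + h)| ≤ qq k ^ L := by
    intro h
    refine (abs_sum_le_sum_abs _ _).trans ?_
    simp [abs_mul, hFa, card_low']
  have good : ∀ h ∈ low k L, h ∉ low k (L - t) →
      |∑ z ∈ low k L, F z * F (z + h)| ≤ 2 * η ^ 2 * qq k ^ L := by
    intro h hh hn
    have h0 : h ≠ 0 := by rintro rfl; exact hn (zero_mem_low _)
    have hd1 : L - t ≤ h.natDegree := by
      by_contra hc; exact hn (mem_low_of_natDegree_lt (by omega))
    have hd2 := natDegree_lt_of_mem_low hh h0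
    obtain ⟨eH1, eH2⟩ := hE h hh h0
    have hlh := leadingCoeff_ne_zero.2 h0
    have hH : Ef h ≠ 0 := by rw [← leadingCoeff_ne_zero, eH2]; positivity
    have inner : ∀ z1 ∈ low k L,
        |∑ z ∈ low k (L - t), F (z1 + z) * F (z1 + z + h)| ≤ 2 * η ^ 2 * qq k ^ (L - t) := by
      intro z1 hz1
      obtain ⟨m1, d1⟩ := WY0_deg hU hadd hE o2 hz1
      have hlt : (Ef h * (U + Ef z1)).natDegree < ((U + Ef z1) ^ 2).natDegree := by
        rw [natDegree_mul hH m1.ne_zero, natDegree_pow, d1, eH1]; omega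
      have hm : ((U + Ef z1) ^ 2 + Ef h * (U + Ef z1)).Monic :=
        (m1.pow 2).add_of_left (degree_lt_degree hlt)
      have hdg : ((U + Ef z1) ^ 2 + Ef h * (U + Ef z1)).natDegree = 2 * U.natDegree := by
        rw [natDegree_add_eq_left_of_natDegree_lt hlt, natDegree_pow, d1]
      have := IH ((U + Ef z1) ^ 2 + Ef h * (U + Ef z1)) (Cn * Ef h) W
        (fun z => Ef z ^ 2 + Ef h * Ef z) ((Ef h).leadingCoeff * z0) (2 * A + 2 * h.natDegree)
        (L - t) hm (mul_ne_zero hC hH) hW (mul_ne_zero (leadingCoeff_ne_zero.2 hH) hz0)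
        (fun x y => by
          simp only [hadd]
          linear_combination (Ef x * Ef y) * h2)
        (fun z hz hz0' => by
          have h3 := natDegree_lt_of_mem_low hz hz0'
          obtain ⟨e1, e2⟩ := hE z (low_mono (Nat.sub_le _ _) hz) hz0'
          have hlz := leadingCoeff_ne_zero.2 hz0'
          have hEz : Ef z ≠ 0 := by rw [← leadingCoeff_ne_zero, e2]; positivity
          have h4 : (Ef z ^ 2).natDegree < (Ef h * Ef z).natDegree := by
            rw [natDegree_mul hH hEz, natDegree_pow, e1, eH1]; omega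
          refine ⟨?_, ?_⟩
          · rw [natDegree_add_eq_right_of_natDegree_lt h4, natDegree_mul hH hEz, e1, eH1]; ring
          · rw [leadingCoeff_add_of_degree_lt (degree_lt_degree h4), leadingCoeff_mul, e2]; ring)
        (by
          have := WYS_ok hOk hd1 hd2
          rw [hdg, natDegree_mul hC hH, eH1]
          convert this using 1 <;> push_cast <;> ring)
      refine le_of_eq_of_le ?_ this
      congr 1
      refine sum_congr rfl fun z hz => ?_
      have hz' : z1 + z ∈ low k L := add_mem_low hz1 (low_mono (Nat.sub_le _ _) hz)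
      have n1 := (WY0_deg hU hadd hE o2 hz').1.ne_zero
      have n2 := (WY0_deg hU hadd hE o2 (add_mem_low hz' hh)).1.ne_zero
      simp only [hF]
      rw [hadd (z1 + z) h, ← add_assoc] at n2 ⊢
      rw [WYS_diff n1 n2, one_mul, hadd]
      congr 3
      linear_combination ((U + Ef z1) * Ef z) * h2
    have av := sum_avg (low k L) (low k (L - t)) (fun z => z)
      (fun z hz g hg => add_mem_low hg (low_mono (Nat.sub_le _ _) hz))
      (fun z => F z * F (z + h))
    rw [card_low'] at av
    have hp : 0 < qq k ^ (L - t) := by positivity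
    refine le_of_mul_le_mul_left ?_ hp
    rw [← abs_of_pos hp, ← abs_mul, av, abs_of_pos hp]
    refine (abs_sum_le_sum_abs _ _).trans ((sum_le_sum inner).trans (le_of_eq ?_))
    rw [sum_const, nsmul_eq_mul, card_low']; ring
  have tot : (∑ z ∈ low k L, χ z * F z) ^ 2 ≤ (2 * η * qq k ^ L) ^ 2 := by
    rw [sq]
    have b1 : ∀ h ∈ low k L, χ h * ∑ z ∈ low k L, F z * F (z + h) ≤
        (if h ∈ low k (L - t) then qq k ^ L else 0) + 2 * η ^ 2 * qq k ^ L := by
      intro h hh
      refine (le_abs_self _).trans ?_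
      rw [abs_mul, hχa, one_mul]
      split_ifs with hc
      · have := triv h
        have : 0 ≤ 2 * η ^ 2 * qq k ^ L := by positivity
        linarith
      · rw [zero_add]; exact good h hh hc
    refine (sum_le_sum b1).trans ?_
    rw [sum_add_distrib, sum_ite_mem, inter_eq_right.2 (low_mono (Nat.sub_le _ _)), sum_const,
      sum_const, nsmul_eq_mul, nsmul_eq_mul, card_low', card_low']
    have e : qq k ^ L = qq k ^ (L - t) * qq k ^ t := by rw [← pow_add]; congr 1; omega
    have h3 : qq k ^ (L - t) ≤ η ^ 2 * qq k ^ L := by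
      rw [e]
      have := two_pow_le_qq (k := k) t
      have h4 : 1 ≤ η ^ 2 * qq k ^ t := hηt.trans (by gcongr)
      have h5 : 0 < qq k ^ (L - t) := by positivity
      nlinarith
    have h6 : 0 < qq k ^ L := by positivity
    nlinarith [mul_le_mul_of_nonneg_right h3 h6.le, sq_nonneg (η * qq k ^ L)]
  exact abs_le_of_sq_le_sq tot (by positivity)

end Pool.Agent.P.MP_8be758_nt.L2
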