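import Pool.Agent.P.MP_8be758_nt.L2.If

/-! Step XAB. -/

namespace Pool.Agent.P.MP_8be758_nt.L2

open Polynomial Finset Filter
open Pool.Agent.P.MP_8be758_nt.C2
open scoped Classical Topology

theorem p_XAB (hBASE : S_BASE) (hREC : S_REC) (hSEQ : S_SEQ) :
    S_XAB := by
  intro k _ _ s D hs
  have q2 := two_le_qq (k := k)
  have q0 := qq_pos (k := k)
  have r1 : 1 ≤ √(qq k) := Real.one_le_sqrt.2 one_le_qq
  have r2 : √(qq k) ≤ qq k := by nlinarith [Real.sq_sqrt q0.le]
  have i0 : 0 < 1 / qq k := by positivity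
  have i1 : 1 / qq k ≤ 1 := (div_le_one q0).2 one_le_qq
  refine ⟨?_, ?_, ?_⟩
  · have h1 : xs 1 (∅ : Finset k[X]) D ≤ 1 := by
      rw [(hBASE k D).2]; split_ifs <;> linarith
    rw [xs, div_le_one (by positivity)] at h1
    simp only [one_pow, sum_const, nsmul_eq_mul, mul_one] at h1
    refine le_trans (Nat.cast_le.2 (card_le_card fun S hS => ?_)) h1
    rw [Sc, mem_filter] at hS ⊢
    exact ⟨hS.1, hS.2.1, disjoint_empty_right _⟩
  · have := hSEQ k 1 (1 - 1 / qq k) 1 (xs 1) (Or.inl rfl) (abs_le.2 ⟨by linarith, by linarith⟩)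
      (hREC k 1) (fun D => by
        rw [(hBASE k D).2]
        split_ifs with h
        · rw [sub_sub_cancel, abs_of_pos i0]
          refine one_div_le_one_div_of_le (by positivity) ?_
          exact (pow_le_pow_right₀ r1 h).trans (by rwa [pow_one])
        · rw [sub_self, abs_zero]; positivity) s hs D
    rwa [one_mul] at this
  · have := hSEQ k (-1) 0 (qq k) (xs (-1)) (Or.inr rfl) (by rw [abs_zero]; exact q0.le)
      (hREC k (-1)) (fun D => by
        rw [(hBASE k D).1, sub_zero]
        split_ifs with h h'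
        · rw [h, pow_zero, div_one, abs_one]; exact one_le_qq
        · rw [h', pow_one, abs_neg, abs_one]; exact (one_le_div (by positivity)).2 r2
        · rw [abs_zero]; positivity) s hs D
    rwa [zero_mul, sub_zero] at this

end Pool.Agent.P.MP_8be758_nt.L2
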