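import Pool.Agent.P.MP_8be758_nt.L2.If

/-! Step XC. -/

namespace Pool.Agent.P.MP_8be758_nt.L2

open Polynomial Finset Filter
open Pool.Agent.P.MP_8be758_nt.C2
open scoped Classical Topology

theorem XC_shift (g : ℕ → ℝ) (d Y : ℕ) :
    ∑ D ∈ range (Y + 1), (if d ≤ D then g D else 0) =
      if d ≤ Y then ∑ D ∈ range (Y - d + 1), g (d + D) else 0 := by
  rw [← sum_filter, show (range (Y + 1)).filter (d ≤ ·) = Ico d (Y + 1) by
    ext x; simp [and_comm], sum_Ico_eq_sum_range]
  split_ifs with h
  · rw [Nat.sub_add_comm h]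
  · rw [Nat.sub_eq_zero_of_le (by omega), sum_range_zero]

theorem p_XC (hBASE : S_BASE) (hREC : S_REC) (hSEQ : S_SEQ) :
    S_XC := by
  intro k _ _ s Y m hs hY
  have j0 : (0 : ℝ) ≤ m - Y := sub_nonneg.2 (Nat.cast_le.2 hY)
  have r0 : 0 < √(qq k) := Real.sqrt_pos.2 qq_pos
  have := hSEQ k (-1) 1 (m - Y + 1)
    (fun s N => ∑ D ∈ range (N + 1), xs (-1) s D * ((m : ℝ) - Y + N - D)) (Or.inr rfl)
    (by rw [abs_one]; linarith) (fun s P N hP hn => ?_) (fun N => ?_) s hs Y
  · simpa only [sub_add_cancel, one_mul] using this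
  · simp only [hREC k (-1) s P _ hP hn, add_mul, sum_add_distrib, ite_mul, zero_mul]
    rw [XC_shift]
    congr 1
    split_ifs with h
    · rw [mul_sum]
      refine sum_congr rfl fun D _ => ?_
      rw [Nat.add_sub_cancel_left, Nat.cast_sub h, Nat.cast_add]
      ring
    · rfl
  · simp only [(hBASE k _).1]
    rcases N with _ | N
    · simp only [zero_add, range_one, sum_singleton, if_true, one_mul, Nat.cast_zero, add_zero,
        sub_zero, pow_zero, div_one]
      exact abs_le.2 ⟨by linarith, by linarith⟩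
    · rw [sum_range_succ', sum_range_succ', sum_eq_zero fun D _ => by simp]
      norm_num
      positivity

end Pool.Agent.P.MP_8be758_nt.L2
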