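import Pool.Agent.P.MP_8be758_nt.L2.If

/-! Step XP. -/

namespace Pool.Agent.P.MP_8be758_nt.L2

open Polynomial Finset Filter
open Pool.Agent.P.MP_8be758_nt.C2
open scoped Classical Topology

theorem XP_disj {k : Type} [Field k] [Finite k] {a f : k[X]} (ha : a ≠ 0) (hf : f ≠ 0)
    (h : IsCoprime a f) {S : Finset k[X]} (hS : S ⊆ pf f) : Disjoint S (pf a) := by
  rw [disjoint_left]
  intro P hP hPa
  have h1 := (mem_pf hf).1 (hS hP)
  have h2 := (mem_pf ha).1 hPa
  exact h1.1.2.not_isUnit (h.isUnit_of_dvd' h2.2 h1.2)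

theorem p_XP :
    S_XP := by
  intro k _ _ _ a c n E D lam φ ξ hH hlam
  have key : ∀ g : k[X], ξ g * (wt lam (pf (FF a c g)) *
      ∑ d ∈ (pf (FF a c g)).powerset.filter (fun d => dg d = D), φ d) =
      ∑ e ∈ (Sle k E).filter (fun e => Disjoint e (pf a)), ∑ d ∈ Sc (pf a) D,
        if pr (d ∪ e) ∣ FF a c g then lam e * (φ d * ξ g) else 0 := by
    intro g
    have hf := FF_ne_zero hH g
    have hc := coprime_FF hH.2.1 g
    have h1 : wt lam (pf (FF a c g)) = ∑ e ∈ (Sle k E).filter (fun e => Disjoint e (pf a)),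
        if e ⊆ pf (FF a c g) then lam e else 0 := by
      rw [← sum_filter, wt]
      symm
      refine sum_subset (fun e he => mem_powerset.2 (mem_filter.1 he).2) fun e he hn => ?_
      by_contra h0
      have hs := mem_powerset.1 he
      exact hn (mem_filter.2 ⟨mem_filter.2 ⟨hlam e h0, XP_disj hH.1 hf hc hs⟩, hs⟩)
    have h2 : ∑ d ∈ (pf (FF a c g)).powerset.filter (fun d => dg d = D), φ d =
        ∑ d ∈ Sc (pf a) D, if d ⊆ pf (FF a c g) then φ d else 0 := by
      rw [← sum_filter]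
      refine sum_congr ?_ fun _ _ => rfl
      ext d
      rw [mem_filter, mem_filter, mem_powerset, mem_Sc]
      exact ⟨fun h => ⟨⟨fun P hP => isPr_of_mem_pf (h.1 hP), h.2, XP_disj hH.1 hf hc h.1⟩, h.1⟩,
        fun h => ⟨h.2, h.1.2.1⟩⟩
    rw [h1, h2, sum_mul_sum, mul_sum]
    refine sum_congr rfl fun e he => ?_
    rw [mul_sum]
    refine sum_congr rfl fun d hd => ?_
    have hp : ∀ P ∈ d ∪ e, IsPr P := fun P hP => (mem_union.1 hP).elim
      ((mem_Sc.1 hd).1 P) ((mem_Sle.1 (mem_filter.1 he).1).1 P)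
    rw [← subset_pf_iff hf hp, union_subset_iff]
    by_cases u : e ⊆ pf (FF a c g) <;> by_cases v : d ⊆ pf (FF a c g) <;> simp [u, v]
    ring
  unfold NX
  rw [sum_congr rfl fun g _ => key g, sum_comm]
  refine sum_congr rfl fun e _ => ?_
  rw [sum_comm, mul_sum]
  refine sum_congr rfl fun d _ => ?_
  rw [cx, ← sum_filter, mul_sum, mul_sum]

end Pool.Agent.P.MP_8be758_nt.L2
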