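import Pool.Agent.P.MP_8be758_nt.L2.If

/-! Step ZB. -/

namespace Pool.Agent.P.MP_8be758_nt.L2

open Polynomial Finset Filter
open Pool.Agent.P.MP_8be758_nt.C2
open scoped Classical Topology

theorem ZB_sqrt (q : ℝ) (hq : 2 ≤ q) (m E D : ℕ) (h : 2 * (m + E) ≤ D) :
    q ^ m * 2 ^ E ≤ √q ^ D := by
  have h0 : (0 : ℝ) ≤ q := by linarith
  have h1 : (1 : ℝ) ≤ √q := by
    rw [Real.le_sqrt (by norm_num) h0]; linarith
  calc q ^ m * 2 ^ E ≤ q ^ m * q ^ E :=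
        mul_le_mul_of_nonneg_left (pow_le_pow_left₀ (by norm_num) hq E) (pow_nonneg h0 _)
    _ = √q ^ (2 * (m + E)) := by rw [pow_mul, Real.sq_sqrt h0, pow_add]
    _ ≤ √q ^ D := pow_le_pow_right₀ h1 h

theorem ZB_sq (q x : ℝ) (hq : 2 ≤ q) (n E D b t : ℕ) (h1 : 2 * D + b + 4 * E ≤ 2 * n)
    (h2 : 2 * D + 4 * b + 4 * E ≤ 2 * n + t)
    (hx : x ^ 2 ≤ q ^ D * (q ^ (D + b) + q ^ (D + 4 * b) / q ^ t)) :
    x ≤ 2 * q ^ n / q ^ (2 * E) := by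
  have h0 : (0 : ℝ) < q := by linarith
  have hq1 : (1 : ℝ) ≤ q := by linarith
  have e : (q ^ n / q ^ (2 * E)) ^ 2 = q ^ (2 * n) / q ^ (4 * E) := by
    rw [div_pow, ← pow_mul, ← pow_mul]; congr 2 <;> ring
  have a1 : q ^ D * q ^ (D + b) ≤ q ^ (2 * n) / q ^ (4 * E) := by
    rw [le_div_iff₀ (by positivity), ← pow_add, ← pow_add]
    exact pow_le_pow_right₀ hq1 (by omega)
  have a2 : q ^ D * (q ^ (D + 4 * b) / q ^ t) ≤ q ^ (2 * n) / q ^ (4 * E) := by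
    rw [← mul_div_assoc, div_le_div_iff₀ (by positivity) (by positivity), ← pow_add, ← pow_add,
      ← pow_add]
    exact pow_le_pow_right₀ hq1 (by omega)
  have hy : (0 : ℝ) ≤ q ^ n / q ^ (2 * E) := by positivity
  rw [mul_div_assoc]
  refine le_trans (le_abs_self x) (abs_le_of_sq_le_sq' ?_ (by positivity)).2 |>.trans le_rfl
  rw [sq_abs, mul_pow, e]
  have : (0 : ℝ) ≤ q ^ (2 * n) / q ^ (4 * E) := by positivity
  rw [mul_add] at hx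
  nlinarith

theorem ZB_fin (q : ℝ) (hq : 2 ≤ q) (n E m p : ℕ) (cI s1 s2 Pp : ℝ) (_hc0 : 0 ≤ cI)
    (hc : cI ≤ q ^ (m + 1)) (h10 : 0 ≤ s1) (h1 : s1 ≤ Pp) (h2 : s2 ≤ q ^ E * Pp)
    (hP : Pp ≤ 3 ^ 248 * ((n : ℝ) + 1) ^ 248)
    (hN : (4 ^ (p + 1) * q ^ 2 + 2) * 3 ^ 248 * ((n : ℝ) + 1) ^ 249 ≤ 1 * 2 ^ (E / 2)) :
    q ^ n * (4 ^ (p + 1) * cI * (q / (q ^ m * 2 ^ E))) * s1 +
      (n : ℝ) * (2 * q ^ n / q ^ (2 * E)) * s2 ≤ q ^ n / 2 ^ (E / 4) := by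
  have h0 : (0 : ℝ) < q := by linarith
  have hP0 : 0 ≤ Pp := h10.trans h1
  have hn : (0 : ℝ) ≤ n := Nat.cast_nonneg n
  have hE : (2 : ℝ) ^ E ≤ q ^ E := pow_le_pow_left₀ (by norm_num) hq E
  have b1 : q ^ n * (4 ^ (p + 1) * cI * (q / (q ^ m * 2 ^ E))) * s1 ≤
      q ^ n / 2 ^ E * (4 ^ (p + 1) * q ^ 2 * (((n : ℝ) + 1) * Pp)) := by
    calc q ^ n * (4 ^ (p + 1) * cI * (q / (q ^ m * 2 ^ E))) * s1
        ≤ q ^ n * (4 ^ (p + 1) * q ^ (m + 1) * (q / (q ^ m * 2 ^ E))) * (((n : ℝ) + 1) * Pp) := by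
          have : s1 ≤ ((n : ℝ) + 1) * Pp := by nlinarith
          gcongr
      _ = _ := by field_simp; ring
  have b2 : (n : ℝ) * (2 * q ^ n / q ^ (2 * E)) * s2 ≤
      q ^ n / 2 ^ E * (2 * (((n : ℝ) + 1) * Pp)) := by
    calc (n : ℝ) * (2 * q ^ n / q ^ (2 * E)) * s2
        ≤ (n : ℝ) * (2 * q ^ n / q ^ (2 * E)) * (q ^ E * Pp) := by gcongr
      _ = q ^ n / q ^ E * (2 * ((n : ℝ) * Pp)) := by
          rw [two_mul E, pow_add]; field_simp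
      _ ≤ q ^ n / 2 ^ E * (2 * (((n : ℝ) + 1) * Pp)) := by
          gcongr; linarith
  have b3 : (4 ^ (p + 1) * q ^ 2 + 2) * (((n : ℝ) + 1) * Pp) ≤ 2 ^ (E / 2) := by
    calc (4 ^ (p + 1) * q ^ 2 + 2) * (((n : ℝ) + 1) * Pp)
        ≤ (4 ^ (p + 1) * q ^ 2 + 2) * (((n : ℝ) + 1) * (3 ^ 248 * ((n : ℝ) + 1) ^ 248)) := by
          gcongr
      _ = (4 ^ (p + 1) * q ^ 2 + 2) * 3 ^ 248 * ((n : ℝ) + 1) ^ 249 := by
          rw [pow_succ ((n : ℝ) + 1) 248]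
          generalize ((n : ℝ) + 1) ^ 248 = u
          generalize (3 : ℝ) ^ 248 = v
          ring
      _ ≤ _ := by rwa [one_mul] at hN
  have b4 : q ^ n / 2 ^ E * 2 ^ (E / 2) ≤ q ^ n / 2 ^ (E / 4) := by
    rw [div_mul_eq_mul_div, div_le_div_iff₀ (by positivity) (by positivity), mul_assoc, ← pow_add]
    exact mul_le_mul_of_nonneg_left (pow_le_pow_right₀ (by norm_num) (by omega)) (by positivity)
  have b5 : q ^ n / 2 ^ E * ((4 ^ (p + 1) * q ^ 2 + 2) * (((n : ℝ) + 1) * Pp)) ≤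
      q ^ n / 2 ^ E * 2 ^ (E / 2) := mul_le_mul_of_nonneg_left b3 (by positivity)
  calc _ ≤ _ := add_le_add b1 b2
    _ = q ^ n / 2 ^ E * ((4 ^ (p + 1) * q ^ 2 + 2) * (((n : ℝ) + 1) * Pp)) := by ring
    _ ≤ _ := b5.trans b4

theorem p_ZB (hZB1 : S_ZB1) (hXAB : S_XAB) (hLAM : S_LAM) (hT2B : S_T2B) :
    S_ZB := by
  intro k _ _ _ a c κ hH hκ
  obtain ⟨n1, h1⟩ := hT2B k a c hH
  obtain ⟨n2, h2⟩ := NEG 249 (κ * 2) ((4 ^ ((pf a).card + 1) * qq k ^ 2 + 2) * 3 ^ 248) 1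
    (by omega) one_pos
  refine ⟨n1 + n2 + κ * a.natDegree + 100, fun n hn C1 lam D hW hD1 hD2 => ?_⟩
  have hq := two_le_qq (k := k)
  have hq0 := qq_pos (k := k)
  have hE1 : 1000 * (n / κ) ≤ n :=
    le_trans (Nat.mul_le_mul_right _ hκ) (Nat.mul_div_le n κ)
  have hE2 : a.natDegree ≤ n / κ :=
    (Nat.le_div_iff_mul_le (by omega)).2 (by rw [mul_comm]; omega)
  have hN := h2 n (by omega)
  rw [← Nat.div_div_eq_div_mul] at hN
  have hn1 : n1 ≤ n := by omega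
  have hn2 : 100 ≤ n := by omega
  have hEn : n / κ ≤ n := Nat.div_le_self _ _
  generalize n / κ = E at *
  obtain ⟨-, hw1, hw2, -⟩ := hW
  obtain ⟨l1, l2⟩ := hLAM k E lam hw2
  refine (hZB1 k a c n E D lam (qq k / (qq k ^ (n / 100) * 2 ^ E))
    (2 * qq k ^ n / qq k ^ (2 * E)) hH hw1 hE2 (by omega) (by positivity) (by positivity)
    ?_ ?_).trans ?_
  · intro s D' hs hD'
    refine (hXAB k s D' hs).2.2.trans ?_
    rw [mul_comm (qq k), mul_div_assoc]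
    refine mul_le_mul_of_nonneg_left ?_ (by positivity)
    exact div_le_div_of_nonneg_left hq0.le (by positivity)
      (ZB_sqrt _ hq _ _ _ (by omega))
  · intro b D' hb1 hb2 hb3
    exact ZB_sq _ _ hq n E D' b (n / 20) (by omega) (by omega)
      (h1 n hn1 D' b (by omega) (by omega) (by omega))
  · refine ZB_fin _ hq n E (n / 100) _ _ _ _ _ (Nat.cast_nonneg _) (card_II_le n E)
      (sum_nonneg fun e _ => by positivity) l1 l2 ?_ hN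
    rw [← mul_pow]
    refine pow_le_pow_left₀ (by positivity) ?_ _
    have : (E : ℝ) ≤ n := by exact_mod_cast hEn
    linarith

end Pool.Agent.P.MP_8be758_nt.L2
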