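import Pool.Agent.P.MP_8be758_nt.L2.TBADK
import Pool.Agent.P.MP_8be758_nt.L2.TBASE
import Pool.Agent.P.MP_8be758_nt.L2.TBIJ
import Pool.Agent.P.MP_8be758_nt.L2.TCOS
import Pool.Agent.P.MP_8be758_nt.L2.TCPL
import Pool.Agent.P.MP_8be758_nt.L2.TDEC
import Pool.Agent.P.MP_8be758_nt.L2.TFIN
import Pool.Agent.P.MP_8be758_nt.L2.TGAUSS
import Pool.Agent.P.MP_8be758_nt.L2.TGLB
import Pool.Agent.P.MP_8be758_nt.L2.TID
import Pool.Agent.P.MP_8be758_nt.L2.TK4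
import Pool.Agent.P.MP_8be758_nt.L2.TKLB
import Pool.Agent.P.MP_8be758_nt.L2.TLAM
import Pool.Agent.P.MP_8be758_nt.L2.TLLB
import Pool.Agent.P.MP_8be758_nt.L2.TMID
import Pool.Agent.P.MP_8be758_nt.L2.TN3
import Pool.Agent.P.MP_8be758_nt.L2.TNR
import Pool.Agent.P.MP_8be758_nt.L2.TNR1
import Pool.Agent.P.MP_8be758_nt.L2.TORTH
import Pool.Agent.P.MP_8be758_nt.L2.TPARM
import Pool.Agent.P.MP_8be758_nt.L2.TPH
import Pool.Agent.P.MP_8be758_nt.L2.TPOLY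
import Pool.Agent.P.MP_8be758_nt.L2.TREC
import Pool.Agent.P.MP_8be758_nt.L2.TRF
import Pool.Agent.P.MP_8be758_nt.L2.TROOT
import Pool.Agent.P.MP_8be758_nt.L2.TSEL
import Pool.Agent.P.MP_8be758_nt.L2.TSEL0
import Pool.Agent.P.MP_8be758_nt.L2.TSEQ
import Pool.Agent.P.MP_8be758_nt.L2.TSPL
import Pool.Agent.P.MP_8be758_nt.L2.TSQ2
import Pool.Agent.P.MP_8be758_nt.L2.TSQF
import Pool.Agent.P.MP_8be758_nt.L2.TT1
import Pool.Agent.P.MP_8be758_nt.L2.TT1A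
import Pool.Agent.P.MP_8be758_nt.L2.TT2B
import Pool.Agent.P.MP_8be758_nt.L2.TT3
import Pool.Agent.P.MP_8be758_nt.L2.TT3S
import Pool.Agent.P.MP_8be758_nt.L2.TTK
import Pool.Agent.P.MP_8be758_nt.L2.TTW
import Pool.Agent.P.MP_8be758_nt.L2.TTWU
import Pool.Agent.P.MP_8be758_nt.L2.TW1
import Pool.Agent.P.MP_8be758_nt.L2.TW2
import Pool.Agent.P.MP_8be758_nt.L2.TWB1
import Pool.Agent.P.MP_8be758_nt.L2.TWS1
import Pool.Agent.P.MP_8be758_nt.L2.TWSB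
import Pool.Agent.P.MP_8be758_nt.L2.TWY
import Pool.Agent.P.MP_8be758_nt.L2.TWY0
import Pool.Agent.P.MP_8be758_nt.L2.TWYS
import Pool.Agent.P.MP_8be758_nt.L2.TXAB
import Pool.Agent.P.MP_8be758_nt.L2.TXC
import Pool.Agent.P.MP_8be758_nt.L2.TXP
import Pool.Agent.P.MP_8be758_nt.L2.TZB
import Pool.Agent.P.MP_8be758_nt.L2.TZB1
import Pool.Agent.P.MP_8be758_nt.C2.TFORM
import Pool.Agent.P.MP_8be758_nt.C2.TPF
import Pool.Agent.P.MP_8be758_nt.C2.TINFY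

/-! The steps put together. -/

namespace Pool.Agent.P.MP_8be758_nt.L2

theorem t_GAUSS : S_GAUSS := p_GAUSS

theorem t_BIJ : S_BIJ := p_BIJ

theorem t_BASE : S_BASE := p_BASE t_BIJ

theorem t_REC : S_REC := p_REC

theorem t_SEQ : S_SEQ := p_SEQ

theorem t_XAB : S_XAB := p_XAB t_BASE t_REC t_SEQ

theorem t_XC : S_XC := p_XC t_BASE t_REC t_SEQ

theorem t_POLY : S_POLY := p_POLY t_GAUSS

theorem t_LAM : S_LAM := p_LAM t_POLY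

theorem t_SPL : S_SPL := p_SPL

theorem t_XP : S_XP := p_XP

theorem t_ROOT : S_ROOT := p_ROOT

theorem t_ORTH : S_ORTH := p_ORTH

theorem t_RF : S_RF := p_RF t_ROOT t_ORTH

theorem t_SEL0 : S_SEL0 := p_SEL0

theorem t_GLB : S_GLB := p_GLB t_BASE t_REC

theorem t_SEL : S_SEL := p_SEL t_SEL0 t_GLB

theorem t_SQF : S_SQF := p_SQF

theorem t_ID : S_ID := p_ID t_SQF

theorem t_T1A : S_T1A := p_T1A t_XP t_RF t_SPL t_XC

theorem t_T1 : S_T1 := p_T1 t_T1A t_LAM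

theorem t_WY0 : S_WY0 := p_WY0

theorem t_WYS : S_WYS := p_WYS

theorem t_WY : S_WY := p_WY t_WY0 t_WYS

theorem t_DEC : S_DEC := p_DEC

theorem t_BADK : S_BADK := p_BADK

theorem t_PARM : S_PARM := p_PARM

theorem t_TWU : S_TWU := p_TWU t_WY t_DEC t_BADK t_PARM

theorem t_TW : S_TW := p_TW t_TWU t_ROOT

theorem t_CPL : S_CPL := p_CPL t_SQF

theorem t_T3 : S_T3 := p_T3 t_XP t_TW t_CPL t_SPL t_XAB t_LAM

theorem t_N3 : S_N3 := p_N3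

theorem t_K4 : S_K4 := p_K4 t_ORTH

theorem t_KLB : S_KLB := p_KLB t_K4 t_N3 t_GAUSS

theorem t_T3S : S_T3S := p_T3S

theorem t_COS : S_COS := p_COS t_ORTH

theorem t_SQ2 : S_SQ2 := p_SQ2

theorem t_PH : S_PH := p_PH t_SQ2

theorem t_WB1 : S_WB1 := p_WB1 t_PH t_COS t_SQ2 t_ROOT

theorem t_WS1 : S_WS1 := p_WS1 t_WB1 t_BIJ

theorem t_WSB : S_WSB := p_WSB t_WS1 t_KLB t_T3S

theorem t_W1 : S_W1 := p_W1 t_WSB t_RF

theorem t_W2 : S_W2 := p_W2 t_WSB t_RF t_ROOT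

theorem t_T2B : S_T2B := p_T2B t_W2 t_RF t_XAB t_GAUSS

theorem t_NR1 : S_NR1 := p_NR1 t_XP t_SPL

theorem t_NR : S_NR := p_NR t_NR1 t_XAB t_LAM t_W1

theorem t_TK : S_TK := p_TK t_NR

theorem t_ZB1 : S_ZB1 := p_ZB1 t_XP t_SPL

theorem t_ZB : S_ZB := p_ZB t_ZB1 t_XAB t_LAM t_T2B

theorem t_LLB : S_LLB := p_LLB t_GAUSS

theorem t_MID : S_MID := p_MID t_TK t_ZB t_LLB

theorem t_FIN : S_FIN := p_FIN t_ID t_SEL t_T1 t_T3 t_MID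

theorem t_FORM : C2.S_FORM := C2.p_FORM C2.p_PF C2.p_INFY

end Pool.Agent.P.MP_8be758_nt.L2
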