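import Pool.Agent.P.MP_8be758_nt.L2.Defs

/-! Basic facts for the project on prime values in characteristic two. -/

namespace Pool.Agent.P.MP_8be758_nt.L2

open Polynomial Finset
open Pool.Agent.P.MP_8be758_nt.C2
open scoped Classical

variable {k : Type} [Field k]

theorem IsPr.ne_zero {P : k[X]} (h : IsPr P) : P ≠ 0 := h.1.ne_zero

theorem IsPr.prime {P : k[X]} (h : IsPr P) : Prime P := h.2.prime

theorem IsPr.pos {P : k[X]} (h : IsPr P) : 1 ≤ P.natDegree :=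
  h.2.natDegree_pos

theorem IsPr.eq_of_dvd {P Q : k[X]} (hP : IsPr P) (hQ : IsPr Q) (h : P ∣ Q) : P = Q :=
  eq_of_monic_of_associated hP.1 hQ.1 (hP.2.associated_of_dvd hQ.2 h)

theorem IsPr.coprime {P Q : k[X]} (hP : IsPr P) (hQ : IsPr Q) (h : P ≠ Q) : IsCoprime P Q :=
  (hP.2.coprime_iff_not_dvd).2 fun hd => h (hP.eq_of_dvd hQ hd)

/-- every non-zero non-unit has a monic prime divisor -/
theorem exists_isPr_dvd {f : k[X]} (hf : ¬ IsUnit f) (h0 : f ≠ 0) : ∃ P, IsPr P ∧ P ∣ f := by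
  obtain ⟨P, h1, h2, h3⟩ := exists_monic_irreducible_factor f hf
  exact ⟨P, ⟨h1, h2⟩, h3⟩

theorem dg_empty : dg (∅ : Finset k[X]) = 0 := by simp [dg]

theorem dg_singleton (P : k[X]) : dg {P} = P.natDegree := by simp [dg]

theorem dg_insert {P : k[X]} {S : Finset k[X]} (h : P ∉ S) :
    dg (insert P S) = P.natDegree + dg S := by
  simp [dg, sum_insert h]

theorem dg_union {S T : Finset k[X]} (h : Disjoint S T) : dg (S ∪ T) = dg S + dg T := by
  simp [dg, sum_union h]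

theorem dg_mono {S T : Finset k[X]} (h : S ⊆ T) : dg S ≤ dg T :=
  sum_le_sum_of_subset h

theorem dg_sdiff {S T : Finset k[X]} (h : S ⊆ T) : dg (T \ S) + dg S = dg T :=
  sum_sdiff h

theorem dg_union_le (S T : Finset k[X]) : dg (S ∪ T) ≤ dg S + dg T := by
  have := sum_union_inter (s₁ := S) (s₂ := T) (f := fun P : k[X] => P.natDegree)
  unfold dg; omega

theorem natDegree_le_dg {P : k[X]} {S : Finset k[X]} (h : P ∈ S) : P.natDegree ≤ dg S :=
  single_le_sum (f := fun P : k[X] => P.natDegree) (fun _ _ => Nat.zero_le _) h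

theorem card_le_dg {S : Finset k[X]} (h : ∀ P ∈ S, IsPr P) : S.card ≤ dg S := by
  rw [card_eq_sum_ones]
  exact sum_le_sum fun P hP => (h P hP).pos

theorem sg_empty : sg (∅ : Finset k[X]) = 1 := by simp [sg]

theorem sg_insert {P : k[X]} {S : Finset k[X]} (h : P ∉ S) : sg (insert P S) = -sg S := by
  simp [sg, card_insert_of_notMem h, pow_succ]

theorem sg_union {S T : Finset k[X]} (h : Disjoint S T) : sg (S ∪ T) = sg S * sg T := by
  simp [sg, card_union_of_disjoint h, pow_add]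

theorem abs_sg (S : Finset k[X]) : |sg S| = 1 := by simp [sg]

theorem sg_mul_self (S : Finset k[X]) : sg S * sg S = 1 := by
  rw [sg, ← pow_add, ← two_mul, pow_mul]; simp

theorem sum_sg_powerset (e : Finset k[X]) :
    ∑ S ∈ e.powerset, sg S = if e = ∅ then 1 else 0 := by
  have := sum_powerset_neg_one_pow_card (x := e)
  unfold sg
  exact_mod_cast this

theorem pr_empty : pr (∅ : Finset k[X]) = 1 := by simp [pr]

theorem pr_insert {P : k[X]} {S : Finset k[X]} (h : P ∉ S) : pr (insert P S) = P * pr S := by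
  simp [pr, prod_insert h]

theorem pr_union {S T : Finset k[X]} (h : Disjoint S T) : pr (S ∪ T) = pr S * pr T := by
  simp [pr, prod_union h]

theorem monic_pr {S : Finset k[X]} (h : ∀ P ∈ S, IsPr P) : (pr S).Monic :=
  monic_prod_of_monic _ _ fun P hP => (h P hP).1

theorem natDegree_pr {S : Finset k[X]} (h : ∀ P ∈ S, IsPr P) : (pr S).natDegree = dg S :=
  natDegree_prod _ _ fun P hP => (h P hP).ne_zero

theorem pr_dvd_iff {S : Finset k[X]} (h : ∀ P ∈ S, IsPr P) (f : k[X]) :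
    pr S ∣ f ↔ ∀ P ∈ S, P ∣ f :=
  ⟨fun hd _ hP => (dvd_prod_of_mem _ hP).trans hd, fun hd =>
    prod_dvd_of_coprime (fun P hP Q hQ hne => (h P hP).coprime (h Q hQ) hne) hd⟩

theorem dvd_pr_iff {S : Finset k[X]} (h : ∀ P ∈ S, IsPr P) {P : k[X]} (hP : IsPr P) :
    P ∣ pr S ↔ P ∈ S := by
  refine ⟨fun hd => ?_, fun hm => dvd_prod_of_mem _ hm⟩
  obtain ⟨Q, hQ, hd⟩ := (hP.prime.dvd_finsetProd_iff _).1 hd
  rwa [hP.eq_of_dvd (h Q hQ) hd]

theorem pr_dvd_pr {S T : Finset k[X]} (hS : ∀ P ∈ S, IsPr P) (hT : ∀ P ∈ T, IsPr P) :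
    pr S ∣ pr T ↔ S ⊆ T := by
  rw [pr_dvd_iff hS]
  exact ⟨fun h P hP => (dvd_pr_iff hT (hS P hP)).1 (h P hP),
    fun h P hP => (dvd_pr_iff hT (hS P hP)).2 (h hP)⟩

theorem squarefree_pr {S : Finset k[X]} (h : ∀ P ∈ S, IsPr P) : Squarefree (pr S) :=
  Finset.squarefree_prod_of_pairwise_isCoprime
    (fun P hP Q hQ hne => ((h P hP).coprime (h Q hQ) hne).isRelPrime)
    (fun P hP => (h P hP).2.squarefree)

theorem eu_empty (ε : ℝ) : eu ε (∅ : Finset k[X]) = 1 := by simp [eu]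

theorem eu_union (ε : ℝ) {S T : Finset k[X]} (h : Disjoint S T) :
    eu ε (S ∪ T) = eu ε S * eu ε T := by
  simp [eu, prod_union h]

section fin

variable [Finite k]

theorem two_le_qq : (2 : ℝ) ≤ qq k := by
  unfold qq; exact_mod_cast two_le_card (k := k)

theorem one_le_qq : (1 : ℝ) ≤ qq k := by linarith [two_le_qq (k := k)]

theorem qq_pos : (0 : ℝ) < qq k := by linarith [two_le_qq (k := k)]

theorem card_low' (L : ℕ) : ((low k L).card : ℝ) = qq k ^ L := by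
  rw [card_low]; simp [qq]

theorem qq_pow_mono {m n : ℕ} (h : m ≤ n) : qq k ^ m ≤ qq k ^ n :=
  pow_le_pow_right₀ one_le_qq h

theorem two_pow_le_qq (n : ℕ) : (2 : ℝ) ^ n ≤ qq k ^ n :=
  pow_le_pow_left₀ (by norm_num) two_le_qq n

theorem eu_one_pos (s : Finset k[X]) : 0 < eu 1 s :=
  prod_pos fun P _ => by have := qq_pos (k := k); positivity

theorem eu_one_le (s : Finset k[X]) : eu 1 s ≤ 1 :=
  prod_le_one (fun P _ => by have := qq_pos (k := k); positivity) fun P _ => by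
    have := qq_pos (k := k)
    exact inv_le_one_of_one_le₀ (le_add_of_nonneg_right (by positivity))

theorem mem_Mo {n : ℕ} {g : k[X]} : g ∈ Mo k n ↔ g.Monic ∧ g.natDegree = n := by
  simp [Mo, mem_Gs]

theorem mem_Pr {N : ℕ} {P : k[X]} : P ∈ Pr k N ↔ IsPr P ∧ P.natDegree ≤ N := by
  rw [Pr, mem_filter]
  constructor
  · rintro ⟨h1, h2⟩
    exact ⟨h2, by have := natDegree_lt_of_mem_low h1 h2.ne_zero; omega⟩
  · rintro ⟨h1, h2⟩
    exact ⟨mem_low_of_natDegree_lt (by omega), h1⟩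

theorem mem_Pd {a : ℕ} {P : k[X]} : P ∈ Pd k a ↔ IsPr P ∧ P.natDegree = a := by
  rw [Pd, mem_filter, mem_Pr]
  exact ⟨fun h => ⟨h.1.1, h.2⟩, fun h => ⟨⟨h.1, h.2.le⟩, h.2⟩⟩

theorem mem_II {n E : ℕ} {P : k[X]} :
    P ∈ II k n E ↔ IsPr P ∧ 12 * E < P.natDegree ∧ P.natDegree ≤ n / 100 := by
  rw [II, mem_filter, mem_Pr]; tauto

theorem card_Pr_le (N : ℕ) : ((Pr k N).card : ℝ) ≤ qq k ^ (N + 1) := by
  rw [← card_low']
  exact_mod_cast card_le_card (filter_subset _ _)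

theorem card_II_le (n E : ℕ) : ((II k n E).card : ℝ) ≤ qq k ^ (n / 100 + 1) :=
  le_trans (by exact_mod_cast card_le_card (filter_subset _ _)) (card_Pr_le _)

theorem mem_Sle {D : ℕ} {S : Finset k[X]} : S ∈ Sle k D ↔ (∀ P ∈ S, IsPr P) ∧ dg S ≤ D := by
  rw [Sle, mem_filter, mem_powerset]
  exact ⟨fun h => ⟨fun P hP => (mem_Pr.1 (h.1 hP)).1, h.2⟩,
    fun h => ⟨fun P hP => mem_Pr.2 ⟨h.1 P hP, (natDegree_le_dg hP).trans h.2⟩, h.2⟩⟩

theorem mem_Sc {D : ℕ} {s S : Finset k[X]} :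
    S ∈ Sc s D ↔ (∀ P ∈ S, IsPr P) ∧ dg S = D ∧ Disjoint S s := by
  rw [Sc, mem_filter, mem_powerset]
  exact ⟨fun h => ⟨fun P hP => (mem_Pr.1 (h.1 hP)).1, h.2⟩,
    fun h => ⟨fun P hP => mem_Pr.2 ⟨h.1 P hP, (natDegree_le_dg hP).trans h.2.1.le⟩, h.2⟩⟩

theorem isPr_of_mem_pf {f P : k[X]} (h : P ∈ pf f) : IsPr P := (mem_Pr.1 (mem_filter.1 h).1).1

theorem mem_pf {f P : k[X]} (hf : f ≠ 0) : P ∈ pf f ↔ IsPr P ∧ P ∣ f := by
  rw [pf, mem_filter, mem_Pr]
  exact ⟨fun h => ⟨h.1.1, h.2⟩, fun h => ⟨⟨h.1, natDegree_le_of_dvd h.2 hf⟩, h.2⟩⟩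

theorem subset_pf_iff {f : k[X]} (hf : f ≠ 0) {S : Finset k[X]} (h : ∀ P ∈ S, IsPr P) :
    S ⊆ pf f ↔ pr S ∣ f := by
  rw [pr_dvd_iff h]
  exact ⟨fun hs P hP => ((mem_pf hf).1 (hs hP)).2, fun hs P hP => (mem_pf hf).2 ⟨h P hP, hs P hP⟩⟩

theorem pf_pr {S : Finset k[X]} (h : ∀ P ∈ S, IsPr P) : pf (pr S) = S := by
  ext P
  rw [mem_pf (monic_pr h).ne_zero]
  exact ⟨fun hP => (dvd_pr_iff h hP.1).1 hP.2, fun hP => ⟨h P hP, dvd_prod_of_mem _ hP⟩⟩

theorem dg_pf_le {f : k[X]} (hf : f ≠ 0) : dg (pf f) ≤ f.natDegree := by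
  have h : ∀ P ∈ pf f, IsPr P := fun P => isPr_of_mem_pf
  rw [← natDegree_pr h]
  exact natDegree_le_of_dvd ((subset_pf_iff hf h).1 subset_rfl) hf

theorem coprime_pr_iff {a : k[X]} (ha : a ≠ 0) {S : Finset k[X]} (h : ∀ P ∈ S, IsPr P) :
    IsCoprime (pr S) a ↔ Disjoint S (pf a) := by
  rw [pr, IsCoprime.prod_left_iff, disjoint_left]
  refine forall₂_congr fun P hP => ?_
  rw [(h P hP).2.coprime_iff_not_dvd, mem_pf ha]
  exact ⟨fun h1 h2 => h1 h2.2, fun h1 h2 => h1 ⟨h P hP, h2⟩⟩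

/-- the multiples of `M` of degree less than `L` -/
theorem card_low_dvd {M : k[X]} (hM : M ≠ 0) {L : ℕ} (h : M.natDegree ≤ L) :
    (((low k L).filter (fun x => M ∣ x)).card : ℝ) = qq k ^ (L - M.natDegree) := by
  rw [← card_low']
  congr 1
  symm
  refine card_bij (fun y _ => M * y) ?_ ?_ ?_
  · intro y hy
    exact mem_filter.2 ⟨mul_mem_low hy (by omega), dvd_mul_right _ _⟩
  · intro y _ y' _ e
    exact mul_left_cancel₀ hM e
  · intro x hx
    obtain ⟨h1, y, rfl⟩ := mem_filter.1 hx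
    refine ⟨y, ?_, rfl⟩
    by_cases hy : y = 0
    · simp [hy, zero_mem_low]
    · have := natDegree_lt_of_mem_low h1 (mul_ne_zero hM hy)
      rw [natDegree_mul hM hy] at this
      exact mem_low_of_natDegree_lt (by omega)

/-- the number of monic polynomials of degree `n` in a residue class -/
theorem card_Gs {M : k[X]} (hM : M ≠ 0) (r : k[X]) {n : ℕ} (h : M.natDegree ≤ n) :
    ((Gs M r n).card : ℝ) = qq k ^ n / qq k ^ M.natDegree := by
  have hq := qq_pos (k := k)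
  have h0 : (r - X ^ n) % M ∈ low k n := low_mono h (mod_mem_low hM _)
  have hd : M ∣ (r - X ^ n) % M - (r - X ^ n) := by
    rw [EuclideanDomain.mod_eq_sub_mul_div]
    exact ⟨-((r - X ^ n) / M), by ring⟩
  have hX : ∀ y ∈ low k n, (X ^ n + y : k[X]).Monic ∧ (X ^ n + y : k[X]).natDegree = n := by
    intro y hy
    have hl : y.degree < (X ^ n : k[X]).degree := by rw [degree_X_pow]; exact mem_low.1 hy
    exact ⟨(monic_X_pow n).add_of_left hl, by
      rw [natDegree_add_eq_left_of_degree_lt hl, natDegree_X_pow]⟩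
  rw [← pow_sub₀ _ hq.ne' h |>.trans (div_eq_mul_inv _ _).symm, ← card_low_dvd hM h]
  congr 1
  symm
  refine card_bij (fun y _ => X ^ n + ((r - X ^ n) % M + y)) ?_ ?_ ?_
  · intro y hy
    obtain ⟨h1, h2⟩ := mem_filter.1 hy
    obtain ⟨h3, h4⟩ := hX _ (add_mem_low h0 h1)
    refine mem_Gs.2 ⟨h3, h4, ?_⟩
    have := dvd_add hd h2
    convert this using 1; ring
  · intro y _ y' _ e
    simpa using e
  · intro g hg
    obtain ⟨h1, h2, h3⟩ := mem_Gs.1 hg
    have hl : g - X ^ n ∈ low k n := by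
      rw [mem_low]
      have := degree_sub_lt (p := g) (q := X ^ n)
        (by rw [degree_eq_natDegree h1.ne_zero, h2, degree_X_pow]) h1.ne_zero (by simp [h1])
      rwa [degree_eq_natDegree h1.ne_zero, h2] at this
    refine ⟨g - X ^ n - (r - X ^ n) % M, mem_filter.2 ⟨sub_mem_low hl h0, ?_⟩, by ring⟩
    have := dvd_sub h3 hd
    convert this using 1; ring

theorem card_Mo (n : ℕ) : ((Mo k n).card : ℝ) = qq k ^ n := by
  rw [Mo, card_Gs one_ne_zero _ (by simp)]; simp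

end fin

section two

variable [CharP k 2]

theorem FF_ne_zero {a c : k[X]} (h : Hyp a c) (g : k[X]) : FF a c g ≠ 0 := by
  intro h0
  apply h.2.2
  have h2 : (2 : k[X]) = 0 := CharTwo.two_eq_zero
  have e : a * c = (a * g) ^ 2 := by
    unfold FF at h0
    linear_combination a * h0 - (a * g) ^ 2 * h2
  rw [e, derivative_sq]
  simp [map_ofNat, h2]

omit [CharP k 2] in
theorem coprime_FF {a c : k[X]} (h : IsCoprime a c) (g : k[X]) : IsCoprime a (FF a c g) := by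
  unfold FF
  rw [add_comm]
  exact h.add_mul_left_right _

omit [CharP k 2] in
theorem natDegree_FF {a c g : k[X]} (ha : a ≠ 0) (hg : g.Monic)
    (h : c.natDegree < g.natDegree) : (FF a c g).natDegree = 2 * g.natDegree + a.natDegree := by
  have e : (a * g ^ 2).natDegree = 2 * g.natDegree + a.natDegree := by
    rw [natDegree_mul ha (pow_ne_zero _ hg.ne_zero), natDegree_pow]; ring
  rw [FF, natDegree_add_eq_left_of_natDegree_lt (by omega), e]

omit [CharP k 2] in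
/-- a sum of a non-trivial character over a finite group vanishes -/
theorem sum_char_zero (G : Finset k[X]) [CharP k 2] {f : k[X] → ℝ} {v : k[X]}
    (hG : ∀ g ∈ G, g + v ∈ G) (hf : ∀ g ∈ G, f (g + v) = -f g) : ∑ g ∈ G, f g = 0 := by
  have h := sum_shift G v hG f
  rw [sum_congr rfl hf, sum_neg_distrib] at h
  linarith

end two

/-- polynomial growth is negligible against exponential growth -/
theorem NEG (A κ : ℕ) (K ε : ℝ) (hκ : 1 ≤ κ) (hε : 0 < ε) :
    ∃ n0 : ℕ, ∀ n ≥ n0, K * ((n : ℝ) + 1) ^ A ≤ ε * 2 ^ (n / κ) := by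
  have ht := tendsto_pow_const_div_const_pow_of_one_lt A (show (1 : ℝ) < 2 by norm_num)
  have hK : 0 < (|K| + 1) * (3 * κ : ℝ) ^ A := by
    have : (0 : ℝ) < κ := by exact_mod_cast hκ
    positivity
  obtain ⟨m0, hm⟩ := Filter.eventually_atTop.1
    (ht.eventually (gt_mem_nhds (div_pos hε hK)))
  refine ⟨κ * (m0 + 1), fun n hn => ?_⟩
  have h1 : m0 + 1 ≤ n / κ := (Nat.le_div_iff_mul_le hκ).2 (by rw [mul_comm]; exact hn)
  have h2 := hm (n / κ) (by omega)
  have h3 : n + 1 ≤ 3 * κ * (n / κ) := by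
    have := Nat.div_add_mod n κ
    have := Nat.mod_lt n hκ
    nlinarith
  have h4 : ((n : ℝ) + 1) ^ A ≤ (3 * κ : ℝ) ^ A * ((n / κ : ℕ) : ℝ) ^ A := by
    rw [← mul_pow]
    exact pow_le_pow_left₀ (by positivity) (by exact_mod_cast h3) A
  rw [div_lt_div_iff₀ (by positivity) hK] at h2
  calc K * ((n : ℝ) + 1) ^ A ≤ (|K| + 1) * ((n : ℝ) + 1) ^ A := by
        gcongr; linarith [le_abs_self K]
    _ ≤ (|K| + 1) * ((3 * κ : ℝ) ^ A * ((n / κ : ℕ) : ℝ) ^ A) := by gcongr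
    _ ≤ _ := by nlinarith

end Pool.Agent.P.MP_8be758_nt.L2
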