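import Pool.Agent.P.MP_8be758_nt.C2.If

/-! Definitions for the project on prime values in characteristic two. -/

namespace Pool.Agent.P.MP_8be758_nt.L2

open Polynomial Finset
open Pool.Agent.P.MP_8be758_nt.C2
open scoped Classical

variable {k : Type} [Field k]

/-- the number of elements of the field, as a real number -/
noncomputable def qq (k : Type) : ℝ := (Nat.card k : ℝ)

/-- a monic irreducible polynomial -/
def IsPr (P : k[X]) : Prop := P.Monic ∧ Irreducible P

/-- the total degree of a set of polynomials -/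
noncomputable def dg (S : Finset k[X]) : ℕ := ∑ P ∈ S, P.natDegree

/-- the product of a set of polynomials -/
noncomputable def pr (S : Finset k[X]) : k[X] := ∏ P ∈ S, P

/-- the sign of a set -/
noncomputable def sg (S : Finset k[X]) : ℝ := (-1) ^ S.card

/-- the monic polynomials of degree `n` -/
noncomputable def Mo (k : Type) [Field k] [Finite k] (n : ℕ) : Finset k[X] := Gs 1 0 n

/-- the primes of degree at most `N` -/
noncomputable def Pr (k : Type) [Field k] [Finite k] (N : ℕ) : Finset k[X] :=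
  (low k (N + 1)).filter IsPr

/-- the primes of degree `a` -/
noncomputable def Pd (k : Type) [Field k] [Finite k] (a : ℕ) : Finset k[X] :=
  (Pr k a).filter (fun P => P.natDegree = a)

/-- the sets of primes of total degree at most `D` -/
noncomputable def Sle (k : Type) [Field k] [Finite k] (D : ℕ) : Finset (Finset k[X]) :=
  (Pr k D).powerset.filter (fun S => dg S ≤ D)

/-- the sets of primes of total degree `D` that avoid `s` -/
noncomputable def Sc [Finite k] (s : Finset k[X]) (D : ℕ) : Finset (Finset k[X]) :=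
  (Pr k D).powerset.filter (fun S => dg S = D ∧ Disjoint S s)

/-- the primes dividing `f` -/
noncomputable def pf [Finite k] (f : k[X]) : Finset k[X] :=
  (Pr k f.natDegree).filter (fun P => P ∣ f)

/-- the quadratic polynomial -/
noncomputable def FF (a c g : k[X]) : k[X] := a * g ^ 2 + c

/-- the hypotheses on the coefficients -/
def Hyp (a c : k[X]) : Prop := a ≠ 0 ∧ IsCoprime a c ∧ derivative (a * c) ≠ 0

/-- the normalised (signed) count of the sets of total degree `D` avoiding `s` -/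
noncomputable def xs [Finite k] (ε : ℝ) (s : Finset k[X]) (D : ℕ) : ℝ :=
  (∑ S ∈ Sc s D, ε ^ S.card) / qq k ^ D

/-- the Euler factor -/
noncomputable def eu (ε : ℝ) (s : Finset k[X]) : ℝ :=
  ∏ P ∈ s, (1 + ε / qq k ^ P.natDegree)⁻¹

/-- the sieve weight of a set -/
noncomputable def wt (lam : Finset k[X] → ℝ) (A : Finset k[X]) : ℝ := ∑ S ∈ A.powerset, lam S

/-- the density of dimension two -/
noncomputable def gp (pa : Finset k[X]) (P : k[X]) : ℝ :=
  if P ∈ pa then 0 else 2 / (qq k ^ P.natDegree + 1)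

/-- the mean value of the weight -/
noncomputable def GG [Finite k] (pa : Finset k[X]) (E : ℕ) (lam : Finset k[X] → ℝ) : ℝ :=
  ∑ S ∈ Sle k E, lam S * ∏ P ∈ S, gp pa P

/-- an admissible system of sieve weights of level `E` -/
def Wt [Finite k] (pa pv : Finset k[X]) (E : ℕ) (C1 : ℝ) (lam : Finset k[X] → ℝ) : Prop :=
  lam ∅ = 1 ∧ (∀ S, lam S ≠ 0 → S ∈ Sle k E) ∧ (∀ S, |lam S| ≤ 31 ^ S.card) ∧
    (∀ A, 0 ≤ wt lam A) ∧ (∀ A, ¬ Disjoint A pv → wt lam A = 0) ∧
    GG pa E lam ≤ C1 / (E : ℝ) ^ 2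

/-- the same for the coefficients `a`, `c` -/
def Wa [Finite k] (a c : k[X]) (E : ℕ) (C1 : ℝ) (lam : Finset k[X] → ℝ) : Prop :=
  Wt (pf a) (pf (derivative (a * c))) E C1 lam

/-- the sum of `ξ` over the monic `g` of degree `n` whose value is divisible by all of `S` -/
noncomputable def cx [Finite k] (a c : k[X]) (n : ℕ) (ξ : k[X] → ℝ) (S : Finset k[X]) : ℝ :=
  ∑ g ∈ (Mo k n).filter (fun g => pr S ∣ FF a c g), ξ g

/-- the remainder term -/
noncomputable def rr [Finite k] (a c : k[X]) (n : ℕ) (S : Finset k[X]) : ℝ :=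
  cx a c n (fun _ => 1) S - qq k ^ n / qq k ^ dg S

/-- the weighted sum over values and divisors of degree `D` -/
noncomputable def NX [Finite k] (a c : k[X]) (n : ℕ) (lam : Finset k[X] → ℝ) (ξ : k[X] → ℝ)
    (D : ℕ) (φ : Finset k[X] → ℝ) : ℝ :=
  ∑ g ∈ Mo k n, ξ g * (wt lam (pf (FF a c g)) *
    ∑ d ∈ (pf (FF a c g)).powerset.filter (fun d => dg d = D), φ d)

/-- the same without twist -/
noncomputable def NN [Finite k] (a c : k[X]) (n : ℕ) (lam : Finset k[X] → ℝ) (D : ℕ)
    (φ : Finset k[X] → ℝ) : ℝ := NX a c n lam (fun _ => 1) D φ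

/-- a root of the quadratic congruence modulo `M` -/
noncomputable def rt (a c M : k[X]) : k[X] := Classical.epsilon (fun x => M ∣ FF a c x)

/-- the Weyl sum of the roots -/
noncomputable def WS [Finite k] (a c h : k[X]) (S0 : Finset k[X]) (D : ℕ) : ℝ :=
  ∑ S ∈ (Sc (pf a) D).filter (fun S => S0 ⊆ S), psi (res (pr S) (h * rt a c (pr S)))

/-- the Kloosterman sum -/
noncomputable def Kl [Finite k] (m h l : k[X]) : ℝ :=
  ∑ x ∈ low k m.natDegree, ∑ y ∈ low k m.natDegree,
    if m ∣ x * y - 1 then psi (res m (h * y + l * x)) else 0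

/-- the number of pairs of monic polynomials whose product divides `m` -/
noncomputable def t3 [Finite k] (m : k[X]) : ℕ :=
  ((low k (m.natDegree + 1) ×ˢ low k (m.natDegree + 1)).filter
    (fun p => p.1.Monic ∧ p.2.Monic ∧ p.1 * p.2 ∣ m)).card

/-- the number of solutions of `y s (y + s) = 0` modulo `m` -/
noncomputable def n3 [Finite k] (m : k[X]) : ℕ :=
  ((low k m.natDegree ×ˢ low k m.natDegree).filter
    (fun p => m ∣ p.1 * p.2 * (p.1 + p.2))).card

/-- a character with values `1`, `-1` -/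
def IsCh (χ : k[X] → ℝ) : Prop :=
  (∀ x y, χ (x + y) = χ x * χ y) ∧ ∀ x, χ x = 1 ∨ χ x = -1

/-- the numerical conditions of the iterated differencing -/
def Ok (s t L : ℕ) (j S0 : ℤ) : Prop :=
  s * t + 1 ≤ L ∧ 2 * (L : ℤ) ≤ j + 1 ∧ 8 * (L : ℤ) ≤ S0 ∧
    S0 ≤ 2 * (2 ^ s * j - (2 * 2 ^ s - 2) * (L : ℤ)) ∧
    2 * (2 ^ s * j - (2 * 2 ^ s - 2) * ((L : ℤ) - s * t)) - S0 ≤ 2 * ((L : ℤ) - s * t - 1) ∧
    Even S0

/-- the bound of the iterated differencing with `s` steps -/
def WB (k : Type) [Field k] [Finite k] (s t : ℕ) (η : ℝ) (χ : k[X] → ℝ) : Prop :=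
  ∀ (U Cn W : k[X]) (Ef : k[X] → k[X]) (z0 : k) (A L : ℕ),
    U.Monic → Cn ≠ 0 → W ≠ 0 → z0 ≠ 0 → (∀ x y, Ef (x + y) = Ef x + Ef y) →
    (∀ z ∈ low k L, z ≠ 0 → (Ef z).natDegree = A + 2 * z.natDegree ∧
      (Ef z).leadingCoeff = z0 * z.leadingCoeff ^ 2) →
    Ok s t L ((U.natDegree : ℤ) - A) ((Cn.natDegree : ℤ) + 1 - W.natDegree - A) →
    |∑ z ∈ low k L, χ z * psi (res ((U + Ef z) * W) Cn)| ≤ 2 * η * qq k ^ L

/-- the primes with degree in `(12 E, n / 100]` -/
noncomputable def II (k : Type) [Field k] [Finite k] (n E : ℕ) : Finset k[X] :=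
  (Pr k (n / 100)).filter (fun P => 12 * E < P.natDegree)

/-- the mean number of such primes in a squarefree polynomial -/
noncomputable def LL (k : Type) [Field k] [Finite k] (n E : ℕ) : ℝ :=
  ∑ P ∈ II k n E, (qq k ^ P.natDegree + 1)⁻¹

/-- the number of such primes in a set -/
noncomputable def om [Finite k] (n E : ℕ) (d : Finset k[X]) : ℝ := ((d ∩ II k n E).card : ℝ)

end Pool.Agent.P.MP_8be758_nt.L2
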