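import Pool.Agent.P.MP_8be758_nt.L2.Basic

/-! The steps of the project on prime values in characteristic two, as statements. -/

namespace Pool.Agent.P.MP_8be758_nt.L2

open Polynomial Finset Filter
open Pool.Agent.P.MP_8be758_nt.C2
open scoped Classical Topology

-- deps:
def S_GAUSS : Prop :=
  ∀ (k : Type) [Field k] [Finite k] (a : ℕ), 1 ≤ a →
    (a : ℝ) * (Pd k a).card ≤ qq k ^ a ∧ (4 ≤ a → qq k ^ a ≤ 2 * a * (Pd k a).card)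

-- deps:
def S_BIJ : Prop :=
  ∀ (k : Type) [Field k] [Finite k] (D : ℕ) (φ : k[X] → ℝ),
    ∑ S ∈ Sc (∅ : Finset k[X]) D, φ (pr S) = ∑ M ∈ (Mo k D).filter Squarefree, φ M

-- deps: BIJ
def S_BASE : Prop :=
  ∀ (k : Type) [Field k] [Finite k] (D : ℕ),
    xs (-1) (∅ : Finset k[X]) D = (if D = 0 then 1 else if D = 1 then -1 else 0) ∧
    xs 1 (∅ : Finset k[X]) D = (if D ≤ 1 then 1 else 1 - 1 / qq k)

-- deps: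
def S_REC : Prop :=
  ∀ (k : Type) [Field k] [Finite k] (ε : ℝ) (s : Finset k[X]) (P : k[X]) (D : ℕ),
    IsPr P → P ∉ s →
    xs ε s D = xs ε (insert P s) D +
      (if P.natDegree ≤ D then ε / qq k ^ P.natDegree * xs ε (insert P s) (D - P.natDegree)
        else 0)

-- deps:
def S_SEQ : Prop :=
  ∀ (k : Type) [Field k] [Finite k] (ε c K : ℝ) (y : Finset k[X] → ℕ → ℝ),
    (ε = 1 ∨ ε = -1) → |c| ≤ K →
    (∀ s P D, IsPr P → P ∉ s → y s D = y (insert P s) D +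
      (if P.natDegree ≤ D then ε / qq k ^ P.natDegree * y (insert P s) (D - P.natDegree)
        else 0)) →
    (∀ D, |y ∅ D - c| ≤ K / √(qq k) ^ D) →
    ∀ s : Finset k[X], (∀ P ∈ s, IsPr P) → ∀ D,
      |y s D - c * eu ε s| ≤ K * 4 ^ s.card / √(qq k) ^ D

-- deps: BASE REC SEQ
def S_XAB : Prop :=
  ∀ (k : Type) [Field k] [Finite k] (s : Finset k[X]) (D : ℕ), (∀ P ∈ s, IsPr P) →
    ((Sc s D).card : ℝ) ≤ qq k ^ D ∧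
    |xs 1 s D - (1 - 1 / qq k) * eu 1 s| ≤ 4 ^ s.card / √(qq k) ^ D ∧
    |xs (-1) s D| ≤ qq k * 4 ^ s.card / √(qq k) ^ D

-- deps: BASE REC SEQ
def S_XC : Prop :=
  ∀ (k : Type) [Field k] [Finite k] (s : Finset k[X]) (Y m : ℕ), (∀ P ∈ s, IsPr P) → Y ≤ m →
    |∑ D ∈ range (Y + 1), xs (-1) s D * ((m : ℝ) - D) - eu (-1) s| ≤
      ((m : ℝ) - Y + 1) * 4 ^ s.card / √(qq k) ^ Y

-- deps: GAUSS
def S_POLY : Prop :=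
  ∀ (k : Type) [Field k] [Finite k] (c N : ℕ),
    ∑ S ∈ Sle k N, (c : ℝ) ^ S.card / qq k ^ dg S ≤ (3 * ((N : ℝ) + 1)) ^ c

-- deps: POLY
def S_LAM : Prop :=
  ∀ (k : Type) [Field k] [Finite k] (E : ℕ) (lam : Finset k[X] → ℝ),
    (∀ S, |lam S| ≤ 31 ^ S.card) →
    ∑ e ∈ Sle k E, |lam e| * 8 ^ e.card / qq k ^ dg e ≤ (3 * ((E : ℝ) + 1)) ^ 248 ∧
    ∑ e ∈ Sle k E, |lam e| * 2 ^ e.card ≤ qq k ^ E * (3 * ((E : ℝ) + 1)) ^ 248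

-- deps:
def S_SPL : Prop :=
  ∀ (k : Type) [Field k] [Finite k] (s e : Finset k[X]) (D : ℕ) (φ : Finset k[X] → ℝ),
    (∀ P ∈ e, IsPr P) → Disjoint e s →
    ∑ d ∈ Sc s D, φ d = ∑ e1 ∈ e.powerset.filter (fun e1 => dg e1 ≤ D),
      ∑ d ∈ Sc (s ∪ e) (D - dg e1), φ (e1 ∪ d)

-- deps:
def S_XP : Prop :=
  ∀ (k : Type) [Field k] [Finite k] [CharP k 2] (a c : k[X]) (n E D : ℕ)
    (lam φ : Finset k[X] → ℝ) (ξ : k[X] → ℝ), Hyp a c → (∀ S, lam S ≠ 0 → S ∈ Sle k E) →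
    NX a c n lam ξ D φ = ∑ e ∈ (Sle k E).filter (fun e => Disjoint e (pf a)),
      lam e * ∑ d ∈ Sc (pf a) D, φ d * cx a c n ξ (d ∪ e)

-- deps:
def S_ROOT : Prop :=
  ∀ (k : Type) [Field k] [Finite k] [CharP k 2] (a c M : k[X]), Squarefree M → IsCoprime M a →
    ∀ g, M ∣ FF a c g ↔ M ∣ g - rt a c M

-- deps:
def S_ORTH : Prop :=
  ∀ (k : Type) [Field k] [Finite k] [CharP k 2] (M y : k[X]) (x : ℕ), M ≠ 0 →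
    x ≤ M.natDegree → y ∈ low k M.natDegree →
    ∑ h ∈ low k x, psi (res M (h * y)) =
      if y ∈ low k (M.natDegree - x) then qq k ^ x else 0

-- deps: ROOT ORTH
def S_RF : Prop :=
  ∀ (k : Type) [Field k] [Finite k] [CharP k 2] (a c : k[X]) (n : ℕ) (S : Finset k[X]),
    a ≠ 0 → (∀ P ∈ S, IsPr P) → Disjoint S (pf a) →
    (dg S ≤ n → rr a c n S = 0) ∧ |rr a c n S| ≤ 1 ∧
    (n < dg S → rr a c n S = (∑ h ∈ (low k (dg S - n)).erase 0,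
      psi (h.coeff (dg S - n - 1)) * psi (res (pr S) (h * rt a c (pr S)))) / qq k ^ (dg S - n))

-- deps:
def S_SEL0 : Prop :=
  ∀ (k : Type) [Field k] (T : Finset k[X]) (g : k[X] → ℝ) (R : ℕ),
    (∀ P ∈ T, 0 ≤ g P ∧ g P ≤ 2 / 3) →
    ∃ ρ : Finset k[X] → ℝ, ρ ∅ = 1 ∧ (∀ S, ρ S ≠ 0 → S ⊆ T ∧ dg S ≤ R) ∧
      (∀ S, |ρ S| ≤ 3 ^ S.card) ∧
      (∑ A ∈ T.powerset, ((∏ P ∈ A, g P) * ∏ P ∈ T \ A, (1 - g P)) * wt ρ A ^ 2) *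
        (∑ S ∈ T.powerset.filter (fun S => dg S ≤ R), ∏ P ∈ S, g P / (1 - g P)) = 1

-- deps: BASE REC
def S_GLB : Prop :=
  ∀ (k : Type) [Field k] [Finite k] (pa : Finset k[X]), (∀ P ∈ pa, IsPr P) →
    ∃ c : ℝ, 0 < c ∧ ∀ (R : ℕ),
      c * ((R : ℝ) + 1) ^ 2 ≤ ∑ S ∈ Sle k R, ∏ P ∈ S, gp pa P / (1 - gp pa P)

-- deps: SEL0 GLB
def S_SEL : Prop :=
  ∀ (k : Type) [Field k] [Finite k] (pa pv : Finset k[X]), (∀ P ∈ pa, IsPr P) →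
    (∀ P ∈ pv, IsPr P) →
    ∃ (C1 : ℝ) (E0 : ℕ), 0 < C1 ∧ ∀ E ≥ E0, ∃ lam, Wt pa pv E C1 lam

-- deps:
def S_SQF : Prop :=
  ∀ (k : Type) [Field k] [Finite k] [CharP k 2] (a c g : k[X]), Hyp a c →
    Disjoint (pf (FF a c g)) (pf (derivative (a * c))) →
    dg (pf (FF a c g)) = (FF a c g).natDegree ∧ mu (FF a c g) = sg (pf (FF a c g)) ∧
      (Irreducible (FF a c g) ↔ (pf (FF a c g)).card = 1)

-- deps: SQF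
def S_ID : Prop :=
  ∀ (k : Type) [Field k] [Finite k] [CharP k 2] (a c : k[X]) (n E : ℕ) (C1 : ℝ)
    (lam : Finset k[X] → ℝ), Hyp a c → Wa a c E C1 lam → E ≤ n →
    a.natDegree + c.natDegree < n →
    ∑ D ∈ range (2 * n + a.natDegree + 1), ((n : ℝ) - D) * NN a c n lam D sg =
      (2 * n + a.natDegree : ℝ) * ((Mo k n).filter (fun g => Irreducible (FF a c g))).card

-- deps: XP RF SPL XC
def S_T1A : Prop :=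
  ∀ (k : Type) [Field k] [Finite k] [CharP k 2] (a c : k[X]) (n E : ℕ)
    (lam : Finset k[X] → ℝ), Hyp a c → lam ∅ = 1 → (∀ S, lam S ≠ 0 → S ∈ Sle k E) →
    2 * E ≤ n →
    |∑ D ∈ range (n - E + 1), ((n : ℝ) - D) * NN a c n lam D sg - eu (-1) (pf a) * qq k ^ n| ≤
      qq k ^ n * (((E : ℝ) + 1) * 4 ^ (pf a).card / √(qq k) ^ (n - 2 * E)) *
        ∑ e ∈ Sle k E, |lam e| * 8 ^ e.card / qq k ^ dg e

-- deps: T1A LAM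
def S_T1 : Prop :=
  ∀ (k : Type) [Field k] [Finite k] [CharP k 2] (a c : k[X]) (κ : ℕ) (ε : ℝ), Hyp a c →
    4 ≤ κ → 0 < ε → ∃ n0 : ℕ, ∀ n ≥ n0, ∀ (C1 : ℝ) (lam : Finset k[X] → ℝ),
      Wa a c (n / κ) C1 lam →
      |∑ D ∈ range (n - n / κ + 1), ((n : ℝ) - D) * NN a c n lam D sg -
        eu (-1) (pf a) * qq k ^ n| ≤ ε * qq k ^ n

-- deps:
def S_WY0 : Prop :=
  ∀ (k : Type) [Field k] [Finite k] [CharP k 2] (t : ℕ) (η : ℝ), 0 ≤ η →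
    WB k 0 t η (fun _ => 1)

-- deps:
def S_WYS : Prop :=
  ∀ (k : Type) [Field k] [Finite k] [CharP k 2] (s t : ℕ) (η : ℝ) (χ : k[X] → ℝ), 0 ≤ η →
    1 ≤ η ^ 2 * 2 ^ t → IsCh χ → WB k s t (η ^ 2) (fun _ => 1) → WB k (s + 1) t η χ

-- deps: WY0 WYS
def S_WY : Prop :=
  ∀ (k : Type) [Field k] [Finite k] [CharP k 2] (s t : ℕ) (χ : k[X] → ℝ), IsCh χ →
    WB k (s + 1) t (1 / 2 ^ (t / 2 ^ (s + 1))) χ

-- deps: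
def S_DEC : Prop :=
  C2.S_FORM → ∀ (k : Type) [Field k] [Finite k] [CharP k 2] (U V m1 : k[X]), U.Monic → V ≠ 0 →
    V.natDegree < U.natDegree → V ^ 2 ∣ m1 → m1 ≠ 0 →
    ∃ (e : ℝ) (χ : k[X] → ℝ), |e| ≤ 1 ∧ IsCh χ ∧
      ∀ z : k[X], m1.natDegree + 2 * z.natDegree < U.natDegree →
        mu (eo (U + m1 * z ^ 2) V) = e * (χ z *
          psi (res ((U + m1 * z ^ 2) * (V ^ 2 * m1 ^ 3)) (X * derivative (U * m1) ^ 3)))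

-- deps:
def S_BADK : Prop :=
  ∀ (k : Type) [Field k] [Finite k] [CharP k 2] (m m1 U0 : k[X]) (n J t : ℕ), m1 ≠ 0 → m ∣ m1 →
    m1.natDegree + 2 * J = n → t + 1 ≤ J →
    (((Gs m U0 n).filter (fun U =>
      derivative (U * m1) ∈ low k (n + m1.natDegree - 1 - 2 * t))).card : ℝ) * qq k ^ t ≤
      (Gs m U0 n).card

-- deps:
def S_PARM : Prop :=
  ∀ κ dV : ℕ, 1 ≤ κ → ∃ s κ2 n0 : ℕ, 1 ≤ κ2 ∧ ∀ n ≥ n0, ∃ J L t : ℕ,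
    2 * J + 2 * dV ≤ n / κ ∧ t + 1 ≤ J ∧ n / κ2 ≤ t / 2 ^ (s + 1) ∧ dV < n ∧ L ≤ J ∧
    ∀ ρ : ℕ, ρ ≤ 2 * t → Even (2 * (n : ℤ) + 2 * J - 1 - 3 * ρ - 2 * dV) →
      Ok (s + 1) t L (2 * (J : ℤ)) (2 * (n : ℤ) + 2 * J - 1 - 3 * ρ - 2 * dV)

-- deps: WY DEC BADK PARM
def S_TWU : Prop :=
  C2.S_FORM → ∀ (k : Type) [Field k] [Finite k] [CharP k 2] (V : k[X]) (κ : ℕ), V ≠ 0 → 1 ≤ κ →
    ∃ κ2 n0 : ℕ, 1 ≤ κ2 ∧ ∀ n ≥ n0, ∀ m U0 : k[X], m ≠ 0 → m.natDegree + n / κ ≤ n →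
      |∑ U ∈ Gs m U0 n, mu (eo U V)| ≤ 3 * (qq k ^ n / qq k ^ m.natDegree) / 2 ^ (n / κ2)

-- deps: TWU ROOT
def S_TW : Prop :=
  C2.S_FORM → ∀ (k : Type) [Field k] [Finite k] [CharP k 2] (a c : k[X]) (κ : ℕ), Hyp a c →
    1 ≤ κ → ∃ κ2 n0 : ℕ, 1 ≤ κ2 ∧ ∀ n ≥ n0, ∀ S : Finset k[X], (∀ P ∈ S, IsPr P) →
      Disjoint S (pf a) → dg S + n / κ ≤ n →
      |cx a c n (fun g => mu (FF a c g)) S| ≤ 3 * (qq k ^ n / qq k ^ dg S) / 2 ^ (n / κ2)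

-- deps: SQF
def S_CPL : Prop :=
  ∀ (k : Type) [Field k] [Finite k] [CharP k 2] (a c : k[X]) (n E D : ℕ) (C1 : ℝ)
    (lam : Finset k[X] → ℝ), Hyp a c → Wa a c E C1 lam → c.natDegree < n →
    D ≤ 2 * n + a.natDegree →
    NN a c n lam D sg = NX a c n lam (fun g => mu (FF a c g)) (2 * n + a.natDegree - D) sg

-- deps: XP TW CPL SPL XAB LAM
def S_T3 : Prop :=
  C2.S_FORM → ∀ (k : Type) [Field k] [Finite k] [CharP k 2] (a c : k[X]) (κ : ℕ) (ε : ℝ),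
    Hyp a c → 4 ≤ κ → 0 < ε → ∃ n0 : ℕ, ∀ n ≥ n0, ∀ (C1 : ℝ) (lam : Finset k[X] → ℝ),
      Wa a c (n / κ) C1 lam →
      |∑ D ∈ Ico (n + a.natDegree + 2 * (n / κ)) (2 * n + a.natDegree + 1),
        ((n : ℝ) - D) * NN a c n lam D sg| ≤ ε * qq k ^ n

-- deps:
def S_N3 : Prop :=
  ∀ (k : Type) [Field k] [Finite k] [CharP k 2] (m : k[X]), m ≠ 0 →
    (n3 m : ℝ) * qq k ^ (2 * m.natDegree / 3) ≤ 3 * t3 m * qq k ^ (2 * m.natDegree)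

-- deps: ORTH
def S_K4 : Prop :=
  ∀ (k : Type) [Field k] [Finite k] [CharP k 2] (m : k[X]), m ≠ 0 →
    ∑ h ∈ low k m.natDegree, ∑ l ∈ low k m.natDegree, Kl m h l ^ 4 ≤
      qq k ^ (3 * m.natDegree) * n3 m

-- deps: K4 N3 GAUSS
def S_KLB : Prop :=
  ∀ (k : Type) [Field k] [Finite k] [CharP k 2] (m h l : k[X]) (b : ℕ), m ≠ 0 → h ≠ 0 →
    h.natDegree + 1 + b = m.natDegree → 6 ≤ b → m.natDegree ≤ 2 * b →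
    Kl m h l ^ 4 * (qq k ^ b * qq k ^ (2 * m.natDegree / 3)) ≤
      12 * b * t3 m * qq k ^ (5 * m.natDegree)

-- deps:
def S_T3S : Prop :=
  ∀ (k : Type) [Field k] [Finite k] (R : ℕ),
    ∑ m ∈ (low k (R + 1)).filter (fun m => m ≠ 0 ∧ m.natDegree = R), (t3 m : ℝ) ≤
      ((R : ℝ) + 1) ^ 2 * qq k ^ (R + 1)

-- deps: ORTH
def S_COS : Prop :=
  ∀ (k : Type) [Field k] [Finite k] [CharP k 2] (m x0 : k[X]) (Λ : Finset k[X])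
    (φ : k[X] → ℝ) (B : ℝ), m ≠ 0 → Λ ⊆ low k m.natDegree → (0 : k[X]) ∈ Λ →
    (∀ x ∈ Λ, ∀ y ∈ Λ, x + y ∈ Λ) → (∀ x y, φ (x + m * y) = φ x) →
    (∀ l, |∑ x ∈ low k m.natDegree, φ x * psi (res m (l * x))| ≤ B) →
    |∑ x ∈ Λ, φ (x0 + x)| ≤ B

-- deps:
def S_SQ2 : Prop :=
  ∀ (k : Type) [Field k] [Finite k] [CharP k 2] (A B : k[X]),
    Squarefree (A ^ 2 + X * B ^ 2) ↔ IsCoprime A B

-- deps: SQ2
def S_PH : Prop :=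
  ∀ (k : Type) [Field k] [Finite k] [CharP k 2] (a c w v h B A0 t : k[X]), a ≠ 0 → B ≠ 0 →
    a * c = w ^ 2 + X * v ^ 2 → IsCoprime (A0 ^ 2 + X * B ^ 2) a →
    ∃ z : ℝ, |z| ≤ 1 ∧ ∀ A e ν : k[X], a ∣ A - A0 → B * a ∣ (A + t * B) * e - 1 →
      A ^ 2 + X * B ^ 2 ∣ FF a c ν →
      h.natDegree + w.natDegree + 2 ≤ (A ^ 2 + X * B ^ 2).natDegree →
      h.natDegree + v.natDegree + A.natDegree + 2 ≤ (A ^ 2 + X * B ^ 2).natDegree →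
      psi (res (A ^ 2 + X * B ^ 2) (h * ν)) = z * psi (res (B * a) (h * v * e))

-- deps: PH COS SQ2 ROOT
def S_WB1 : Prop :=
  ∀ (k : Type) [Field k] [Finite k] [CharP k 2] (a c w v h B M0 : k[X]) (G : Finset k[X])
    (Bd : ℝ), a ≠ 0 → B ≠ 0 → a * c = w ^ 2 + X * v ^ 2 → Squarefree M0 →
    a.natDegree ≤ B.natDegree → (∀ A ∈ G, ∀ x ∈ low k B.natDegree, A + x ∈ G) →
    (∀ A ∈ G, h.natDegree + w.natDegree + 2 ≤ (A ^ 2 + X * B ^ 2).natDegree ∧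
      h.natDegree + v.natDegree + A.natDegree + 2 ≤ (A ^ 2 + X * B ^ 2).natDegree) →
    (∀ l, |Kl (B * a) (h * v) l| ≤ Bd) →
    |∑ A ∈ G.filter (fun A => Squarefree (A ^ 2 + X * B ^ 2) ∧
        IsCoprime (A ^ 2 + X * B ^ 2) a ∧ M0 ∣ A ^ 2 + X * B ^ 2),
      psi (res (A ^ 2 + X * B ^ 2) (h * rt a c (A ^ 2 + X * B ^ 2)))| *
        qq k ^ (B.natDegree - a.natDegree) ≤ G.card * Bd

-- deps: WB1 BIJ
def S_WS1 : Prop :=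
  ∀ (k : Type) [Field k] [Finite k] [CharP k 2] (a c w v h : k[X]) (S0 : Finset k[X])
    (D R0 : ℕ) (Bd : k[X] → ℝ), a ≠ 0 → a * c = w ^ 2 + X * v ^ 2 → (∀ P ∈ S0, IsPr P) →
    a.natDegree ≤ R0 → h.natDegree + w.natDegree + v.natDegree + 2 ≤ D / 2 →
    (∀ B, 0 ≤ Bd B) →
    (∀ B ∈ low k (D / 2 + 1), B ≠ 0 → R0 ≤ B.natDegree → ∀ l, |Kl (B * a) (h * v) l| ≤ Bd B) →
    |WS a c h S0 D| ≤ qq k ^ (D / 2 + 1 + R0) +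
      ∑ B ∈ (low k (D / 2 + 1)).filter (fun B => B ≠ 0 ∧ R0 ≤ B.natDegree),
        qq k ^ (D / 2 + 1) / qq k ^ (B.natDegree - a.natDegree) * Bd B

-- deps: WS1 KLB T3S
def S_WSB : Prop :=
  ∀ (k : Type) [Field k] [Finite k] [CharP k 2] (a c : k[X]), Hyp a c →
    ∃ D1 : ℕ, ∀ D ≥ D1, ∀ (h : k[X]) (S0 : Finset k[X]), h ≠ 0 → 20 * h.natDegree ≤ D →
      (∀ P ∈ S0, IsPr P) → |WS a c h S0 D| ≤ qq k ^ D / qq k ^ (D / 20)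

-- deps: WSB RF
def S_W1 : Prop :=
  ∀ (k : Type) [Field k] [Finite k] [CharP k 2] (a c : k[X]), Hyp a c →
    ∃ n0 : ℕ, ∀ n ≥ n0, ∀ (D : ℕ) (S0 : Finset k[X]), 20 * D ≤ 21 * n → (∀ P ∈ S0, IsPr P) →
      |∑ S ∈ (Sc (pf a) D).filter (fun S => S0 ⊆ S), rr a c n S| ≤ qq k ^ D / qq k ^ (n / 20)

-- deps: WSB RF ROOT
def S_W2 : Prop :=
  ∀ (k : Type) [Field k] [Finite k] [CharP k 2] (a c : k[X]), Hyp a c →
    ∃ n0 : ℕ, ∀ n ≥ n0, ∀ (D b : ℕ) (P1 P2 : k[X]), P1 ∈ Pd k b → P2 ∈ Pd k b → P1 ≠ P2 →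
      P1 ∉ pf a → P2 ∉ pf a → D ≤ n → 40 * b ≤ n →
      |∑ S ∈ Sc (pf a ∪ {P1, P2}) D, rr a c n (insert P1 S) * rr a c n (insert P2 S)| ≤
        qq k ^ (D + 2 * b) / qq k ^ (n / 20)

-- deps: W2 RF XAB GAUSS
def S_T2B : Prop :=
  ∀ (k : Type) [Field k] [Finite k] [CharP k 2] (a c : k[X]), Hyp a c →
    ∃ n0 : ℕ, ∀ n ≥ n0, ∀ D b : ℕ, a.natDegree < b → D ≤ n → 40 * b ≤ n →
      (∑ S ∈ Sc (pf a) D, |∑ P ∈ Pd k b \ S, rr a c n (insert P S)|) ^ 2 ≤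
        qq k ^ D * (qq k ^ (D + b) + qq k ^ (D + 4 * b) / qq k ^ (n / 20))

-- deps: XP SPL
def S_NR1 : Prop :=
  ∀ (k : Type) [Field k] [Finite k] [CharP k 2] (a c : k[X]) (n E D : ℕ)
    (lam : Finset k[X] → ℝ) (r : Finset k[X]) (B1 B2 : ℝ), Hyp a c →
    (∀ S, lam S ≠ 0 → S ∈ Sle k E) → (∀ P ∈ r, IsPr P ∧ E < P.natDegree) →
    Disjoint r (pf a) → E + dg r ≤ D → 0 ≤ B1 → 0 ≤ B2 →
    (∀ (s : Finset k[X]) (D' : ℕ), (∀ P ∈ s, IsPr P) → D ≤ D' + E + dg r →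
      |xs 1 s D' - (1 - 1 / qq k) * eu 1 s| ≤ 4 ^ s.card * B1) →
    (∀ (D' : ℕ) (S0 : Finset k[X]), (∀ P ∈ S0, IsPr P) → D' ≤ D + E →
      |∑ S ∈ (Sc (pf a) D').filter (fun S => S0 ⊆ S), rr a c n S| ≤ B2) →
    |NN a c n lam D (fun d => if r ⊆ d then 1 else 0) -
        qq k ^ n * ((1 - 1 / qq k) * eu 1 (pf a)) * GG (pf a) E lam *
          ∏ P ∈ r, (qq k ^ P.natDegree + 1)⁻¹| ≤
      qq k ^ n * (4 ^ ((pf a).card + r.card) * B1) *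
        (∑ e ∈ Sle k E, |lam e| * 8 ^ e.card / qq k ^ dg e) +
      B2 * ∑ e ∈ Sle k E, |lam e| * 2 ^ e.card

-- deps: NR1 XAB LAM W1
def S_NR : Prop :=
  ∀ (k : Type) [Field k] [Finite k] [CharP k 2] (a c : k[X]) (κ : ℕ), Hyp a c → 1000 ≤ κ →
    ∃ n0 : ℕ, ∀ n ≥ n0, ∀ (C1 : ℝ) (lam : Finset k[X] → ℝ) (D : ℕ) (r : Finset k[X]),
      Wa a c (n / κ) C1 lam → n ≤ D + n / κ → D ≤ n + 3 * (n / κ) →
      r ⊆ II k n (n / κ) → r.card ≤ 2 →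
      |NN a c n lam D (fun d => if r ⊆ d then 1 else 0) -
        qq k ^ n * ((1 - 1 / qq k) * eu 1 (pf a)) * GG (pf a) (n / κ) lam *
          ∏ P ∈ r, (qq k ^ P.natDegree + 1)⁻¹| ≤ qq k ^ n / qq k ^ (n / 30)

-- deps: NR
def S_TK : Prop :=
  ∀ (k : Type) [Field k] [Finite k] [CharP k 2] (a c : k[X]) (κ : ℕ), Hyp a c → 1000 ≤ κ →
    ∃ n0 : ℕ, ∀ n ≥ n0, ∀ (C1 : ℝ) (lam : Finset k[X] → ℝ) (D : ℕ), 0 ≤ C1 →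
      Wa a c (n / κ) C1 lam → n ≤ D + n / κ → D ≤ n + 3 * (n / κ) →
      NN a c n lam D (fun _ => 1) ≤
        qq k ^ n * (C1 / ((n / κ : ℕ) : ℝ) ^ 2) + qq k ^ n / 2 ^ (n / 100) ∧
      NN a c n lam D (fun d => (LL k n (n / κ) - om n (n / κ) d) ^ 2) ≤
        qq k ^ n * (C1 / ((n / κ : ℕ) : ℝ) ^ 2) * LL k n (n / κ) + qq k ^ n / 2 ^ (n / 100)

-- deps: XP SPL
def S_ZB1 : Prop :=
  ∀ (k : Type) [Field k] [Finite k] [CharP k 2] (a c : k[X]) (n E D : ℕ)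
    (lam : Finset k[X] → ℝ) (B1 B2 : ℝ), Hyp a c → (∀ S, lam S ≠ 0 → S ∈ Sle k E) →
    a.natDegree ≤ E → E + n / 100 ≤ D → 0 ≤ B1 → 0 ≤ B2 →
    (∀ (s : Finset k[X]) (D' : ℕ), (∀ P ∈ s, IsPr P) → D ≤ D' + E + n / 100 →
      |xs (-1) s D'| ≤ 4 ^ s.card * B1) →
    (∀ b D' : ℕ, 12 * E < b → b ≤ n / 100 → D' + b ≤ D + E →
      ∑ S ∈ Sc (pf a) D', |∑ P ∈ Pd k b \ S, rr a c n (insert P S)| ≤ B2) →
    |NN a c n lam D (fun d => sg d * om n E d)| ≤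
      qq k ^ n * (4 ^ ((pf a).card + 1) * (II k n E).card * B1) *
        (∑ e ∈ Sle k E, |lam e| * 8 ^ e.card / qq k ^ dg e) +
      (n : ℝ) * B2 * ∑ e ∈ Sle k E, |lam e| * 2 ^ e.card

-- deps: ZB1 XAB LAM T2B
def S_ZB : Prop :=
  ∀ (k : Type) [Field k] [Finite k] [CharP k 2] (a c : k[X]) (κ : ℕ), Hyp a c → 1000 ≤ κ →
    ∃ n0 : ℕ, ∀ n ≥ n0, ∀ (C1 : ℝ) (lam : Finset k[X] → ℝ) (D : ℕ),
      Wa a c (n / κ) C1 lam → n ≤ D + n / κ → D ≤ n + 3 * (n / κ) →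
      |NN a c n lam D (fun d => sg d * om n (n / κ) d)| ≤ qq k ^ n / 2 ^ (n / κ / 4)

-- deps: GAUSS
def S_LLB : Prop :=
  ∀ (k : Type) [Field k] [Finite k] (L0 : ℝ), ∃ κ n0 : ℕ, 1000 ≤ κ ∧ ∀ n ≥ n0,
    L0 ≤ LL k n (n / κ)

-- deps: TK ZB LLB
def S_MID : Prop :=
  ∀ (k : Type) [Field k] [Finite k] [CharP k 2] (a c : k[X]) (C1 ε : ℝ), Hyp a c → 0 < C1 →
    0 < ε → ∃ κ n0 : ℕ, 1000 ≤ κ ∧ ∀ n ≥ n0, ∀ lam : Finset k[X] → ℝ,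
      Wa a c (n / κ) C1 lam →
      |∑ D ∈ Ico (n - n / κ + 1) (n + a.natDegree + 2 * (n / κ)),
        ((n : ℝ) - D) * NN a c n lam D sg| ≤ ε * qq k ^ n

-- deps: ID SEL T1 T3 MID
def S_FIN : Prop :=
  C2.S_FORM → ∀ (k : Type) [Field k] [Finite k] [CharP k 2] (a c : k[X]), Hyp a c →
    Tendsto (fun n : ℕ => 2 * (n : ℝ) *
      ((Mo k n).filter (fun g => Irreducible (FF a c g))).card / qq k ^ n) atTop
      (𝓝 (eu (-1) (pf a)))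

end Pool.Agent.P.MP_8be758_nt.L2
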