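import Pool.Agent.P.MP_8be758_nt.L2.If

/-! From the last step to the statement in plain terms. -/

namespace Pool.Agent.P.MP_8be758_nt.L2

open Polynomial Finset Filter
open Pool.Agent.P.MP_8be758_nt.C2
open scoped Classical Topology

theorem hyp_of_irreducible {k : Type} [Field k] [Finite k] [CharP k 2] {a c : k[X]} (ha : a ≠ 0)
    (h : Irreducible (C a * X ^ 2 + C c : k[X][X])) : Hyp a c := by
  have hd : (C a * X ^ 2 + C c : k[X][X]).natDegree = 2 := by
    rw [natDegree_add_C, natDegree_C_mul_X_pow _ _ ha]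
  refine ⟨ha, ?_, fun h0 => ?_⟩
  · refine (EuclideanDomain.gcd_isUnit_iff).1 ?_
    have h1 : C (EuclideanDomain.gcd a c) ∣ (C a * X ^ 2 + C c : k[X][X]) :=
      dvd_add ((_root_.map_dvd C (EuclideanDomain.gcd_dvd_left a c)).mul_right _)
        (_root_.map_dvd C (EuclideanDomain.gcd_dvd_right a c))
    rcases h.dvd_iff.1 h1 with h2 | h2
    · exact isUnit_C.1 h2
    · have := natDegree_eq_of_degree_eq (degree_eq_degree_of_associated h2)
      rw [hd, natDegree_C] at this
      omega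
  · obtain ⟨w, v, e⟩ := exists_sq_add (a * c)
    rw [e, derivative_sq_add] at h0
    rw [h0, mul_zero, add_zero] at e
    have h2 : (2 : k[X][X]) = 0 := CharTwo.two_eq_zero
    have e' : (C a * C c : k[X][X]) = C w ^ 2 := by rw [← C_mul, e, C_pow]
    have h1 : (C a * X ^ 2 + C c : k[X][X]) ∣ (C a * X + C w) ^ 2 :=
      ⟨C a, by linear_combination -e' + (C a * X * C w) * h2⟩
    have h3 := h.prime.dvd_of_dvd_pow h1
    have h4 : (C a * X + C w : k[X][X]).natDegree = 1 := natDegree_linear ha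
    have h5 : (C a * X + C w : k[X][X]) ≠ 0 := by
      intro h6; rw [h6] at h4; simp at h4
    have := natDegree_le_of_dvd h3 h5
    omega

theorem last (hF : C2.S_FORM) (hFIN : S_FIN) (k : Type) [Field k] [Finite k] [CharP k 2]
    (a c : k[X]) (ha : a ≠ 0) (hirr : Irreducible (C a * X ^ 2 + C c : k[X][X])) :
    Tendsto (fun n : ℕ =>
      (Set.ncard {g : k[X] | g.Monic ∧ g.natDegree = n ∧ Irreducible (a * g ^ 2 + c)} : ℝ) /
        ((Nat.card k : ℝ) ^ n / (2 * n))) atTop
      (𝓝 (∏ᶠ P ∈ {P : k[X] | P.Monic ∧ Irreducible P ∧ P ∣ a},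
        (1 - 1 / (Nat.card k : ℝ) ^ P.natDegree)⁻¹)) := by
  have h := hFIN hF k a c (hyp_of_irreducible ha hirr)
  have e1 : {P : k[X] | P.Monic ∧ Irreducible P ∧ P ∣ a} = (pf a : Set k[X]) := by
    ext P
    simp only [Set.mem_setOf_eq, mem_coe, mem_pf ha, IsPr, and_assoc]
  have e2 : ∀ n : ℕ, {g : k[X] | g.Monic ∧ g.natDegree = n ∧ Irreducible (a * g ^ 2 + c)} =
      (((Mo k n).filter (fun g => Irreducible (FF a c g)) : Finset k[X]) : Set k[X]) := by
    intro n
    ext g
    simp only [Set.mem_setOf_eq, mem_coe, mem_filter, mem_Mo, FF, and_assoc]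
  rw [e1, finprod_mem_coe_finset]
  have e3 : ∏ P ∈ pf a, (1 - 1 / (Nat.card k : ℝ) ^ P.natDegree)⁻¹ = eu (-1) (pf a) :=
    prod_congr rfl fun P _ => by rw [qq, neg_div, sub_eq_add_neg]
  rw [e3]
  refine h.congr fun n => ?_
  rw [e2, Set.ncard_coe_finset, qq, div_div_eq_mul_div, mul_comm]

end Pool.Agent.P.MP_8be758_nt.L2
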