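import Pool.Agent.P.MP_8be758_nt.L2.If

/-! Step BADK. -/

namespace Pool.Agent.P.MP_8be758_nt.L2

open Polynomial Finset Filter
open Pool.Agent.P.MP_8be758_nt.C2
open scoped Classical Topology

theorem p_BADK :
    S_BADK := by
  intro k _ _ _ m m1 U0 n J t hm hd hn ht
  have h2 : (2 : k[X]) = 0 := CharTwo.two_eq_zero
  have hq := qq_pos (k := k)
  set N := n + m1.natDegree - 1 - 2 * t with hN
  have hv : ∀ y ∈ low k J, m1 * X * y ^ 2 ∈ low k n := by
    intro y hy
    refine mem_low_of_natDegree_lt ?_
    have h1 := natDegree_le_of_mem_low hy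
    have h3 : (m1 * X * y ^ 2).natDegree ≤ m1.natDegree + 1 + 2 * y.natDegree := by
      refine natDegree_mul_le.trans ?_
      rw [natDegree_pow, natDegree_mul_X hm]
    omega
  have der : ∀ U y : k[X], derivative ((U + m1 * X * y ^ 2) * m1) =
      derivative (U * m1) + (m1 * y) ^ 2 := by
    intro U y
    rw [add_mul, derivative_add, show m1 * X * y ^ 2 * m1 = 0 ^ 2 + X * (m1 * y) ^ 2 by ring,
      derivative_sq_add]
  have av := sum_avg (Gs m U0 n) (low k J) (fun y => m1 * X * y ^ 2)
    (fun y hy g hg => add_mem_Gs hg (hv y hy) ((hd.mul_right _).mul_right _))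
    (fun U => if derivative (U * m1) ∈ low k N then (1 : ℝ) else 0)
  have inner : ∀ U ∈ Gs m U0 n, ∑ y ∈ low k J,
      (if derivative ((U + m1 * X * y ^ 2) * m1) ∈ low k N then (1 : ℝ) else 0) ≤
        qq k ^ (J - t) := by
    intro U _
    rw [sum_boole, ← card_low']
    norm_cast
    rcases ((low k J).filter (fun y =>
      derivative ((U + m1 * X * y ^ 2) * m1) ∈ low k N)).eq_empty_or_nonempty with h | ⟨y0, h0⟩
    · rw [h]; simp
    refine card_le_card_of_injOn (fun y => y + y0) (fun y hy => ?_) fun y _ y' _ e => by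
      simpa using e
    have a1 := (mem_filter.1 (mem_coe.1 hy)).2
    have a2 := (mem_filter.1 h0).2
    have a3 := add_mem_low a1 a2
    rw [der, der, show derivative (U * m1) + (m1 * y) ^ 2 + (derivative (U * m1) + (m1 * y0) ^ 2)
      = (m1 * (y + y0)) ^ 2 by
        linear_combination (derivative (U * m1) - m1 ^ 2 * y * y0) * h2] at a3
    by_cases hz : y + y0 = 0
    · simp [hz, zero_mem_low]
    · have := natDegree_lt_of_mem_low a3 (pow_ne_zero 2 (mul_ne_zero hm hz))
      rw [natDegree_pow, natDegree_mul hm hz] at this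
      exact mem_coe.2 (mem_low_of_natDegree_lt (p := y + y0) (by omega))
  have tot := sum_le_sum inner
  rw [← av, sum_boole, card_low', sum_const, nsmul_eq_mul] at tot
  have e : qq k ^ J = qq k ^ (J - t) * qq k ^ t := by rw [← pow_add]; congr 1; omega
  rw [e] at tot
  have hp : 0 < qq k ^ (J - t) := by positivity
  refine le_of_mul_le_mul_left ?_ hp
  linarith

end Pool.Agent.P.MP_8be758_nt.L2
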