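import Pool.Agent.P.MP_8be758_nt.L2.If

/-! Step K4. -/

namespace Pool.Agent.P.MP_8be758_nt.L2

open Polynomial Finset Filter
open Pool.Agent.P.MP_8be758_nt.C2
open scoped Classical Topology

theorem K4_pow {ι : Type} (Z : Finset ι) (e : ι → ℝ) :
    (∑ p ∈ Z, e p) ^ 4 =
      ∑ t ∈ Z ×ˢ Z ×ˢ Z ×ˢ Z, e t.1 * (e t.2.1 * (e t.2.2.1 * e t.2.2.2)) := by
  simp only [sum_product, ← mul_sum, ← sum_mul]
  ring

theorem K4_inv {k : Type} [Field k] [Finite k] {m : k[X]} {p p' : k[X] × k[X]}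
    (hp : p ∈ (low k m.natDegree ×ˢ low k m.natDegree).filter (fun p => m ∣ p.1 * p.2 - 1))
    (hp' : p' ∈ (low k m.natDegree ×ˢ low k m.natDegree).filter (fun p => m ∣ p.1 * p.2 - 1))
    (h : p.1 = p'.1) : p = p' := by
  obtain ⟨h1, h2⟩ := mem_filter.1 hp
  obtain ⟨h3, h4⟩ := mem_filter.1 hp'
  refine Prod.ext h (sub_eq_zero.1 (eq_zero_of_mem_low
    (sub_mem_low (mem_product.1 h1).2 (mem_product.1 h3).2) (P := m) ?_ le_rfl))
  have e : p.2 - p'.2 = p'.2 * (p.1 * p.2 - 1) - p.2 * (p'.1 * p'.2 - 1) := by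
    rw [h]; ring
  rw [e]
  exact dvd_sub (h2.mul_left _) (h4.mul_left _)

theorem K4_orth (hORTH : S_ORTH) {k : Type} [Field k] [Finite k] [CharP k 2] {m y : k[X]}
    (hm : m ≠ 0) (hy : y ∈ low k m.natDegree) :
    ∑ h ∈ low k m.natDegree, psi (res m (h * y)) =
      if y = 0 then qq k ^ m.natDegree else 0 := by
  rw [hORTH k m y m.natDegree hm le_rfl hy, Nat.sub_self]
  by_cases h0 : y = 0
  · rw [if_pos h0, if_pos (h0 ▸ zero_mem_low 0)]
  · rw [if_neg h0, if_neg fun h => absurd (natDegree_lt_of_mem_low h h0) (Nat.not_lt_zero _)]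

theorem p_K4 (hORTH : S_ORTH) :
    S_K4 := by
  intro k _ _ _ m hm
  have h2 : (2 : k[X]) = 0 := CharTwo.two_eq_zero
  set R := m.natDegree with hR
  set Z := (low k R ×ˢ low k R).filter (fun p : k[X] × k[X] => m ∣ p.1 * p.2 - 1) with hZ
  set T := Z ×ˢ Z ×ˢ Z ×ˢ Z with hT
  let sx : (k[X] × k[X]) × (k[X] × k[X]) × (k[X] × k[X]) × (k[X] × k[X]) → k[X] :=
    fun t => t.1.1 + (t.2.1.1 + (t.2.2.1.1 + t.2.2.2.1))
  let sy : (k[X] × k[X]) × (k[X] × k[X]) × (k[X] × k[X]) × (k[X] × k[X]) → k[X] :=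
    fun t => t.1.2 + (t.2.1.2 + (t.2.2.1.2 + t.2.2.2.2))
  have hZ1 : ∀ p ∈ Z, p.1 ∈ low k R := fun p hp => (mem_product.1 (mem_filter.1 hp).1).1
  have hZ2 : ∀ p ∈ Z, p.2 ∈ low k R := fun p hp => (mem_product.1 (mem_filter.1 hp).1).2
  have hZ3 : ∀ p ∈ Z, m ∣ p.1 * p.2 - 1 := fun p hp => (mem_filter.1 hp).2
  have hTm : ∀ t ∈ T, t.1 ∈ Z ∧ t.2.1 ∈ Z ∧ t.2.2.1 ∈ Z ∧ t.2.2.2 ∈ Z := fun t ht => by
    simpa only [hT, mem_product] using ht
  have hK : ∀ h l : k[X], Kl m h l ^ 4 =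
      ∑ t ∈ T, psi (res m (h * sy t)) * psi (res m (l * sx t)) := by
    intro h l
    have e : Kl m h l = ∑ p ∈ Z, psi (res m (h * p.2 + l * p.1)) := by
      rw [hZ, sum_filter, sum_product]
      rfl
    rw [e, K4_pow]
    refine sum_congr rfl fun t _ => ?_
    simp only [← psi_add, ← res_add]
    congr 2
    simp only [sx, sy]
    ring
  have hS : ∑ h ∈ low k R, ∑ l ∈ low k R, Kl m h l ^ 4 =
      qq k ^ (2 * R) * ((T.filter (fun t => sy t = 0 ∧ sx t = 0)).card : ℝ) := by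
    simp only [hK]
    rw [sum_congr rfl fun h _ => sum_comm, sum_comm, card_filter, Nat.cast_sum, mul_sum]
    refine sum_congr rfl fun t ht => ?_
    obtain ⟨a1, a2, a3, a4⟩ := hTm t ht
    have hx : sx t ∈ low k R :=
      add_mem_low (hZ1 _ a1) (add_mem_low (hZ1 _ a2) (add_mem_low (hZ1 _ a3) (hZ1 _ a4)))
    have hy : sy t ∈ low k R :=
      add_mem_low (hZ2 _ a1) (add_mem_low (hZ2 _ a2) (add_mem_low (hZ2 _ a3) (hZ2 _ a4)))
    rw [← sum_mul_sum, K4_orth hORTH hm hx, K4_orth hORTH hm hy]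
    by_cases e1 : sy t = 0 <;> by_cases e2 : sx t = 0 <;> simp [e1, e2, two_mul, pow_add, hR]
  have hC : (T.filter (fun t => sy t = 0 ∧ sx t = 0)).card ≤
      (low k R ×ˢ ((low k R ×ˢ low k R).filter
        (fun p => m ∣ p.1 * p.2 * (p.1 + p.2)))).card := by
    refine card_le_card_of_injOn
      (fun t => (t.1.1, (t.1.1 + t.2.1.1, t.1.1 + t.2.2.1.1))) ?_ ?_
    · intro t ht
      obtain ⟨ht, hy, hx⟩ := mem_filter.1 (mem_coe.1 ht)
      obtain ⟨a1, a2, a3, a4⟩ := hTm t ht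
      refine mem_coe.2 (mem_product.2 ⟨hZ1 _ a1, mem_filter.2 ⟨mem_product.2
        ⟨add_mem_low (hZ1 _ a1) (hZ1 _ a2), add_mem_low (hZ1 _ a1) (hZ1 _ a3)⟩, ?_⟩⟩)
      have b1 := hZ3 _ a1
      have b2 := hZ3 _ a2
      have b3 := hZ3 _ a3
      have b4 := hZ3 _ a4
      obtain ⟨⟨x1, y1⟩, ⟨x2, y2⟩, ⟨x3, y3⟩, ⟨x4, y4⟩⟩ := t
      simp only [sx, sy] at hx hy b1 b2 b3 b4 ⊢
      have e : (x1 + x2) * (x1 + x3) * (x1 + x2 + (x1 + x3)) =
          x2 * x3 * x4 * (x1 * y1 - 1) + x1 * x3 * x4 * (x2 * y2 - 1) +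
            x1 * x2 * x4 * (x3 * y3 - 1) + x1 * x2 * x3 * (x4 * y4 - 1) := by
        linear_combination x1 * (x1 + x2) * (x1 + x3) * h2 - x1 * x2 * x3 * x4 * hy +
          (x1 * x2 + x1 * x3 + x2 * x3) * hx
      rw [e]
      exact dvd_add (dvd_add (dvd_add (b1.mul_left _) (b2.mul_left _)) (b3.mul_left _))
        (b4.mul_left _)
    · intro t ht t' ht' e
      obtain ⟨ht, -, hx⟩ := mem_filter.1 (mem_coe.1 ht)
      obtain ⟨ht', -, hx'⟩ := mem_filter.1 (mem_coe.1 ht')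
      obtain ⟨a1, a2, a3, a4⟩ := hTm t ht
      obtain ⟨b1, b2, b3, b4⟩ := hTm t' ht'
      simp only [Prod.mk.injEq] at e
      obtain ⟨e1, e2, e3⟩ := e
      simp only [sx] at hx hx'
      refine Prod.ext (K4_inv a1 b1 e1) (Prod.ext (K4_inv a2 b2 ?_)
        (Prod.ext (K4_inv a3 b3 ?_) (K4_inv a4 b4 ?_)))
      · linear_combination e2 - e1
      · linear_combination e3 - e1
      · linear_combination hx - hx' - e2 - e3 + e1
  rw [hS]
  have hC' : ((T.filter (fun t => sy t = 0 ∧ sx t = 0)).card : ℝ) ≤ qq k ^ R * n3 m := by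
    rw [card_product] at hC
    rw [← card_low']
    unfold n3
    exact_mod_cast hC
  have hq := qq_pos (k := k)
  calc qq k ^ (2 * R) * ((T.filter (fun t => sy t = 0 ∧ sx t = 0)).card : ℝ)
      ≤ qq k ^ (2 * R) * (qq k ^ R * n3 m) := by gcongr
    _ = qq k ^ (3 * R) * n3 m := by ring

end Pool.Agent.P.MP_8be758_nt.L2
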