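import Pool.Agent.P.MP_8be758_nt.L2.If

/-! Step POLY. -/

namespace Pool.Agent.P.MP_8be758_nt.L2

open Polynomial Finset Filter
open Pool.Agent.P.MP_8be758_nt.C2
open scoped Classical Topology

theorem POLY_sum (hGAUSS : S_GAUSS) (k : Type) [Field k] [Finite k] (N : ℕ) :
    ∑ P ∈ Pr k N, 1 / qq k ^ P.natDegree ≤ 1 + Real.log N := by
  have hq := qq_pos (k := k)
  refine le_trans ?_ (harmonic_le_one_add_log N)
  rw [harmonic_eq_sum_Icc, ← sum_fiberwise_of_maps_to (t := Icc 1 N) (g := natDegree)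
    fun P hP => mem_Icc.2 ⟨(mem_Pr.1 hP).1.pos, (mem_Pr.1 hP).2⟩]
  push_cast
  refine sum_le_sum fun a ha => ?_
  have a1 := (mem_Icc.1 ha).1
  have e : (Pr k N).filter (fun P => P.natDegree = a) = Pd k a := by
    ext P
    rw [mem_filter, mem_Pr, mem_Pd]
    exact ⟨fun h => ⟨h.1.1, h.2⟩, fun h => ⟨⟨h.1, h.2.le.trans (mem_Icc.1 ha).2⟩, h.2⟩⟩
  have a0 : (0 : ℝ) < a := by exact_mod_cast a1
  rw [e, sum_congr rfl fun P hP => by rw [(mem_Pd.1 hP).2], sum_const, nsmul_eq_mul, mul_one_div,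
    div_le_iff₀ (by positivity), inv_mul_eq_div, le_div_iff₀' a0]
  exact (hGAUSS k a a1).1

theorem p_POLY (hGAUSS : S_GAUSS) :
    S_POLY := by
  intro k _ _ c N
  have hq := qq_pos (k := k)
  have h3 : Real.exp (1 + Real.log N) ≤ 3 * ((N : ℝ) + 1) := by
    rw [Real.exp_add]
    refine mul_le_mul (Real.exp_one_lt_d9.le.trans (by norm_num)) ?_ (by positivity) (by norm_num)
    rcases Nat.eq_zero_or_pos N with rfl | h
    · simp
    · rw [Real.exp_log (by exact_mod_cast h)]; linarith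
  calc _ ≤ ∑ S ∈ (Pr k N).powerset, (c : ℝ) ^ S.card / qq k ^ dg S :=
        sum_le_sum_of_subset_of_nonneg (filter_subset _ _) fun _ _ _ => by positivity
    _ = ∏ P ∈ Pr k N, (1 + (c : ℝ) / qq k ^ P.natDegree) := by
        rw [prod_one_add]
        refine sum_congr rfl fun S _ => ?_
        rw [prod_div_distrib, prod_const, prod_pow_eq_pow_sum, dg]
    _ ≤ ∏ P ∈ Pr k N, Real.exp ((c : ℝ) * (1 / qq k ^ P.natDegree)) :=
        prod_le_prod (fun _ _ => by positivity) fun P _ => by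
          rw [mul_one_div, add_comm]; exact Real.add_one_le_exp _
    _ ≤ Real.exp (c * (1 + Real.log N)) := by
        rw [← Real.exp_sum, ← mul_sum]
        exact Real.exp_le_exp.2 (mul_le_mul_of_nonneg_left (POLY_sum hGAUSS k N) (by positivity))
    _ ≤ _ := by
        rw [Real.exp_nat_mul]
        exact pow_le_pow_left₀ (by positivity) h3 c

end Pool.Agent.P.MP_8be758_nt.L2
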