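import Pool.Agent.P.MP_8be758_nt.L2.If

/-! Step T1A. -/

namespace Pool.Agent.P.MP_8be758_nt.L2

open Polynomial Finset Filter
open Pool.Agent.P.MP_8be758_nt.C2
open scoped Classical Topology

theorem T1A_shift (f : ℕ → ℝ) {j N : ℕ} (h : j ≤ N) :
    ∑ D ∈ range (N + 1), (if j ≤ D then f D else 0) = ∑ D ∈ range (N - j + 1), f (j + D) := by
  rw [show N + 1 = j + (N - j + 1) by omega, sum_range_add,
    sum_eq_zero fun D hD => if_neg (not_le.2 (mem_range.1 hD)), zero_add]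
  exact sum_congr rfl fun D _ => if_pos (Nat.le_add_right _ _)

theorem T1A_one (hRF : S_RF) (hSPL : S_SPL) {k : Type} [Field k] [Finite k] [CharP k 2]
    {a : k[X]} (c : k[X]) {n D : ℕ} {e : Finset k[X]} (ha : a ≠ 0) (he : ∀ P ∈ e, IsPr P)
    (hd : Disjoint e (pf a)) (hD : D + dg e ≤ n) :
    ∑ d ∈ Sc (pf a) D, sg d * cx a c n (fun _ => 1) (d ∪ e) =
      qq k ^ n / qq k ^ dg e * ∑ e1 ∈ e.powerset,
        if dg e1 ≤ D then sg e1 * xs (-1) (pf a ∪ e) (D - dg e1) else 0 := by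
  have hq := qq_pos (k := k)
  rw [hSPL k (pf a) e D _ he hd, ← sum_filter, mul_sum]
  refine sum_congr rfl fun e1 h1 => ?_
  have h2 := mem_powerset.1 (mem_filter.1 h1).1
  rw [xs, sum_div, mul_sum, mul_sum]
  refine sum_congr rfl fun d h3 => ?_
  obtain ⟨h4, h5, h6⟩ := mem_Sc.1 h3
  obtain ⟨h7, h8⟩ := disjoint_union_right.1 h6
  have e2 : e1 ∪ d ∪ e = d ∪ e := by
    rw [union_comm e1 d, union_assoc, union_eq_right.2 h2]
  have e3 : dg (d ∪ e) = D - dg e1 + dg e := by rw [dg_union h8, h5]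
  have h9 := (hRF k a c n (d ∪ e) ha (fun P hP => (mem_union.1 hP).elim (h4 P) (he P))
    (disjoint_union_left.2 ⟨h7, hd⟩)).1 (by omega)
  rw [rr, sub_eq_zero] at h9
  rw [e2, h9, e3, sg_union (h8.symm.mono_left h2), pow_add]
  unfold sg
  field_simp

theorem T1A_two (hXC : S_XC) {k : Type} [Field k] [Finite k] {s e : Finset k[X]} {n E : ℕ}
    (hs : ∀ P ∈ s, IsPr P) (he : ∀ P ∈ e, IsPr P) (hE : dg e ≤ E) (hn : 2 * E ≤ n) :
    |∑ D ∈ range (n - E + 1), ((n : ℝ) - D) * (∑ e1 ∈ e.powerset,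
        if dg e1 ≤ D then sg e1 * xs (-1) (s ∪ e) (D - dg e1) else 0) -
      (if e = ∅ then eu (-1) s else 0)| ≤
      ((E : ℝ) + 1) * 4 ^ s.card / √(qq k) ^ (n - 2 * E) * 8 ^ e.card := by
  have hq : 1 ≤ √(qq k) := Real.one_le_sqrt.2 one_le_qq
  have e1 : (if e = ∅ then eu (-1) s else 0) = ∑ e1 ∈ e.powerset, sg e1 * eu (-1) (s ∪ e) := by
    rw [← sum_mul, sum_sg_powerset]
    split_ifs with h
    · simp [h]
    · simp
  simp only [mul_sum]
  rw [e1, sum_comm, ← sum_sub_distrib]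
  refine (abs_sum_le_sum_abs _ _).trans ((sum_le_card_nsmul _ _
    (((E : ℝ) + 1) * 4 ^ s.card / √(qq k) ^ (n - 2 * E) * 4 ^ e.card) fun e1 h1 => ?_).trans_eq ?_)
  · have h2 := (dg_mono (mem_powerset.1 h1)).trans hE
    have h3 := hXC k (s ∪ e) (n - E - dg e1) (n - dg e1)
      (fun P hP => (mem_union.1 hP).elim (hs P) (he P)) (by omega)
    have c1 : ((n - dg e1 : ℕ) : ℝ) = n - dg e1 := Nat.cast_sub (by omega)
    have c2 : ((n - E - dg e1 : ℕ) : ℝ) = n - E - dg e1 := by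
      rw [Nat.cast_sub (by omega), Nat.cast_sub (by omega)]
    have h4 : ∑ D ∈ range (n - E + 1), ((n : ℝ) - D) *
        (if dg e1 ≤ D then sg e1 * xs (-1) (s ∪ e) (D - dg e1) else 0) =
        sg e1 * ∑ D ∈ range (n - E - dg e1 + 1),
          xs (-1) (s ∪ e) D * (((n - dg e1 : ℕ) : ℝ) - D) := by
      simp only [mul_ite, mul_zero]
      rw [T1A_shift _ (by omega), mul_sum]
      refine sum_congr rfl fun D _ => ?_
      rw [Nat.add_sub_cancel_left, c1]
      push_cast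
      ring
    rw [h4, ← mul_sub, abs_mul, abs_sg, one_mul]
    refine h3.trans ?_
    rw [c1, c2, show (n : ℝ) - dg e1 - (n - E - dg e1) + 1 = E + 1 by ring, div_mul_eq_mul_div,
      mul_assoc, ← pow_add]
    have h5 : (4 : ℝ) ^ (s ∪ e).card ≤ 4 ^ (s.card + e.card) :=
      pow_le_pow_right₀ (by norm_num) (card_union_le _ _)
    have h6 : √(qq k) ^ (n - 2 * E) ≤ √(qq k) ^ (n - E - dg e1) :=
      pow_le_pow_right₀ hq (by omega)
    gcongr
  · rw [card_powerset, nsmul_eq_mul, show (8 : ℝ) = 2 * 4 by norm_num, mul_pow]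
    push_cast
    ring

theorem p_T1A (hXP : S_XP) (hRF : S_RF) (hSPL : S_SPL) (hXC : S_XC) :
    S_T1A := by
  intro k _ _ _ a c n E lam hH h0 hl hn
  have hq := qq_pos (k := k)
  set F := (Sle k E).filter (fun e => Disjoint e (pf a)) with hF
  have e1 : ∑ D ∈ range (n - E + 1), ((n : ℝ) - D) * NN a c n lam D sg =
      ∑ e ∈ F, lam e * (qq k ^ n / qq k ^ dg e) * ∑ D ∈ range (n - E + 1), ((n : ℝ) - D) *
        ∑ e1 ∈ e.powerset,
          if dg e1 ≤ D then sg e1 * xs (-1) (pf a ∪ e) (D - dg e1) else 0 := by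
    simp only [mul_sum (range (n - E + 1))]
    rw [sum_comm]
    refine sum_congr rfl fun D hD => ?_
    rw [NN, hXP k a c n E D lam sg _ hH hl, mul_sum]
    refine sum_congr rfl fun e he => ?_
    obtain ⟨h1, h2⟩ := mem_filter.1 he
    obtain ⟨h3, h4⟩ := mem_Sle.1 h1
    have h5 := mem_range.1 hD
    rw [T1A_one hRF hSPL c hH.1 h3 h2 (by omega)]
    ring
  have e2 : eu (-1) (pf a) * qq k ^ n =
      ∑ e ∈ F, lam e * (qq k ^ n / qq k ^ dg e) * if e = ∅ then eu (-1) (pf a) else 0 := by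
    have h1 : (∅ : Finset k[X]) ∈ F :=
      mem_filter.2 ⟨mem_Sle.2 ⟨by simp, by simp [dg_empty]⟩, disjoint_empty_left _⟩
    simp only [mul_ite, mul_zero]
    rw [sum_ite_eq' F, if_pos h1, h0, dg_empty]
    ring
  rw [e1, e2, ← sum_sub_distrib, mul_sum]
  refine (abs_sum_le_sum_abs _ _).trans (le_trans (sum_le_sum fun e he => ?_)
    (sum_le_sum_of_subset_of_nonneg (filter_subset _ _) fun _ _ _ => by positivity))
  obtain ⟨h3, h4⟩ := mem_Sle.1 (mem_filter.1 he).1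
  rw [← mul_sub, abs_mul, abs_mul, abs_of_pos (by positivity : 0 < qq k ^ n / qq k ^ dg e)]
  refine (mul_le_mul_of_nonneg_left (T1A_two hXC (fun P => isPr_of_mem_pf) h3 h4 hn)
    (by positivity)).trans_eq ?_
  ring

end Pool.Agent.P.MP_8be758_nt.L2
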