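import Pool.Agent.P.MP_8be758_nt.L2.If

/-! Step WSB. -/

namespace Pool.Agent.P.MP_8be758_nt.L2

open Polynomial Finset Filter
open Pool.Agent.P.MP_8be758_nt.C2
open scoped Classical Topology

theorem WSB_one_le {k : Type} [Field k] [Finite k] (m : k[X]) : (1 : ℝ) ≤ t3 m := by
  have : 0 < t3 m := by
    refine card_pos.2 ⟨(1, 1), mem_filter.2 ⟨mem_product.2 ⟨?_, ?_⟩, monic_one, monic_one, ?_⟩⟩
    · exact mem_low_of_natDegree_lt (by simp)
    · exact mem_low_of_natDegree_lt (by simp)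
    · simp
  exact_mod_cast this

theorem WSB_sum (hT3S : S_T3S) {k : Type} [Field k] [Finite k] (N : ℕ) :
    ∑ m ∈ (low k (N + 1)).filter (fun m => m ≠ 0), (t3 m : ℝ) / qq k ^ m.natDegree ≤
      ((N : ℝ) + 1) ^ 3 * qq k := by
  have hq := qq_pos (k := k)
  rw [← sum_fiberwise_of_maps_to (g := fun m : k[X] => m.natDegree) (t := range (N + 1))
    (fun m hm => mem_range.2 (natDegree_lt_of_mem_low (mem_filter.1 hm).1 (mem_filter.1 hm).2))]
  refine (sum_le_card_nsmul _ _ (((N : ℝ) + 1) ^ 2 * qq k) fun j hj => ?_).trans ?_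
  · have hj' : (j : ℝ) ≤ N := by exact_mod_cast Nat.lt_succ_iff.1 (mem_range.1 hj)
    rw [sum_congr rfl (g := fun m => (t3 m : ℝ) / qq k ^ j)
      (fun m hm => by rw [(mem_filter.1 hm).2]), ← sum_div, div_le_iff₀ (by positivity)]
    refine (sum_le_sum_of_subset_of_nonneg (t := (low k (j + 1)).filter
      (fun m => m ≠ 0 ∧ m.natDegree = j)) (fun m hm => ?_) (fun _ _ _ => by positivity)).trans
      ((hT3S k j).trans ?_)
    · obtain ⟨h1, h2⟩ := mem_filter.1 hm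
      exact mem_filter.2 ⟨mem_low_of_natDegree_lt (by omega), (mem_filter.1 h1).2, h2⟩
    · rw [pow_succ (qq k) j]
      have : ((j : ℝ) + 1) ^ 2 ≤ ((N : ℝ) + 1) ^ 2 := by gcongr
      calc ((j : ℝ) + 1) ^ 2 * (qq k ^ j * qq k) ≤ ((N : ℝ) + 1) ^ 2 * (qq k ^ j * qq k) := by
            gcongr
        _ = _ := by ring
  · rw [card_range, nsmul_eq_mul]
    push_cast
    exact le_of_eq (by ring)

theorem WSB_kl (hKLB : S_KLB) {k : Type} [Field k] [Finite k] [CharP k 2] {m h : k[X]}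
    (l : k[X]) {D Y : ℕ} (hm : m ≠ 0) (hh : h ≠ 0) (h1 : 2 * h.natDegree + 14 ≤ m.natDegree)
    (h2 : m.natDegree ≤ D)
    (h3 : 4 * m.natDegree + h.natDegree + 1 ≤ 4 * Y + 2 * m.natDegree / 3) :
    |Kl m h l| ≤ t3 m * (12 * D * qq k ^ Y) := by
  have hq := qq_pos (k := k)
  obtain ⟨b, hb⟩ : ∃ b, h.natDegree + 1 + b = m.natDegree := ⟨m.natDegree - h.natDegree - 1, by omega⟩
  have key := hKLB k m h l b hm hh hb (by omega) (by omega)
  have ht := WSB_one_le m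
  have hD : (1 : ℝ) ≤ D := by exact_mod_cast (by omega : 1 ≤ D)
  have hbD : (b : ℝ) ≤ D := by exact_mod_cast (by omega : b ≤ D)
  have hu : (1 : ℝ) ≤ t3 m * (12 * D) := by nlinarith
  have e1 : qq k ^ (5 * m.natDegree) ≤
      (qq k ^ Y) ^ 4 * (qq k ^ b * qq k ^ (2 * m.natDegree / 3)) := by
    rw [← pow_mul, ← pow_add, ← pow_add]
    exact qq_pow_mono (by omega)
  have e2 : (12 * b * t3 m : ℝ) ≤ (t3 m * (12 * D)) ^ 4 := by
    refine le_trans ?_ (le_self_pow₀ hu (by norm_num))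
    nlinarith
  have e3 : Kl m h l ^ 4 ≤ (t3 m * (12 * D * qq k ^ Y)) ^ 4 := by
    refine le_of_mul_le_mul_right (key.trans ?_)
      (show 0 < qq k ^ b * qq k ^ (2 * m.natDegree / 3) by positivity)
    calc (12 * b * t3 m : ℝ) * qq k ^ (5 * m.natDegree)
        ≤ (t3 m * (12 * D)) ^ 4 * ((qq k ^ Y) ^ 4 * (qq k ^ b * qq k ^ (2 * m.natDegree / 3))) := by
          gcongr
      _ = _ := by ring
  refine le_of_pow_le_pow_left₀ (n := 4) (by norm_num) (by positivity) ?_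
  rwa [show (4 : ℕ) = 2 * 2 from rfl, pow_mul, sq_abs, ← pow_mul]

theorem p_WSB (hWS1 : S_WS1) (hKLB : S_KLB) (hT3S : S_T3S) :
    S_WSB := by
  intro k _ _ _ a c hyp
  obtain ⟨ha, -, hder⟩ := hyp
  obtain ⟨w, v, hwv⟩ := exists_sq_add (a * c)
  have hv : v ≠ 0 := by
    rintro rfl
    apply hder
    rw [hwv, derivative_sq_add]; simp
  have hq := qq_pos (k := k)
  have hq2 := two_le_qq (k := k)
  obtain ⟨n0, hn0⟩ := NEG 4 200 12 (1 / 2) (by norm_num) (by norm_num)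
  refine ⟨n0 + 1000 * (a.natDegree + v.natDegree + w.natDegree + 10), fun D hD h S0 hh hd hS => ?_⟩
  set Y := 43 * D / 100 + a.natDegree + v.natDegree + 2 with hY
  have key := hWS1 k a c w v h S0 D (D / 2 - D / 2 / 8)
    (fun B => t3 (B * a) * (12 * D * qq k ^ Y)) ha hwv hS (by omega) (by omega)
    (fun B => by positivity) (fun B hB hB0 hB1 l => by
      have h1 := natDegree_lt_of_mem_low hB hB0
      have e1 := natDegree_mul hB0 ha
      have e2 := natDegree_mul hh hv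
      exact WSB_kl hKLB l (mul_ne_zero hB0 ha) (mul_ne_zero hh hv) (by omega) (by omega)
        (by omega))
  refine key.trans ?_
  have s1 : ∑ B ∈ (low k (D / 2 + 1)).filter (fun B => B ≠ 0 ∧ D / 2 - D / 2 / 8 ≤ B.natDegree),
      qq k ^ (D / 2 + 1) / qq k ^ (B.natDegree - a.natDegree) *
        (t3 (B * a) * (12 * D * qq k ^ Y)) ≤
      (qq k ^ (D / 2 + 1 + 2 * a.natDegree) * (12 * D * qq k ^ Y)) *
        (((D : ℝ) + 1) ^ 3 * qq k) := by
    refine le_trans ?_ (mul_le_mul_of_nonneg_left (WSB_sum hT3S (k := k) D) (by positivity))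
    rw [mul_sum]
    refine le_trans (le_of_eq ?_) (sum_le_sum_of_subset_of_nonneg
      (s := ((low k (D / 2 + 1)).filter
        (fun B => B ≠ 0 ∧ D / 2 - D / 2 / 8 ≤ B.natDegree)).image (fun B => B * a))
      (fun m hm => ?_) (fun _ _ _ => by positivity))
    · rw [sum_image (fun x _ y _ e => mul_right_cancel₀ ha e)]
      refine sum_congr rfl fun B hB => ?_
      obtain ⟨-, hB0, hB1⟩ := mem_filter.1 hB
      obtain ⟨j, hj⟩ : ∃ j, B.natDegree = j + a.natDegree := ⟨B.natDegree - a.natDegree, by omega⟩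
      rw [natDegree_mul hB0 ha, hj, Nat.add_sub_cancel, pow_add (qq k) (D / 2 + 1),
        pow_add (qq k) (j + a.natDegree), pow_add (qq k) j, two_mul, pow_add (qq k) a.natDegree]
      field_simp
    · obtain ⟨B, hB, rfl⟩ := mem_image.1 hm
      obtain ⟨hB2, hB0, hB1⟩ := mem_filter.1 hB
      have h1 := natDegree_lt_of_mem_low hB2 hB0
      have e1 := natDegree_mul hB0 ha
      exact mem_filter.2 ⟨mem_low_of_natDegree_lt (by omega), mul_ne_zero hB0 ha⟩
  have s2 : qq k ^ D / qq k ^ (D / 20) = qq k ^ (D - D / 20) := by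
    rw [pow_sub₀ _ hq.ne' (by omega), div_eq_mul_inv]
  have s3 : qq k ^ (D / 2 + 1 + (D / 2 - D / 2 / 8)) ≤ qq k ^ (D - D / 20) / 2 := by
    have : qq k ^ (D / 2 + 1 + (D / 2 - D / 2 / 8) + 1) ≤ qq k ^ (D - D / 20) :=
      qq_pow_mono (by omega)
    rw [pow_succ] at this
    have h0 : 0 < qq k ^ (D / 2 + 1 + (D / 2 - D / 2 / 8)) := by positivity
    nlinarith
  have s4 : (qq k ^ (D / 2 + 1 + 2 * a.natDegree) * (12 * D * qq k ^ Y)) *
      (((D : ℝ) + 1) ^ 3 * qq k) ≤ qq k ^ (D - D / 20) / 2 := by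
    have h1 := (hn0 D (by omega)).trans
      (mul_le_mul_of_nonneg_left (two_pow_le_qq (k := k) (D / 200)) (by norm_num))
    have h2 : qq k ^ (D / 200 + (D / 2 + 1 + 2 * a.natDegree + Y + 1)) ≤ qq k ^ (D - D / 20) :=
      qq_pow_mono (by omega)
    have h3 : (D : ℝ) * ((D : ℝ) + 1) ^ 3 ≤ ((D : ℝ) + 1) ^ 4 := by
      rw [pow_succ' _ 3]; gcongr; linarith
    calc _ = 12 * ((D : ℝ) * ((D : ℝ) + 1) ^ 3) *
          qq k ^ (D / 2 + 1 + 2 * a.natDegree + Y + 1) := by ring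
      _ ≤ 12 * ((D : ℝ) + 1) ^ 4 * qq k ^ (D / 2 + 1 + 2 * a.natDegree + Y + 1) := by gcongr
      _ ≤ 1 / 2 * qq k ^ (D / 200) * qq k ^ (D / 2 + 1 + 2 * a.natDegree + Y + 1) := by gcongr
      _ ≤ _ := by rw [mul_assoc, ← pow_add]; linarith
  rw [s2]
  linarith

end Pool.Agent.P.MP_8be758_nt.L2
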